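import Pool.Agent.Work.MP_841263_sq.Conv

open scoped Topology

namespace Pool.Sep

open Pool.Stab Pool.Tube

universe v u

theorem p_ATT : Stmt_FAR.{u} → Stmt_ATT.{u} := by
  intro hF V _ _ m a b c hne hbd
  obtain ⟨v₀, hv₀⟩ := hne
  obtain ⟨z₀, hz₀⟩ := hbd
  set P : Set V := {v | ∀ i, a i v ≤ b i} with hP
  have hbdd : BddBelow (c '' P) := ⟨z₀, by rintro _ ⟨v, hv, rfl⟩; exact hz₀ v hv⟩
  have hneI : (c '' P).Nonempty := ⟨c v₀, v₀, hv₀, rfl⟩
  set μ : ℝ := sInf (c '' P) with hμ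
  have hμle : ∀ v, (∀ i, a i v ≤ b i) → μ ≤ c v := fun v hv => csInf_le hbdd ⟨v, hv, rfl⟩
  by_cases hex : ∃ v, (∀ i, a i v ≤ b i) ∧ c v ≤ μ
  · obtain ⟨v, hv, hcv⟩ := hex
    exact ⟨v, hv, fun w hw => hcv.trans (hμle w hw)⟩
  exfalso
  push Not at hex
  let A : Fin (m + 2) → (V × ℝ →ₗ[ℝ] ℝ) :=
    Fin.cons (-(LinearMap.snd ℝ V ℝ)) (Fin.cons (c ∘ₗ LinearMap.fst ℝ V ℝ - μ • LinearMap.snd ℝ V ℝ)
      (fun i => a i ∘ₗ LinearMap.fst ℝ V ℝ - b i • LinearMap.snd ℝ V ℝ))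
  obtain ⟨l, hl0, hl⟩ := hF ℝ (V × ℝ) (m + 2) A (LinearMap.snd ℝ V ℝ) (by
    rintro ⟨v, z⟩ h
    by_contra hz
    push Not at hz
    have hz' : 0 < z := hz
    have h1 : ∀ i : Fin m, a i v - b i * z ≤ 0 := fun i => by
      have := h i.succ.succ
      simpa [A] using this
    have h2 : c v - μ * z ≤ 0 := by
      have := h (1 : Fin (m + 2))
      have e : (1 : Fin (m + 2)) = (0 : Fin (m + 1)).succ := rfl
      rw [e] at this
      simpa [A] using this
    have h3 : ∀ i, a i (z⁻¹ • v) ≤ b i := fun i => by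
      rw [map_smul, smul_eq_mul, inv_mul_le_iff₀ hz']
      linarith [h1 i]
    have h4 := hex (z⁻¹ • v) h3
    rw [map_smul, smul_eq_mul, lt_inv_mul_iff₀ hz'] at h4
    linarith)
  have key : ∀ v, (∀ i, a i v ≤ b i) → 1 ≤ l 1 * (c v - μ) := by
    intro v hv
    have h1 := hl (v, 1)
    rw [Fin.sum_univ_succ, Fin.sum_univ_succ] at h1
    have e : (Fin.succ (0 : Fin (m + 1))) = (1 : Fin (m + 2)) := rfl
    rw [e] at h1
    have h2 : ∑ i : Fin m, l i.succ.succ * A i.succ.succ (v, 1) ≤ 0 := by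
      apply Finset.sum_nonpos
      intro i _
      apply mul_nonpos_of_nonneg_of_nonpos (hl0 _)
      simp only [A, Fin.cons_succ, LinearMap.sub_apply, LinearMap.comp_apply, LinearMap.fst_apply,
        LinearMap.smul_apply, LinearMap.snd_apply, smul_eq_mul, mul_one]
      linarith [hv i]
    have h3 : A 0 (v, 1) = -1 := by simp [A]
    have h4 : A 1 (v, 1) = c v - μ := by
      have e : (1 : Fin (m + 2)) = (0 : Fin (m + 1)).succ := rfl
      rw [e]
      simp [A]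
    rw [h3, h4] at h1
    have h5 := hl0 0
    simp only [LinearMap.snd_apply] at h1
    linarith
  have hl1 : 0 < l 1 := by
    rcases (hl0 1).lt_or_eq with h | h
    · exact h
    · have := key v₀ hv₀
      rw [← h] at this
      linarith
  have h6 : μ + (l 1)⁻¹ ≤ μ := by
    rw [hμ]
    apply le_csInf hneI
    rintro _ ⟨v, hv, rfl⟩
    have h7 := key v hv
    rw [← hμ]
    have h8 : (l 1)⁻¹ ≤ c v - μ := by
      rw [inv_le_iff_one_le_mul₀ hl1]
      linarith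
    linarith
  have : 0 < (l 1)⁻¹ := inv_pos.2 hl1
  linarith

end Pool.Sep
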