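import Pool.Agent.Work.MP_841263_sq.Conv

set_option autoImplicit false

/-! # MP_841263, separation, block CMN: the common minimiser -/

open scoped Topology

namespace Pool.Sep

open Pool.Stab Pool.Tube

universe v u

section

variable {K : Type u} [AddCommGroup K]

/-- Real combinations have nonnegative norm. -/
theorem CMN_psd {B : K →+ K →+ ℤ} (hB : IsPSD B) {n : ℕ} (x : Fin n → K) (l : Fin n → ℝ) :
    0 ≤ ∑ i, ∑ j, l i * l j * (B (x i) (x j) : ℝ) := by
  have h1 : ∀ c : Fin n → ℤ, 0 ≤ ∑ i, ∑ j, (c i : ℝ) * (c j : ℝ) * (B (x i) (x j) : ℝ) := by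
    intro c
    have h2 := hB.nonneg (∑ i, c i • x i)
    have h3 : B (∑ i, c i • x i) (∑ i, c i • x i) = ∑ i, ∑ j, c i * c j * B (x i) (x j) := by
      simp only [map_sum, AddMonoidHom.finsetSum_apply, map_zsmul, AddMonoidHom.zsmul_apply,
        smul_eq_mul, Finset.mul_sum]
      rw [Finset.sum_comm]
      refine Finset.sum_congr rfl fun i _ => Finset.sum_congr rfl fun j _ => ?_
      ring
    rw [h3] at h2
    exact_mod_cast h2
  have h2 : ∀ c : Fin n → ℚ, 0 ≤ ∑ i, ∑ j, (c i : ℝ) * (c j : ℝ) * (B (x i) (x j) : ℝ) := by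
    intro c
    obtain ⟨b, hb⟩ := IsLocalization.exist_integer_multiples_of_finite (nonZeroDivisors ℤ) c
    choose a ha using hb
    have hb0 : (b : ℤ) ≠ 0 := nonZeroDivisors.coe_ne_zero b
    have ha' : ∀ i, (a i : ℝ) = ((b : ℤ) : ℝ) * (c i : ℝ) := by
      intro i
      have h3 := ha i
      have h4 : ((a i : ℤ) : ℚ) = ((b : ℤ) : ℚ) * c i := by
        simpa [zsmul_eq_mul] using h3
      exact_mod_cast congrArg (fun q : ℚ => (q : ℝ)) h4
    have h5 := h1 a
    have h6 : ∑ i, ∑ j, (a i : ℝ) * (a j : ℝ) * (B (x i) (x j) : ℝ) =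
        ((b : ℤ) : ℝ) ^ 2 * ∑ i, ∑ j, (c i : ℝ) * (c j : ℝ) * (B (x i) (x j) : ℝ) := by
      rw [Finset.mul_sum]
      refine Finset.sum_congr rfl fun i _ => ?_
      rw [Finset.mul_sum]
      refine Finset.sum_congr rfl fun j _ => ?_
      rw [ha' i, ha' j]
      ring
    rw [h6] at h5
    have h7 : 0 < ((b : ℤ) : ℝ) ^ 2 := by
      have : ((b : ℤ) : ℝ) ≠ 0 := by exact_mod_cast hb0
      positivity
    exact nonneg_of_mul_nonneg_right h5 h7
  have hd : DenseRange (Pi.map (fun _ : Fin n => (fun q : ℚ => (q : ℝ)))) :=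
    DenseRange.piMap (fun _ => Rat.denseRange_cast)
  refine hd.induction_on (p := fun l : Fin n → ℝ =>
    0 ≤ ∑ i, ∑ j, l i * l j * (B (x i) (x j) : ℝ)) l ?_ ?_
  · exact isClosed_le continuous_const (by fun_prop)
  · intro c
    exact h2 c

/-- A real combination of norm zero is orthogonal to everything. -/
theorem CMN_null {B : K →+ K →+ ℤ} (hB : IsPSD B) {n : ℕ} (x : Fin n → K) (l : Fin n → ℝ)
    (h0 : ∑ i, ∑ j, l i * l j * (B (x i) (x j) : ℝ) = 0) (z : K) :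
    ∑ i, l i * (B (x i) z : ℝ) = 0 := by
  obtain ⟨w, hw⟩ : ∃ w : ℝ, w = ∑ i, l i * (B (x i) z : ℝ) := ⟨_, rfl⟩
  obtain ⟨β, hβ⟩ : ∃ β : ℝ, β = (B z z : ℝ) := ⟨_, rfl⟩
  have hβ0 : 0 ≤ β := by
    rw [hβ]
    exact_mod_cast hB.nonneg z
  have key : ∀ s : ℝ, 0 ≤ s ^ 2 * β + 2 * s * w := by
    intro s
    have h1 := CMN_psd hB (Fin.cons z x : Fin (n + 1) → K) (Fin.cons s l : Fin (n + 1) → ℝ)
    simp only [Fin.sum_univ_succ, Fin.cons_zero, Fin.cons_succ, Finset.sum_add_distrib] at h1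
    rw [h0] at h1
    have h2 : ∑ j, s * l j * (B z (x j) : ℝ) = s * w := by
      rw [hw, Finset.mul_sum]
      refine Finset.sum_congr rfl fun j _ => ?_
      rw [hB.symm z (x j)]
      ring
    have h3 : ∑ i, l i * s * (B (x i) z : ℝ) = s * w := by
      rw [hw, Finset.mul_sum]
      refine Finset.sum_congr rfl fun j _ => ?_
      ring
    rw [h2, h3, ← hβ] at h1
    nlinarith
  rw [← hw]
  by_contra hne
  have h1 := key (-(w / (β + 1)))
  have h2 : (-(w / (β + 1))) ^ 2 * β + 2 * (-(w / (β + 1))) * w =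
      -(w ^ 2 * (β + 2) / (β + 1) ^ 2) := by
    field_simp
    ring
  rw [h2] at h1
  have h3 : 0 < w ^ 2 * (β + 2) / (β + 1) ^ 2 := by positivity
  linarith

/-- The functionals which vanish on the radical. -/
def CMN_V (B : K →+ K →+ ℤ) : Submodule ℝ (K →+ ℝ) where
  carrier := {w | ∀ r ∈ radical B, w r = 0}
  add_mem' := by
    intro a b ha hb r hr
    rw [AddMonoidHom.add_apply, ha r hr, hb r hr, add_zero]
  zero_mem' := fun _ _ => rfl
  smul_mem' := by
    intro c w hw r hr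
    rw [AddMonoidHom.coe_smul, Pi.smul_apply, hw r hr, smul_zero]

/-- The functional `(w, z) ↦ w y + s z`. -/
def CMN_fn (B : K →+ K →+ ℤ) (y : K) (s : ℝ) : (CMN_V B × ℝ) →ₗ[ℝ] ℝ where
  toFun v := (v.1 : K →+ ℝ) y + s * v.2
  map_add' := by
    intro a b
    simp only [Prod.fst_add, Prod.snd_add, Submodule.coe_add, AddMonoidHom.add_apply]
    ring
  map_smul' := by
    intro c a
    simp only [Prod.smul_fst, Prod.smul_snd, Submodule.coe_smul, AddMonoidHom.coe_smul,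
      Pi.smul_apply, smul_eq_mul, RingHom.id_apply]
    ring

theorem CMN_fn_apply (B : K →+ K →+ ℤ) (y : K) (s : ℝ) (v : CMN_V B × ℝ) :
    CMN_fn B y s v = (v.1 : K →+ ℝ) y + s * v.2 := rfl

/-- ATT in a slice. -/
theorem CMN_att (hATT : Stmt_ATT.{u}) (B : K →+ K →+ ℤ) (θ₀ : K →+ ℝ) {m n : ℕ}
    (x : Fin m → K) (y : Fin n → K) (μ : ℝ)
    (hfeas : ∃ θ : K →+ ℝ, (∀ r ∈ radical B, θ r = θ₀ r) ∧ ∀ i, θ (y i) ≤ μ)
    (hbd : ∀ θ : K →+ ℝ, (∀ r ∈ radical B, θ r = θ₀ r) → ∀ z : ℝ, (∀ i, θ (x i) ≤ z) →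
      0 ≤ z) :
    ∃ θ : K →+ ℝ, (∀ r ∈ radical B, θ r = θ₀ r) ∧ ∃ ν : ℝ, (∀ i, θ (x i) ≤ ν) ∧
      (∀ i, θ (y i) ≤ μ) ∧ ∀ θ' : K →+ ℝ, (∀ r ∈ radical B, θ' r = θ₀ r) → ∀ z : ℝ,
        (∀ i, θ' (x i) ≤ z) → (∀ i, θ' (y i) ≤ μ) → ν ≤ z := by
  have hmem : ∀ θ : K →+ ℝ, (∀ r ∈ radical B, θ r = θ₀ r) → θ - θ₀ ∈ CMN_V B := by
    intro θ hθ r hr
    rw [AddMonoidHom.sub_apply, hθ r hr, sub_self]
  have hsl : ∀ w : CMN_V B, ∀ r ∈ radical B, (θ₀ + (w : K →+ ℝ)) r = θ₀ r := by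
    intro w r hr
    rw [AddMonoidHom.add_apply, w.2 r hr, add_zero]
  have hiff : ∀ (w : CMN_V B) (z : ℝ),
      (∀ k, Fin.append (fun i => CMN_fn B (x i) (-1)) (fun i => CMN_fn B (y i) 0) k (w, z) ≤
        Fin.append (fun i => - θ₀ (x i)) (fun i => μ - θ₀ (y i)) k) ↔
      (∀ i, (θ₀ + (w : K →+ ℝ)) (x i) ≤ z) ∧ ∀ i, (θ₀ + (w : K →+ ℝ)) (y i) ≤ μ := by
    intro w z
    constructor
    · intro h1
      refine ⟨fun i => ?_, fun i => ?_⟩
      · have h2 := h1 (Fin.castAdd n i)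
        rw [Fin.append_left, Fin.append_left, CMN_fn_apply] at h2
        rw [AddMonoidHom.add_apply]
        simp only at h2
        linarith
      · have h2 := h1 (Fin.natAdd m i)
        rw [Fin.append_right, Fin.append_right, CMN_fn_apply] at h2
        rw [AddMonoidHom.add_apply]
        simp only at h2
        linarith
    · rintro ⟨h1, h2⟩ k
      refine Fin.addCases (fun i => ?_) (fun i => ?_) k
      · rw [Fin.append_left, Fin.append_left, CMN_fn_apply]
        have h3 := h1 i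
        rw [AddMonoidHom.add_apply] at h3
        simp only
        linarith
      · rw [Fin.append_right, Fin.append_right, CMN_fn_apply]
        have h3 := h2 i
        rw [AddMonoidHom.add_apply] at h3
        simp only
        linarith
  have hobj : ∀ (w : CMN_V B) (z : ℝ), CMN_fn B 0 1 (w, z) = z := by
    intro w z
    rw [CMN_fn_apply, map_zero]
    ring
  obtain ⟨⟨w, ν⟩, h1, h2⟩ := hATT (CMN_V B × ℝ) (m + n)
    (Fin.append (fun i => CMN_fn B (x i) (-1)) (fun i => CMN_fn B (y i) 0))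
    (Fin.append (fun i => - θ₀ (x i)) (fun i => μ - θ₀ (y i))) (CMN_fn B 0 1) (by
      obtain ⟨θ, hθ, hθ1⟩ := hfeas
      refine ⟨(⟨θ - θ₀, hmem θ hθ⟩, ∑ i, |θ (x i)|), (hiff _ _).2 ⟨fun i => ?_, fun i => ?_⟩⟩
      · have h3 : |θ (x i)| ≤ ∑ i, |θ (x i)| :=
          Finset.single_le_sum (f := fun i => |θ (x i)|) (fun i _ => abs_nonneg _)
            (Finset.mem_univ i)
        have h4 := le_abs_self (θ (x i))
        simp only [AddMonoidHom.add_apply, AddMonoidHom.sub_apply]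
        linarith
      · simp only [AddMonoidHom.add_apply, AddMonoidHom.sub_apply]
        linarith [hθ1 i]) (by
      refine ⟨0, ?_⟩
      rintro ⟨w, z⟩ h3
      rw [hobj]
      exact hbd _ (hsl w) z ((hiff w z).1 h3).1)
  obtain ⟨h3, h4⟩ := (hiff w ν).1 h1
  refine ⟨θ₀ + (w : K →+ ℝ), hsl w, ν, h3, h4, ?_⟩
  intro θ' hθ' z h5 h6
  have h7 := h2 (⟨θ' - θ₀, hmem θ' hθ'⟩, z) ((hiff _ _).2 ⟨fun i => by
    simp only [AddMonoidHom.add_apply, AddMonoidHom.sub_apply]
    linarith [h5 i], fun i => by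
    simp only [AddMonoidHom.add_apply, AddMonoidHom.sub_apply]
    linarith [h6 i]⟩)
  rw [hobj, hobj] at h7
  exact h7

end

theorem p_CMN : Stmt_ATT.{u} → Stmt_MNP.{u} → Stmt_NDG.{u} → Stmt_CMN.{u} := by
  intro hATT hMNP hNDG K _ _ _ B im δ Q S hC θ₀ hθ₀
  have hB := hC.lat.psd
  have hδr : δ ∈ radical B := hC.lat.rad
  obtain ⟨FQ, hFQf, hFQ, hup⟩ := hC.up
  obtain ⟨FS, hFSf, hFS, hdn⟩ := hC.dn
  obtain ⟨mQ, xQ, -, hxQ⟩ := hFQf.fin_param
  obtain ⟨mS, yS, -, hyS⟩ := hFSf.fin_param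
  have hSl : ∀ θ : K →+ ℝ, (∀ r ∈ radical B, θ r = θ₀ r) → θ δ = 1 := fun θ h => by
    rw [h δ hδr, hθ₀]
  have hxQm : ∀ j, xQ j ∈ FQ := fun j => by
    rw [← hxQ]
    exact Set.mem_range_self j
  have hySm : ∀ i, yS i ∈ FS := fun i => by
    rw [← hyS]
    exact Set.mem_range_self i
  have hQ' : ∀ θ : K →+ ℝ, θ δ = 1 → ∀ x ∈ Q, ∃ j, θ (xQ j) ≤ θ x := by
    intro θ hθ x hx
    obtain ⟨y, hy, k, rfl⟩ := hup x hx
    rw [← hxQ] at hy
    obtain ⟨j, rfl⟩ := hy
    refine ⟨j, ?_⟩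
    rw [map_add, map_zsmul, hθ]
    simp
  have hS' : ∀ θ : K →+ ℝ, θ δ = 1 → ∀ y ∈ S, ∃ i, θ y ≤ θ (yS i) ∧
      (θ y = θ (yS i) → y = yS i) := by
    intro θ hθ y hy
    obtain ⟨y', hy', k, rfl⟩ := hdn y hy
    rw [← hyS] at hy'
    obtain ⟨i, rfl⟩ := hy'
    have h1 : θ (yS i - (k : ℤ) • δ) = θ (yS i) - k := by
      rw [map_sub, map_zsmul, hθ]
      simp
    refine ⟨i, ?_, ?_⟩
    · rw [h1]
      have : (0 : ℝ) ≤ k := Nat.cast_nonneg k
      linarith
    · intro h2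
      rw [h1] at h2
      have h3 : (k : ℝ) = 0 := by linarith
      have h4 : k = 0 := by exact_mod_cast h3
      rw [h4]
      simp
  -- minimum of `h`
  obtain ⟨θ₁, hθ₁, μ, hμ1, -, hμ2⟩ := CMN_att hATT B θ₀ yS (fun _ : Fin 0 => (0 : K)) 0
    ⟨θ₀, fun r _ => rfl, fun i => i.elim0⟩ (by
      intro θ hθ z hz
      obtain ⟨i, hi, -⟩ := hS' θ (hSl θ hθ) 0 hC.s0
      rw [map_zero] at hi
      exact hi.trans (hz i))
  -- minimum of `g` there
  obtain ⟨θ, hθ, ν, hν1, hν2, hν3⟩ := CMN_att hATT B θ₀ (fun j => - xQ j) yS μ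
    ⟨θ₁, hθ₁, hμ1⟩ (by
      intro θ hθ z hz
      obtain ⟨j, hj⟩ := hQ' θ (hSl θ hθ) 0 hC.q0
      rw [map_zero] at hj
      have h1 := hz j
      rw [map_neg] at h1
      linarith)
  have hneS : Nonempty (Fin mS) := by
    obtain ⟨i, -⟩ := hS' θ (hSl θ hθ) 0 hC.s0
    exact ⟨i⟩
  have hneQ : Nonempty (Fin mQ) := by
    obtain ⟨i, -⟩ := hQ' θ (hSl θ hθ) 0 hC.q0
    exact ⟨i⟩
  have hν1' : ∀ j, - θ (xQ j) ≤ ν := fun j => by
    have := hν1 j
    rwa [map_neg] at this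
  have hclaim : ∀ θ' : K →+ ℝ, (∀ r ∈ radical B, θ' r = θ₀ r) → ∃ j, ν ≤ - θ' (xQ j) := by
    intro θ' hθ'
    by_contra hcon
    push Not at hcon
    have hJf : {x | x ∈ FQ ∧ - θ x = ν}.Finite := hFQf.subset fun x hx => hx.1
    obtain ⟨m, x, -, hx⟩ := hJf.fin_param
    have hxm : ∀ k, x k ∈ FQ ∧ - θ (x k) = ν := by
      intro k
      have : x k ∈ Set.range x := Set.mem_range_self k
      rw [hx] at this
      exact this
    have hm : m ≠ 0 := by
      intro hm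
      subst hm
      obtain ⟨j, -, hj⟩ := Finset.exists_max_image (Finset.univ : Finset (Fin mQ))
        (fun j => - θ (xQ j)) Finset.univ_nonempty
      have h1 : - θ (xQ j) ≠ ν := by
        intro h1
        have h2 : xQ j ∈ {x | x ∈ FQ ∧ - θ x = ν} := ⟨hxQm j, h1⟩
        rw [← hx] at h2
        obtain ⟨k, -⟩ := h2
        exact k.elim0
      have h2 := hν3 θ hθ (- θ (xQ j)) (fun j' => by
        rw [map_neg]
        exact hj j' (Finset.mem_univ _)) hν2
      exact h1 (le_antisymm (hν1' j) h2)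
    obtain ⟨m', rfl⟩ := Nat.exists_eq_succ_of_ne_zero hm
    obtain ⟨l, hl0, hl1, hlb, hle⟩ := hMNP K B hB m' x
    obtain ⟨b, hb⟩ : ∃ b : ℝ, b = ∑ i, ∑ j, l i * l j * (B (x i) (x j) : ℝ) := ⟨_, rfl⟩
    rw [← hb] at hlb hle
    obtain ⟨w, hw⟩ : ∃ w : K →+ ℝ, ∀ z, w z = ∑ i, l i * (B (x i) z : ℝ) := by
      refine ⟨AddMonoidHom.mk' (fun z => ∑ i, l i * (B (x i) z : ℝ)) ?_, fun z => rfl⟩
      intro a c
      rw [← Finset.sum_add_distrib]
      refine Finset.sum_congr rfl fun i _ => ?_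
      rw [map_add]
      push_cast
      ring
    have hwr : ∀ r ∈ radical B, w r = 0 := by
      intro r hr
      rw [hw]
      refine Finset.sum_eq_zero fun i _ => ?_
      rw [hB.symm, mem_radical.1 hr (x i)]
      simp
    obtain ⟨k₀, hk₀⟩ : ∃ k, 0 < l k := by
      by_contra hno
      push Not at hno
      have h1 : ∑ i, l i = 0 := Finset.sum_eq_zero fun i _ => le_antisymm (hno i) (hl0 i)
      rw [hl1] at h1
      exact one_ne_zero h1
    have hb0 : 0 ≤ b := by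
      rw [hb]
      exact CMN_psd hB x l
    have hbpos : 0 < b := by
      rcases hb0.eq_or_lt with h0 | h0
      swap
      · exact h0
      exfalso
      have hw0 : ∀ z, w z = 0 := fun z => by
        rw [hw]
        exact CMN_null hB x l (by rw [← hb]; exact h0.symm) z
      obtain ⟨p, q, c, hc⟩ := hNDG K B hB (θ' - θ) (fun r hr => by
        rw [AddMonoidHom.sub_apply, hθ' r hr, hθ r hr, sub_self])
      have h1 : ∑ i, l i * (θ' - θ) (x i) = 0 := by
        have h2 : ∑ i, l i * (θ' - θ) (x i) = ∑ j, c j * w (q j) := by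
          calc ∑ i, l i * (θ' - θ) (x i) = ∑ i, ∑ j, l i * (c j * (B (q j) (x i) : ℝ)) := by
                refine Finset.sum_congr rfl fun i _ => ?_
                rw [hc, Finset.mul_sum]
            _ = ∑ j, ∑ i, l i * (c j * (B (q j) (x i) : ℝ)) := Finset.sum_comm
            _ = ∑ j, c j * w (q j) := by
                refine Finset.sum_congr rfl fun j _ => ?_
                rw [hw, Finset.mul_sum]
                refine Finset.sum_congr rfl fun i _ => ?_
                rw [hB.symm (q j) (x i)]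
                ring
        rw [h2]
        exact Finset.sum_eq_zero fun j _ => by rw [hw0, mul_zero]
      have h2 : 0 < ∑ i, l i * (θ' - θ) (x i) := by
        have hpos : ∀ i, 0 < (θ' - θ) (x i) := by
          intro i
          have h3 := (hxm i).1
          rw [← hxQ] at h3
          obtain ⟨j, hj⟩ := h3
          have h4 := hcon j
          have h5 := (hxm i).2
          rw [hj] at h4
          rw [AddMonoidHom.sub_apply]
          linarith
        exact Finset.sum_pos' (fun i _ => mul_nonneg (hl0 i) (hpos i).le)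
          ⟨k₀, Finset.mem_univ _, mul_pos hk₀ (hpos k₀)⟩
      linarith
    have hev : ∀ᶠ ε in 𝓝[>] (0 : ℝ), ∀ j, - θ (xQ j) < ν →
        -(θ (xQ j) + ε * w (xQ j)) < ν - ε * b := by
      rw [Filter.eventually_all]
      intro j
      by_cases hj : - θ (xQ j) < ν
      · have h1 : ContinuousAt (fun ε : ℝ => -(θ (xQ j) + ε * w (xQ j))) 0 := by fun_prop
        have h2 : ContinuousAt (fun ε : ℝ => ν - ε * b) 0 := by fun_prop
        have h3 := h1.eventually_lt h2 (by simpa using hj)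
        filter_upwards [mem_nhdsWithin_of_mem_nhds h3] with ε hε _
        exact hε
      · exact Filter.Eventually.of_forall fun ε h1 => absurd h1 hj
    obtain ⟨ε, hε, hε0⟩ := (hev.and self_mem_nhdsWithin).exists
    have hε0' : 0 < ε := hε0
    obtain ⟨θε, hθε⟩ : ∃ θε : K →+ ℝ, ∀ z, θε z = θ z + ε * w z :=
      ⟨θ + ε • w, fun z => by
        rw [AddMonoidHom.add_apply, AddMonoidHom.coe_smul, Pi.smul_apply, smul_eq_mul]⟩
    have hθεr : ∀ r ∈ radical B, θε r = θ₀ r := by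
      intro r hr
      rw [hθε, hwr r hr, hθ r hr]
      ring
    have hεd := hSl θε hθεr
    have hQmin : ∀ j, - θε (xQ j) ≤ ν - ε * b := by
      intro j
      rw [hθε]
      by_cases hj : - θ (xQ j) < ν
      · exact (hε j hj).le
      · have h1 : - θ (xQ j) = ν := le_antisymm (hν1' j) (not_lt.1 hj)
        have h2 : xQ j ∈ {x | x ∈ FQ ∧ - θ x = ν} := ⟨hxQm j, h1⟩
        rw [← hx] at h2
        obtain ⟨k, hk⟩ := h2
        have h3 := hlb k
        rw [← hw, hk] at h3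
        have h4 := mul_le_mul_of_nonneg_left h3 hε0'.le
        linarith
    have hxk : ∀ k, 0 < l k → θε (x k) = -ν + ε * b := by
      intro k hk
      have h1 := hle k hk
      rw [← hw] at h1
      have h2 := (hxm k).2
      rw [hθε, h1]
      linarith
    have hxk' : ∀ k, 0 < l k → ∀ x' ∈ Q, θε (x k) ≤ θε x' := by
      intro k hk x' hx'
      obtain ⟨j, hj⟩ := hQ' θε hεd x' hx'
      have h1 := hQmin j
      rw [hxk k hk]
      linarith
    -- the maximal element of `S`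
    obtain ⟨i₀, -, hi₀⟩ := Finset.exists_max_image (Finset.univ : Finset (Fin mS))
      (fun i => θε (yS i)) Finset.univ_nonempty
    obtain ⟨i₁, hi₁, hi₁'⟩ := Finset.exists_min_image
      (Finset.univ.filter (fun i : Fin mS => θε (yS i) = θε (yS i₀))) (fun i => im (yS i))
      ⟨i₀, Finset.mem_filter.2 ⟨Finset.mem_univ _, rfl⟩⟩
    have hi₁e : θε (yS i₁) = θε (yS i₀) := (Finset.mem_filter.1 hi₁).2
    have hmax : ∀ y' ∈ S, θε y' ≤ θε (yS i₁) := by
      intro y' hy'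
      obtain ⟨i, hi, -⟩ := hS' θε hεd y' hy'
      rw [hi₁e]
      exact hi.trans (hi₀ i (Finset.mem_univ _))
    have hmin : ∀ y' ∈ S, θε y' = θε (yS i₁) → im (yS i₁) ≤ im y' := by
      intro y' hy' he
      obtain ⟨i, hi, hi'⟩ := hS' θε hεd y' hy'
      have h1 : θε (yS i) ≤ θε (yS i₀) := hi₀ i (Finset.mem_univ _)
      have h2 : θε y' = θε (yS i) := le_antisymm hi (by rw [he, hi₁e]; exact h1)
      rw [hi' h2]
      refine hi₁' i (Finset.mem_filter.2 ⟨Finset.mem_univ _, ?_⟩)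
      rw [← h2, he, hi₁e]
    have hcor : ∀ k, 0 < l k → B (x k) (yS i₁) ≤ 0 := fun k hk =>
      hC.cor θε hεd (x k) (hFQ (hxm k).1) (hxk' k hk) (yS i₁) (hFS (hySm i₁)) hmax hmin
    have hwy : w (yS i₁) ≤ 0 := by
      rw [hw]
      refine Finset.sum_nonpos fun i _ => ?_
      rcases (hl0 i).eq_or_lt with h0 | h0
      · rw [← h0, zero_mul]
      · have h1 : (B (x i) (yS i₁) : ℝ) ≤ 0 := by exact_mod_cast hcor i h0
        exact mul_nonpos_of_nonneg_of_nonpos h0.le h1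
    have hle2 : ∀ i, θε (yS i) ≤ μ := by
      intro i
      have h1 : θε (yS i) ≤ θε (yS i₁) := hmax _ (hFS (hySm i))
      have h2 : θε (yS i₁) ≤ θ (yS i₁) := by
        rw [hθε]
        have := mul_nonneg hε0'.le (neg_nonneg.2 hwy)
        linarith
      exact h1.trans (h2.trans (hν2 i₁))
    have h1 := hν3 θε hθεr (ν - ε * b) (fun j => by
      rw [map_neg]
      exact hQmin j) hle2
    have h2 := mul_pos hε0' hbpos
    linarith
  refine ⟨θ, hθ, fun θ' hθ' => ⟨?_, ?_⟩⟩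
  · intro y hy
    obtain ⟨i, hi, -⟩ := hS' θ (hSl θ hθ) y hy
    obtain ⟨i', -, hi'⟩ := Finset.exists_max_image (Finset.univ : Finset (Fin mS))
      (fun i => θ' (yS i)) Finset.univ_nonempty
    refine ⟨yS i', hFS (hySm i'), ?_⟩
    have h1 := hμ2 θ' hθ' (θ' (yS i')) (fun i => hi' i (Finset.mem_univ _))
      (fun i => i.elim0)
    exact hi.trans ((hν2 i).trans h1)
  · intro x hx
    obtain ⟨j, hj⟩ := hQ' θ (hSl θ hθ) x hx
    obtain ⟨j', hj'⟩ := hclaim θ' hθ'
    refine ⟨xQ j', hFQ (hxQm j'), ?_⟩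
    have h1 := hν1' j
    linarith

end Pool.Sep
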