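import Mathlib
import Pool.Agent.Work.MP_841263_tu.Interface

/-!
# Separation of two objects of a tube heart, part 1: convex geometry (helper34)

MP_841263_ag, path connectedness of `Stab`, part (S). Pure convex geometry, no category. RULES: one file
`Pool/Agent/Work/MP_841263_sq/B_<ID>.lean` per block, `import Pool.Agent.Work.MP_841263_sq.Conv`, the `open`, `namespace Pool.Sep` and
`universe` lines of this file, theorem `p_<ID> : Stmt_X → Stmt_Y → Stmt_<ID>` with exactly the statements of the column `uses` as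
hypotheses, in this order (with explicit universes, e.g. `Stmt_FAR.{u} → Stmt_ATT.{u}`, if needed). Auxiliary lemmas with the
name of the block in front (`ATT_aux`). No straight double quotes. `LatHyp`, `IsPSD`, `radical`: `MP_841263_tu/Interface.lean`,
`MP_841263_st/Lattice.lean`.
-/

open scoped Topology

namespace Pool.Sep

open Pool.Stab Pool.Tube

universe v u

/-! ### Convex geometry (no category) -/

section Convex

/-- FAR (80 lines): Farkas' lemma over `ℚ` or `ℝ` (any linearly ordered field), algebraic proof by induction on `m` for all `V` (Bartl).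
`m = 0`: `c ≤ 0` on `V`, so `c = 0`. Step: if `c v ≤ 0` already follows from the first `m` inequalities, take `l m = 0`. Otherwise there is
`x` with `a i x ≤ 0`, `i < m`, `0 < c x`; so `0 < a m x`, scale: `a m x = 1`. Put `a' i v = a i v - a i x * a m v`, `c' v = c v - c x * a m v`. If all
`a' i v ≤ 0` then for `y = v - a m v • x`: `a i y = a' i v ≤ 0`, `a m y = 0`, so `c' v = c y ≤ 0`. Induction: `c' = ∑ l i a' i`,
`c = ∑ l i a i + (c x - ∑ l i a i x) a m`, and the last coefficient is `≥ 0`. -/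
def Stmt_FAR : Prop := ∀ (F : Type) [Field F] [LinearOrder F] [IsStrictOrderedRing F]
  (V : Type u) [AddCommGroup V] [Module F V] (m : ℕ)
  (a : Fin m → V →ₗ[F] F) (c : V →ₗ[F] F), (∀ v, (∀ i, a i v ≤ 0) → c v ≤ 0) →
  ∃ l : Fin m → F, (∀ i, 0 ≤ l i) ∧ ∀ v, c v = ∑ i, l i * a i v

/-- ATT (60 lines; uses FAR): a linear functional `c` which is bounded below on a nonempty polyhedron `P = {v | ∀ i, a i v ≤ b i}` attains
its minimum. Let `m` be the infimum of `c` on `P`. If no `v ∈ P` has `c v ≤ m`: FAR for `V × ℝ` and the functionals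
`(v, z) ↦ a i v - z b i`, `(v, z) ↦ c v - z m`, `(v, z) ↦ - z`, and `(v, z) ↦ z` (if all are `≤ 0` and `0 < z` then `v / z` is in `P` with `c (v / z) ≤ m`) gives
nonnegative coefficients with `z = ∑ l i (a i v - z b i) + l₀ (c v - z m) - l₁ z`. For `v ∈ P`, `z = 1`: `1 ≤ l₀ (c v - m)`; so `0 < l₀` and
`m + 1/l₀ ≤ c v` on `P`: contradiction. -/
def Stmt_ATT : Prop := ∀ (V : Type u) [AddCommGroup V] [Module ℝ V] (m : ℕ)
  (a : Fin m → V →ₗ[ℝ] ℝ) (b : Fin m → ℝ) (c : V →ₗ[ℝ] ℝ), (∃ v, ∀ i, a i v ≤ b i) →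
  (∃ z : ℝ, ∀ v, (∀ i, a i v ≤ b i) → z ≤ c v) →
  ∃ v, (∀ i, a i v ≤ b i) ∧ ∀ w, (∀ i, a i w ≤ b i) → c v ≤ c w

/-- MNP (80 lines): the point of least norm. `λ ↦ ∑ λ_i λ_j B (x i) (x j)` is continuous on the compact `stdSimplex ℝ (Fin (m + 1))`;
let `l` be a minimum, `p = ∑ l i x i`. For every `k`: `(1 - s) l + s e_k` is in the simplex, `0 ≤ s ≤ 1`, the derivative at `0` gives
`B p (x k) ≥ B p p`; and `∑_k l k B p (x k) = B p p` gives equality if `0 < l k`. -/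
def Stmt_MNP : Prop := ∀ (K : Type u) [AddCommGroup K] (B : K →+ K →+ ℤ), IsPSD B →
  ∀ (m : ℕ) (x : Fin (m + 1) → K), ∃ l : Fin (m + 1) → ℝ, (∀ i, 0 ≤ l i) ∧ ∑ i, l i = 1 ∧
    (∀ k, ∑ i, ∑ j, l i * l j * (B (x i) (x j) : ℝ) ≤ ∑ i, l i * (B (x i) (x k) : ℝ)) ∧
    ∀ k, 0 < l k →
      ∑ i, l i * (B (x i) (x k) : ℝ) = ∑ i, ∑ j, l i * l j * (B (x i) (x j) : ℝ)

/-- NDG (100 lines): a functional `w` which vanishes on the radical is `B q` for a real combination `q` of elements of `K`. Take a maximal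
family `e : Fin d → K` which is `ℤ`-independent modulo the radical (basis of `K / radical`, free of finite rank as the radical
is saturated, or of `ℚ ⊗ K / radical`). The Gram matrix `B (e i) (e j)` is invertible over `ℚ`: if `∑ c i B (e i) (e j) = 0` for all `j`, `c i ∈ ℤ`,
then `x = ∑ c i e i` has `B x x = 0`, so `x` is in the radical (`IsPSD.mem_radical_of_self`) and `c = 0`. So its determinant is not 0 and
it is invertible over `ℝ`: solve `∑ c i B (e i) (e j) = w (e j)`. Then `w - ∑ c i B (e i)` vanishes on the `e j` and on the radical, so on a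
subgroup of finite index, so everywhere. -/
def Stmt_NDG : Prop := ∀ (K : Type u) [AddCommGroup K] [Module.Finite ℤ K] [Module.Free ℤ K]
  (B : K →+ K →+ ℤ), IsPSD B → ∀ w : K →+ ℝ, (∀ r ∈ radical B, w r = 0) →
  ∃ (m : ℕ) (q : Fin m → K) (c : Fin m → ℝ), ∀ x, w x = ∑ i, c i * (B (q i) x : ℝ)

/-- Finitely many elements of `Q` generate it by adding multiples `k δ`, `0 ≤ k`. -/
def FinUp {K : Type u} [AddCommGroup K] (δ : K) (Q : Set K) : Prop :=
  ∃ F : Set K, F.Finite ∧ F ⊆ Q ∧ ∀ x ∈ Q, ∃ y ∈ F, ∃ k : ℕ, x = y + (k : ℤ) • δ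

/-- Finitely many elements of `Q` generate it by subtracting multiples `k δ`, `0 ≤ k`. -/
def FinDn {K : Type u} [AddCommGroup K] (δ : K) (Q : Set K) : Prop :=
  ∃ F : Set K, F.Finite ∧ F ⊆ Q ∧ ∀ x ∈ Q, ∃ y ∈ F, ∃ k : ℕ, x = y - (k : ℤ) • δ

/-- The properties of the set `Q` of the classes of the quotients of `M` and of the set `S` of the classes of the subobjects of
`L`. `cor`: if the quotient `N` of `M` has minimal `θ`, the subobject `A` of `L` has maximal `θ` and, among those, minimal `im`,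
then `χ(N, A) ≤ 0`. -/
structure ConvHyp {K : Type u} [AddCommGroup K] (B : K →+ K →+ ℤ) (im : K →+ ℝ) (δ : K)
    (Q S : Set K) : Prop where
  lat : LatHyp B im δ
  up : FinUp δ Q
  dn : FinDn δ S
  q0 : (0 : K) ∈ Q
  s0 : (0 : K) ∈ S
  qim : ∀ x ∈ Q, 0 ≤ im x
  sim : ∀ y ∈ S, 0 ≤ im y
  qpt : ∀ x ∈ Q, im x = 0 → ∃ k : ℕ, x = (k : ℤ) • δ
  spt : ∀ y ∈ S, im y = 0 → y = 0
  cor : ∀ θ : K →+ ℝ, θ δ = 1 → ∀ x ∈ Q, (∀ x' ∈ Q, θ x ≤ θ x') → ∀ y ∈ S,
    (∀ y' ∈ S, θ y' ≤ θ y) → (∀ y' ∈ S, θ y' = θ y → im y ≤ im y') → B x y ≤ 0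

/-- CMN (200 lines; uses ATT MNP NDG): the common minimiser. In the slice of `θ₀` (functionals with the values of `θ₀` on the
radical) there is `θ` which minimises both `h θ = max over S` and `g θ = - min over Q`. As `θ δ = 1`, `max` and `min` are attained on the
finite sets `F_S`, `F_Q` of `dn`, `up`. (1) `h ≥ 0` (`s0`), so ATT (in `(K →+ ℝ) × ℝ`, variables `θ, z`, constraints
`θ y ≤ z` for `y ∈ F_S`, `θ = θ₀` on the radical (finitely many generators: `Module.Finite`, or two equations for a basis); `c = z`)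
gives the minimum `μ` of `h` on the slice. ATT again: minimise `g` (`z ≥ - θ x`, `x ∈ F_Q`) on the slice with `θ y ≤ μ`, `y ∈ F_S`; `g ≥ 0`
(`q0`). Result `θ`, `h θ = μ`. (2) Claim: `g θ ≤ g θ'` for all `θ'` in the slice. Suppose `g θ' < g θ`. Let `x 0 .. x m` be the elements of
`F_Q` with `- θ (x j) = g θ`, `l` from MNP, `b = ∑∑ l l B`, `w z = ∑ l i B (x i) z` (`w : K →+ ℝ`, zero on the radical). If `b = 0` then `w = 0`
(`∑ l i x i` is a null vector: Cauchy-Schwarz for real combinations, from `IsPSD` by density or `(∑ l i B (x i) y)² ≤ b B y y`), and by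
NDG for `θ' - θ` (zero on the radical): `∑ l i (θ' - θ) (x i) = ∑_j c j ∑_i l i B (q j) (x i) = 0`, so `- ∑ l i θ' (x i) = g θ`, but
`- θ' (x i) ≤ g θ' < g θ`: contradiction. So `0 < b`. Put `θ_ε = θ + ε w`, small `ε > 0`: `- θ_ε (x k) ≤ g θ - ε b` with equality if
`0 < l k`, and `- θ_ε x < g θ - ε b` for the other `x ∈ F_Q`. So `g θ_ε = g θ - ε b < g θ`, and the `x k` with `0 < l k` have minimal `θ_ε` in
`Q`. Let `y ∈ S` have maximal `θ_ε` and, among those, minimal `im` (finitely many: they are in `F_S`). `cor`: `B (x k) y ≤ 0` if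
`0 < l k`, so `w y ≤ 0` and `h θ_ε = θ y + ε w y ≤ h θ = μ`. This contradicts the choice of `θ`. -/
def Stmt_CMN : Prop := ∀ (K : Type u) [AddCommGroup K] [Module.Finite ℤ K] [Module.Free ℤ K]
  (B : K →+ K →+ ℤ) (im : K →+ ℝ) (δ : K) (Q S : Set K), ConvHyp B im δ Q S →
  ∀ θ₀ : K →+ ℝ, θ₀ δ = 1 → ∃ θ : K →+ ℝ, (∀ r ∈ radical B, θ r = θ₀ r) ∧
    ∀ θ' : K →+ ℝ, (∀ r ∈ radical B, θ' r = θ₀ r) →
      (∀ y ∈ S, ∃ y' ∈ S, θ y ≤ θ' y') ∧ ∀ x ∈ Q, ∃ x' ∈ Q, θ' x' ≤ θ x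

/-- THA (150 lines; uses ATT CMN). Let `r₀` be in the radical, `0 < im r₀` (rank 2, `imrad`); every radical `r` has `N r = a δ + b r₀`, `N ≠ 0`
(rank 2), so `δ, r₀` determine the slice. `P_Q = {θ | θ δ = 1, θ ≥ 0 on Q}`, `P_S = {θ | θ δ = 1, θ ≤ 0 on S}`, both given by finitely many
inequalities (`up`, `dn`). Both are not empty: take `θ₁` with `θ₁ δ = 1` (`δ` primitive, `K` free) and `θ₁ ± c im`, `c` large (`qpt`, `spt`,
`im δ = 0`). (1) If `θ ∈ P_Q`, `θ' ∈ P_S` then `θ' r₀ < θ r₀`: otherwise `θ'' = θ + ((θ' r₀ - θ r₀)/im r₀) • im ∈ P_Q` has the same slice as `θ'`, and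
CMN for this slice gives a functional which is `≥ 0` on `Q` and `≤ 0` on `S` (first alternative). (2) So `θ ↦ θ r₀` is bounded below on
`P_Q`; ATT (`V = K →+ ℝ`): minimum at `θ₁`. CMN for the slice of `θ₁` gives `θ`: `≥ 0` on `Q` (compare with `θ₁`), and it minimises `h` in the slice.
`pos`: otherwise the first alternative. `slice`: for small `ε > 0`, `h (θ + ε w) ≥ h θ`; the maximum of `θ + ε w` on `F_S` (finite) is, for small
`ε`, at elements with maximal `θ`. `tight`: if `0 ≤ w x` whenever `θ x = 0`, `x ∈ Q`, then `θ + ε w ∈ P_Q` for small `ε > 0` (`F_Q` finite, `w δ = 0`, for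
`x = y + k δ`: `(θ + ε w) x = (θ + ε w) y + k`), and `w r₀ < 0`: contradiction to the minimum. -/
def Stmt_THA : Prop := ∀ (K : Type u) [AddCommGroup K] [Module.Finite ℤ K] [Module.Free ℤ K]
  (B : K →+ K →+ ℤ) (im : K →+ ℝ) (δ : K) (Q S : Set K), ConvHyp B im δ Q S →
  (∃ θ : K →+ ℝ, θ δ = 1 ∧ (∀ x ∈ Q, 0 ≤ θ x) ∧ ∀ y ∈ S, θ y ≤ 0) ∨
  ∃ θ : K →+ ℝ, θ δ = 1 ∧ (∀ x ∈ Q, 0 ≤ θ x) ∧ (∃ y ∈ S, 0 < θ y) ∧
    (∀ w : K →+ ℝ, (∀ r ∈ radical B, w r = 0) → ∃ y ∈ S, (∀ y' ∈ S, θ y' ≤ θ y) ∧ 0 ≤ w y) ∧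
    ∀ w : K →+ ℝ, w δ = 0 → (∀ r ∈ radical B, 0 < im r → w r < 0) → ∃ x ∈ Q, θ x = 0 ∧ w x < 0

/-- THB (150 lines; uses FAR). Combinations with natural coefficients and radical value. First: the elements `x ∈ Q` with `θ x = 0` are in the finite
set `F_Q` (`θ δ = 1`, `θ ≥ 0`: `k = 0`). FAR over `ℚ` with `V = {w : K →+ ℚ}`, functionals `w ↦ - w x` (these `x`), `w ↦ w δ`, `w ↦ - w δ`, `c : w ↦ - w r₀`
(`r₀` in the radical, `0 < im r₀`): if `w δ = 0`, `w x ≥ 0` for all these `x` and `w r₀ < 0` then `w r < 0` for all radical `r` with `0 < im r`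
(`N r = a δ + b r₀`), against the last property (`w` composed with `ℚ → ℝ`). So `r₀ = ∑ l x • x + μ δ` under all `w : K →+ ℚ`; clear
denominators (`K` is free: functionals to `ℚ` separate): `D r₀ = ∑ c x • x + μ' δ`, `D ≥ 1`, `c x ∈ ℕ`. So `∑ c x x` is in the radical with
`im = D im r₀ > 0`. Second: the `y ∈ S` with maximal `θ` are in `F_S`, finitely many. FAR over `ℚ` with `V = {w : K →+ ℚ | w = 0 on the radical} × ℚ`,
functionals `(w, z) ↦ w y + z`, `c : (w, z) ↦ z`: if all `w y + z ≤ 0` and `0 < z` then `w y < 0` for all maximal `y`, against the fourth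
property (for `w`: some maximal `y` has `0 ≤ w y`). So `z = ∑ l y (w y + z)`: `∑ l y = 1`, `∑ l y w y = 0` for all `w` which vanish on the radical; clear
denominators: `∑ c y • y` is in the radical (`K / radical` is free: functionals to `ℚ` separate), `∑ c y ≥ 1`, so `θ (∑ c y y) = (∑ c y) max θ > 0`. -/
def Stmt_THB : Prop := ∀ (K : Type u) [AddCommGroup K] [Module.Finite ℤ K] [Module.Free ℤ K]
  (B : K →+ K →+ ℤ) (im : K →+ ℝ) (δ : K) (Q S : Set K), ConvHyp B im δ Q S →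
  ∀ θ : K →+ ℝ, θ δ = 1 → (∀ x ∈ Q, 0 ≤ θ x) → (∃ y ∈ S, 0 < θ y) →
    (∀ w : K →+ ℝ, (∀ r ∈ radical B, w r = 0) → ∃ y ∈ S, (∀ y' ∈ S, θ y' ≤ θ y) ∧ 0 ≤ w y) →
    (∀ w : K →+ ℝ, w δ = 0 → (∀ r ∈ radical B, 0 < im r → w r < 0) →
      ∃ x ∈ Q, θ x = 0 ∧ w x < 0) →
    (∃ (m : ℕ) (x : Fin m → K) (c : Fin m → ℕ), (∀ i, x i ∈ Q ∧ θ (x i) = 0) ∧
      ∑ i, (c i : ℤ) • x i ∈ radical B ∧ 0 < im (∑ i, (c i : ℤ) • x i)) ∧
    ∃ (m : ℕ) (y : Fin m → K) (c : Fin m → ℕ), (∀ i, y i ∈ S ∧ ∀ y' ∈ S, θ y' ≤ θ (y i)) ∧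
      ∑ i, (c i : ℤ) • y i ∈ radical B ∧ 0 < θ (∑ i, (c i : ℤ) • y i)

/-- RTP (120 lines; uses FAR), the rational point. `F_Q`, `F_S` finite. Suppose that no `w : K →+ ℚ` has `w x ≥ 0` on `F_Q`, `w y ≤ 0` on `F_S`, `w δ > 0`. FAR over `ℚ`
(`V = {w : K →+ ℚ}`, functionals `w ↦ - w x`, `w ↦ w y`, `c : w ↦ w δ`): `δ = - ∑ l x x + ∑ l y y` under all `w`, so (clear denominators, `K` free)
`D δ = - ∑ c x x + ∑ c y y`, `D ≥ 1`, and `D = θ (D δ) ≤ 0`: contradiction. Take such a `w` and `θ' = w / w δ`: `θ' δ = 1`, `≥ 0` on `Q`, `≤ 0` on `S`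
(`up`, `dn`). Let `r₀` be in the radical and not a multiple of `δ`; `θ' r₀ = p / q`: `r = q r₀ - p δ ≠ 0`, `θ' r = 0`. -/
def Stmt_RTP : Prop := ∀ (K : Type u) [AddCommGroup K] [Module.Finite ℤ K] [Module.Free ℤ K]
  (B : K →+ K →+ ℤ) (im : K →+ ℝ) (δ : K) (Q S : Set K), ConvHyp B im δ Q S →
  ∀ θ : K →+ ℝ, θ δ = 1 → (∀ x ∈ Q, 0 ≤ θ x) → (∀ y ∈ S, θ y ≤ 0) →
    ∃ θ' : K →+ ℝ, θ' δ = 1 ∧ (∀ x ∈ Q, 0 ≤ θ' x) ∧ (∀ y ∈ S, θ' y ≤ 0) ∧
      ∃ r ∈ radical B, r ≠ 0 ∧ θ' r = 0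

/-- RHO (60 lines). `r = ∑ c x` radical with `θ r = 0`, `0 < im r`: among the `x` with `n • x = r`, `n ≥ 1`, take the largest `n` (`K` is free of
finite rank, `r ≠ 0`: bounded), `ρ = x`: primitive, in the radical and in the kernel of `θ` since `ℤ` and `ℝ` are torsion free. -/
def Stmt_RHO : Prop := ∀ (K : Type u) [AddCommGroup K] [Module.Finite ℤ K] [Module.Free ℤ K]
  (B : K →+ K →+ ℤ) (im θ : K →+ ℝ) (r : K), r ∈ radical B → θ r = 0 → 0 < im r →
  ∃ ρ, ρ ∈ radical B ∧ (∀ (x : K) (n : ℤ), ρ = n • x → n = 1 ∨ n = -1) ∧ θ ρ = 0 ∧ 0 < im ρ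

end Convex

end Pool.Sep
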