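import Mathlib
import Pool.Agent.Work.MP_841263_al.Top
import Pool.Agent.Work.MP_841263_sq.Conv

/-!
# Separation of two objects of a tube heart: statements of the blocks (helper34)

MP_841263_ag, path connectedness of `Stab`, part (S) = `Pool.Align.Stmt_SEP` of `al/Top.lean`. `σ` with a tube `Frame h σ t δ α`,
heart `A = P((t, t + 1])`, two objects `M, L` of `A` with `Hom(M, L) = 0`, `L` without torsion. Then inside the tube (same heart, only
the real part of the charge is changed) there is a `τ` with `M ∈ P_τ[t + 1/2, t + 1]` and `L ∈ P_τ(t, t + 1/2]`.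

PROOF. Functionals `θ` with `θ δ = 1` (real part `- θ`). `g θ = max (- θ)` over the quotients of `M`, `h θ = max θ` over the subobjects of
`L` (both finite maxima, `≥ 0`). On every slice (`θ` fixed on the radical) `g` and `h` have a common minimiser (CMN). If `g` and `h` have
no common zero, take the smallest value of `θ r₀` (`r₀` the other radical class) with `g = 0` and a common minimiser `θ` there: then
`h θ > 0`, and by Farkas' lemma over `ℚ` (FAR) some sum `N` of quotients of `M` of phase `t + 1/2` and some sum `E` of subobjects of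
`L` of phases `≥ t + 1/2` have radical class, `θ (cls E) > 0`, and `Hom(N, E) = 0`. This contradicts KGA (helper13's lemma (K), folder
`MP_841263_kk`).

RULES: one file `Pool/Agent/Work/MP_841263_sq/B_<ID>.lean` per block, `import Pool.Agent.Work.MP_841263_sq.Interface`, the
`open`, `namespace Pool.Sep` and `universe` lines of this file, theorem `p_<ID> : Stmt_X → Stmt_Y → Stmt_<ID>` with exactly the
statements of the column `uses` as hypotheses, in this order (statements of this file, or of `MP_841263_al/Interface.lean`: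
LFT SAM HRT; all `c_<ID>` of `MP_841263_tu/All.lean`, `All2.lean` are PROVED theorems and may be used freely: `c_LHY C`, `c_PTP C`,
`c_HCL C`, `c_XRG C`, `c_BAS`, ... read `MP_841263_tu/Interface.lean`). Auxiliary lemmas with the name of the block in front
(`ATT_aux`). No straight double quotes. Statements about categories are `Stmt_X C`. Write
`set_option backward.isDefEq.respectTransparency false` etc. as in the files of `MP_841263_tu` if needed.
-/

open CategoryTheory CategoryTheory.Limits CategoryTheory.Pretriangulated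
open scoped ZeroObject Topology
open Filter

namespace Pool.Sep

open Pool.Stab Pool.Tube Pool.Align

universe v u

section Category

/-- The classes of the quotients of `M` in the heart `P((t, t + 1])`. -/
def QuoC {C : Type u} [Category.{v} C] [Preadditive C] [HasZeroObject C] [HasShift C ℤ]
    [∀ n : ℤ, (shiftFunctor C n).Additive] [Pretriangulated C]
    (σ : StabCond C) (t : ℝ) (M : C) : Set (K0 C) :=
  {x | ∃ (U V : C) (f : U ⟶ M) (g : M ⟶ V) (w : V ⟶ U⟦(1 : ℤ)⟧),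
    Triangle.mk f g w ∈ distTriang C ∧ σ.sl.Heart t U ∧ σ.sl.Heart t V ∧ cls V = x}

/-- The classes of the subobjects of `L` in the heart `P((t, t + 1])`. -/
def SubC {C : Type u} [Category.{v} C] [Preadditive C] [HasZeroObject C] [HasShift C ℤ]
    [∀ n : ℤ, (shiftFunctor C n).Additive] [Pretriangulated C]
    (σ : StabCond C) (t : ℝ) (L : C) : Set (K0 C) :=
  {y | ∃ (U V : C) (f : U ⟶ L) (g : L ⟶ V) (w : V ⟶ U⟦(1 : ℤ)⟧),
    Triangle.mk f g w ∈ distTriang C ∧ σ.sl.Heart t U ∧ σ.sl.Heart t V ∧ cls U = y}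

/-- `τ` is in the tube of `σ` and has real part `- θ`: the same imaginary part and the same heart. -/
structure Tub {C : Type u} [Category.{v} C] [Preadditive C] [HasZeroObject C]
    [HasShift C ℤ] [∀ n : ℤ, (shiftFunctor C n).Additive] [Pretriangulated C] [IsTriangulated C]
    [Linear ℂ C] [∀ n : ℤ, (shiftFunctor C n).Linear ℂ]
    (h : EllipticSetting C) (σ : StabCond C) (t : ℝ) (δ : K0 C) {n : ℕ} (α : Fin n → K0 C)
    (θ : K0 C →+ ℝ) (τ : StabCond C) : Prop where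
  joined : Joined σ τ
  frame : Frame h τ t δ α
  re : ∀ x, τ.re t x = - θ x
  im : ∀ x, τ.im t x = σ.im t x
  same : ∀ (i : Fin n) (k : ℤ) (X : C), IsS σ t δ α i k X ↔ IsS τ t δ α i k X
  heart : ∀ X, σ.sl.Heart t X ↔ τ.sl.Heart t X
  pts : ∀ X, σ.sl.P (t + 1) X ↔ τ.sl.P (t + 1) X
  tf : ∀ X, σ.TF t X ↔ τ.TF t X

variable (C : Type u) [Category.{v} C] [Preadditive C] [HasZeroObject C] [HasShift C ℤ]
  [∀ n : ℤ, (shiftFunctor C n).Additive] [Pretriangulated C] [IsTriangulated C] [Linear ℂ C]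
  [∀ n : ℤ, (shiftFunctor C n).Linear ℂ]

/-! ### Moving the real part -/

/-- PTR (120 lines; uses LFT SAM HRT). `W s x = (- (θ + s (θ' - θ)) x + i im_σ x) e^(iπt)`: continuous in `s`, `W 0 = τ.Z` (`re`, `im`), all in the cell
(`InCell t δ α`: `θ δ, θ' δ > 0`, `0 < im (α i)`), so in `Xreg` (`c_XRG`). Lift (LFT from `τ`). `Frame h (Γ s) t δ α` by `c_XRG`; SAM with
`J = univ` (both directions), HRT. `Joined σ (Γ s)`: `Joined.trans` with the path `Γ` restricted to `[0, s]`. -/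
def Stmt_PTR : Prop := ∀ (h : EllipticSetting C) (σ : StabCond C) (t : ℝ) (δ : K0 C) (n : ℕ)
  (α : Fin n → K0 C), Frame h σ t δ α → ∀ (θ θ' : K0 C →+ ℝ) (τ : StabCond C),
    0 < θ δ → 0 < θ' δ → Tub h σ t δ α θ τ →
    ∃ Γ : C(unitInterval, StabCond C), Γ 0 = τ ∧
      ∀ s : unitInterval, Tub h σ t δ α (θ + (s : ℝ) • (θ' - θ)) (Γ s)

/-- ETR (40 lines; uses PTR). `Tub h σ t δ α (- σ.re t) σ` (`- re δ > 0` by `re0`); end point of PTR. -/
def Stmt_ETR : Prop := ∀ (h : EllipticSetting C) (σ : StabCond C) (t : ℝ) (δ : K0 C) (n : ℕ)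
  (α : Fin n → K0 C), Frame h σ t δ α → ∀ θ : K0 C →+ ℝ, 0 < θ δ →
    ∃ τ, Tub h σ t δ α θ τ

/-- PHA (60 lines). For `Tub θ τ`: `τ.im (t + 1/2) x = θ x` and `τ.re (t + 1/2) x = σ.im t x` (`e^(-iπ/2) = - i`). -/
def Stmt_PHA : Prop := ∀ (h : EllipticSetting C) (σ : StabCond C) (t : ℝ) (δ : K0 C) (n : ℕ)
  (α : Fin n → K0 C) (θ : K0 C →+ ℝ) (τ : StabCond C), Tub h σ t δ α θ τ → ∀ x,
    τ.im (t + 1 / 2) x = θ x ∧ τ.re (t + 1 / 2) x = σ.im t x

/-- KNU (100 lines; uses PHA). `X` in the heart; last HN factor for `τ`: `X' → X → A`, `A ∈ P_τ(ψ)` nonzero, `X'` with phases in `(ψ, t + 1]`, both in the heart of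
`τ`, so of `σ`: `cls A ∈ QuoC`. `θ (cls A) = im_(t + 1/2) (cls A)` has the sign of `ψ - (t + 1/2)` (`polar`; `t < ψ ≤ t + 1`). (1) all `θ ≥ 0`: `t + 1/2 ≤ ψ`.
(2) all nonzero classes have `θ > 0` (`cls A ≠ 0` since `Z ≠ 0`): `t + 1/2 < ψ`. Conversely (3): if `X ∈ P_τ[t + 1/2, t + 1]` and `X → V` is a quotient, the last
factor `V → B`, `B ∈ P_τ(ψ)`, `X → B` nonzero (`X → V` epi: `Hom(U[1], B) = 0`), so `t + 1/2 ≤ ψ`, `V ∈ P_τ[t + 1/2, t + 1]`, `0 ≤ θ`. -/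
def Stmt_KNU : Prop := ∀ (h : EllipticSetting C) (σ : StabCond C) (t : ℝ) (δ : K0 C) (n : ℕ)
  (α : Fin n → K0 C) (θ : K0 C →+ ℝ) (τ : StabCond C), Tub h σ t δ α θ τ →
  ∀ X, σ.sl.Heart t X →
    ((∀ x ∈ QuoC σ t X, 0 ≤ θ x) → τ.sl.In (Set.Icc (t + 1 / 2) (t + 1)) X) ∧
    ((∀ x ∈ QuoC σ t X, x ≠ 0 → 0 < θ x) → τ.sl.In (Set.Ioc (t + 1 / 2) (t + 1)) X) ∧
    (τ.sl.In (Set.Icc (t + 1 / 2) (t + 1)) X → ∀ x ∈ QuoC σ t X, 0 ≤ θ x)

/-- KNL (80 lines; uses PHA). First HN factor for `τ`: `A → X → X'`, `A ∈ P_τ(ψ)` nonzero, `X'` with phases `< ψ`, in the heart: `cls A ∈ SubC`, `θ (cls A) ≤ 0` gives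
`ψ ≤ t + 1/2`. -/
def Stmt_KNL : Prop := ∀ (h : EllipticSetting C) (σ : StabCond C) (t : ℝ) (δ : K0 C) (n : ℕ)
  (α : Fin n → K0 C) (θ : K0 C →+ ℝ) (τ : StabCond C), Tub h σ t δ α θ τ →
  ∀ X, σ.sl.Heart t X →
    ((∀ y ∈ SubC σ t X, θ y ≤ 0) → τ.sl.In (Set.Ioc t (t + 1 / 2)) X)

/-- PFI (60 lines; uses PHA). All HN factors `A ∈ P_τ(ψ)`, `t + 1/2 ≤ ψ ≤ t + 1`, have `im_(t + 1/2) (cls A) ≥ 0`, `> 0` if `t + 1/2 < ψ` (`polar`); the sum is 0, so all
phases are `t + 1/2` (`In.P_of_singleton`, in `st/Slice.lean`). -/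
def Stmt_PFI : Prop := ∀ (h : EllipticSetting C) (σ : StabCond C) (t : ℝ) (δ : K0 C) (n : ℕ)
  (α : Fin n → K0 C) (θ : K0 C →+ ℝ) (τ : StabCond C), Tub h σ t δ α θ τ →
  ∀ X, τ.sl.In (Set.Icc (t + 1 / 2) (t + 1)) X → θ (cls X) = 0 → τ.sl.P (t + 1 / 2) X

/-! ### The sets of classes -/

/-- FQU (150 lines). `X` has phases in `[t + η, t + 1]` (finitely many phases), `0 < η < 1/2`, so does every quotient `V` of `X` in the heart (last HN factor of `V`),
hence `re (cls V) ≤ c im (cls V)` with `c = cot (π η)` (sum over HN factors, `polar`). By HCL `cls V = k δ + ∑ c i α i`, `c i ∈ ℕ`, and `c i ≤`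
the coordinate of `cls X` (HCL for the kernel). For each of the finitely many `c`: `k re δ ≤ c im (∑ c i α i) - re (∑ c i α i)`, `re δ < 0`: `k` is bounded
below; take the smallest `k` which occurs. -/
def Stmt_FQU : Prop := ∀ (h : EllipticSetting C) (σ : StabCond C) (t : ℝ) (δ : K0 C) (n : ℕ)
  (α : Fin n → K0 C), Frame h σ t δ α → ∀ X, σ.sl.Heart t X → FinUp δ (QuoC σ t X)

/-- FSU (150 lines). `X` has phases in `[t + η, t + 1 - η]`; subobjects in the heart have phases `≤ t + 1 - η` (first HN factor), so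
`re (cls U) ≥ - c im (cls U)`; as in FQU `k` is bounded above for each of the finitely many coordinate vectors. -/
def Stmt_FSU : Prop := ∀ (h : EllipticSetting C) (σ : StabCond C) (t : ℝ) (δ : K0 C) (n : ℕ)
  (α : Fin n → K0 C), Frame h σ t δ α → ∀ X, σ.sl.In (Set.Ioo t (t + 1)) X →
    FinDn δ (SubC σ t X)

/-- CRL (150 lines). `x = cls N`, `M → N` a quotient, `y = cls A`, `A → L` a subobject. `Hom(N, A) = 0`: `M → N → A → L` is zero, `M → N` is epi and `A → L` mono in the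
heart (`Hom(U[1], A) = 0`, `Hom(N, V[-1]) = 0`). `Hom(A, N) = 0`: for `f : A ⟶ N` `exists_KIQ`: `K → A → I`, `I → N → R`. `K → A → L` is a subobject of `L` (the
cokernel is an extension of `L/A` by `I`, octahedron), so `θ (cls K) ≤ θ y`, `0 ≤ θ (cls I)`; `R` is a quotient of `M` (the kernel of `M → R` is an extension), so
`θ x ≤ θ (cls R)`, `θ (cls I) ≤ 0`. So `θ (cls I) = 0`, `θ (cls K) = θ y`, so `im y ≤ im (cls K)`, `im (cls I) ≤ 0`, `I ∈ P(t + 1)` (`P_of_im`), `cls I = k δ` (PTP), `k = θ (cls I) = 0`,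
`I = 0`. `Heart.eulerChar`: `χ(N, A) = - hom(N, A[1]) ≤ 0` (`eulerForm_cls`). -/
def Stmt_CRL : Prop := ∀ (h : EllipticSetting C) (σ : StabCond C) (t : ℝ) (δ : K0 C) (n : ℕ)
  (α : Fin n → K0 C), Frame h σ t δ α → ∀ M L, σ.sl.Heart t M → σ.sl.Heart t L →
    (∀ f : M ⟶ L, f = 0) → ∀ θ : K0 C →+ ℝ, θ δ = 1 →
    ∀ x ∈ QuoC σ t M, (∀ x' ∈ QuoC σ t M, θ x ≤ θ x') → ∀ y ∈ SubC σ t L,
    (∀ y' ∈ SubC σ t L, θ y' ≤ θ y) → (∀ y' ∈ SubC σ t L, θ y' = θ y → σ.im t y ≤ σ.im t y') →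
    eulerForm h.k3 x y ≤ 0

/-- CVH (60 lines; uses FQU FSU CRL). `lat`: `c_LHY`; `q0`, `s0`: trivial triangles; `qim`, `sim`: `im_nonneg`; `qpt`: `P_of_im`, PTP; `spt`: the subobject is in `P(t + 1)`
(`P_of_im`), and has no nonzero map to `L` (phases), a subobject with zero map is zero. -/
def Stmt_CVH : Prop := ∀ (h : EllipticSetting C) (σ : StabCond C) (t : ℝ) (δ : K0 C) (n : ℕ)
  (α : Fin n → K0 C), Frame h σ t δ α → ∀ M L, σ.sl.Heart t M →
    σ.sl.In (Set.Ioo t (t + 1)) L → (∀ f : M ⟶ L, f = 0) →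
    ConvHyp (eulerForm h.k3) (σ.im t) δ (QuoC σ t M) (SubC σ t L)

/-! ### The contradiction -/

/-- QMT (120 lines; uses PHA KNU PFI). A quotient `V` of `M` in the heart with `θ (cls V) = 0`, when `θ ≥ 0` on the quotients of `M`: `V ∈ P_τ(t + 1/2)` and
`Hom(V, L) = 0`. All quotients of `V` are quotients of `M` (octahedron: the kernel of `M → V → V'` is an extension), so KNU and PFI. `M → V` is epi in the heart: a nonzero
`V ⟶ L` would give a nonzero `M ⟶ L` (`Hom(U[1], L) = 0`). -/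
def Stmt_QMT : Prop := ∀ (h : EllipticSetting C) (σ : StabCond C) (t : ℝ) (δ : K0 C) (n : ℕ)
  (α : Fin n → K0 C) (θ : K0 C →+ ℝ) (τ : StabCond C), Tub h σ t δ α θ τ →
  ∀ M L, σ.sl.Heart t M → σ.sl.Heart t L → (∀ f : M ⟶ L, f = 0) →
    (∀ x ∈ QuoC σ t M, 0 ≤ θ x) → ∀ x ∈ QuoC σ t M, θ x = 0 →
    ∃ V, cls V = x ∧ τ.sl.P (t + 1 / 2) V ∧ ∀ f : V ⟶ L, f = 0

/-- SLT (120 lines; uses PHA KNU). A subobject `A` of `L` in the heart with maximal `θ`: `A ∈ P_τ[t + 1/2, t + 1/2 + 1)`, and every `N ∈ P_τ(t + 1/2)` with `Hom(N, L) = 0` has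
`Hom(N, A) = 0`. For a quotient `V` of `A` with kernel `A'`, a subobject of `L` (octahedron): `θ (cls A') ≤ θ (cls A)`, so `0 ≤ θ (cls V)`; KNU: `A ∈ P_τ[t + 1/2, t + 1]`. `N` is in the heart
and `A → L` is mono there (`Hom(N, V[-1]) = 0`). -/
def Stmt_SLT : Prop := ∀ (h : EllipticSetting C) (σ : StabCond C) (t : ℝ) (δ : K0 C) (n : ℕ)
  (α : Fin n → K0 C) (θ : K0 C →+ ℝ) (τ : StabCond C), Tub h σ t δ α θ τ →
  ∀ L, σ.sl.Heart t L → ∀ y ∈ SubC σ t L, (∀ y' ∈ SubC σ t L, θ y' ≤ θ y) →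
    ∃ A, cls A = y ∧ τ.sl.In (Set.Ico (t + 1 / 2) (t + 1 / 2 + 1)) A ∧
      ∀ N, τ.sl.P (t + 1 / 2) N → (∀ f : N ⟶ L, f = 0) → ∀ f : N ⟶ A, f = 0

/-- SUM (60 lines). A property of objects which holds for zero objects and is stable under `⊞`: sums. Induction on `m` and on `c`. (`cls_biprod`-type lemma: the binary
biproduct triangle and `cls_mk`.) -/
def Stmt_SUM : Prop := ∀ (P : C → Prop), P 0 → (∀ X Y, P X → P Y → P (X ⊞ Y)) →
  ∀ (m : ℕ) (x : Fin m → K0 C) (c : Fin m → ℕ), (∀ i, ∃ V, cls V = x i ∧ P V) →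
    ∃ V, cls V = ∑ i, (c i : ℤ) • x i ∧ P V

/-- KGA (input of (S), lemma (K) of helper13, folder `MP_841263_kk`; not a block here). -/
def Stmt_KGA : Prop := ∀ (h : EllipticSetting C) (σ : StabCond C) (φ : ℝ) (ρ : K0 C),
  ρ ∈ radical (eulerForm h.k3) → (∀ (x : K0 C) (n : ℤ), ρ = n • x → n = 1 ∨ n = -1) →
  σ.im φ ρ = 0 → 0 < σ.re φ ρ →
  ∀ N, σ.sl.P φ N → ¬ IsZero N → cls N ∈ radical (eulerForm h.k3) →
  ∀ E, σ.sl.In (Set.Ico φ (φ + 1)) E → cls E ∈ radical (eulerForm h.k3) →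
    0 < σ.im φ (cls E) → ∃ f : N ⟶ E, f ≠ 0

/-- SEC (100 lines; uses RHO ETR PHA QMT SLT SUM KGA). The contradiction at the threshold. ETR: `τ`. `N`: QMT and SUM for the property `P_τ(t + 1/2) X ∧ ∀ f : X ⟶ L, f = 0` and the first family; `E`: SLT and
SUM for the property `In (Ico (t + 1/2) (t + 1/2 + 1)) X ∧ ∀ N', P_τ(t + 1/2) N' → (∀ f : N' ⟶ L, f = 0) → ∀ f : N' ⟶ X, f = 0` and the second family. `N` is not zero (`0 < im`). RHO for `r = cls N` (`θ r = 0`): `ρ`.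
PHA: `τ.im (t + 1/2) ρ = θ ρ = 0`, `τ.re (t + 1/2) ρ = im ρ > 0`, `τ.im (t + 1/2) (cls E) = θ (cls E) > 0`. KGA with `φ = t + 1/2` gives a nonzero `N ⟶ E`, but all are zero. -/
def Stmt_SEC : Prop := ∀ (h : EllipticSetting C) (σ : StabCond C) (t : ℝ) (δ : K0 C) (n : ℕ)
  (α : Fin n → K0 C), Frame h σ t δ α → ∀ M L, σ.sl.Heart t M → σ.sl.Heart t L →
    (∀ f : M ⟶ L, f = 0) → ∀ θ : K0 C →+ ℝ, θ δ = 1 → (∀ x ∈ QuoC σ t M, 0 ≤ θ x) →
    (∃ (m : ℕ) (x : Fin m → K0 C) (c : Fin m → ℕ), (∀ i, x i ∈ QuoC σ t M ∧ θ (x i) = 0) ∧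
      ∑ i, (c i : ℤ) • x i ∈ radical (eulerForm h.k3) ∧
      0 < σ.im t (∑ i, (c i : ℤ) • x i)) →
    (∃ (m : ℕ) (y : Fin m → K0 C) (c : Fin m → ℕ),
      (∀ i, y i ∈ SubC σ t L ∧ ∀ y' ∈ SubC σ t L, θ y' ≤ θ (y i)) ∧
      ∑ i, (c i : ℤ) • y i ∈ radical (eulerForm h.k3) ∧ 0 < θ (∑ i, (c i : ℤ) • y i)) → False

/-- SEQ (80 lines; uses THA THB RTP ETR PHA KNU KNL CVH SEC): `Pool.Align.Stmt_SEP`. `L ∈ P(t, t + 1)` (its torsion part maps to zero: `exists_torsion`). CVH, THA. First alternative: RTP gives a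
rational `θ'`, ETR `τ`, KNU (1), KNL, PHA (`τ.im (t + 1/2) r = θ' r = 0`), `Tub.heart`, `Tub.joined`. Second alternative: THB, SEC. -/
def Stmt_SEQ : Prop := Pool.Align.Stmt_SEP C

end Category

end Pool.Sep
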