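import Mathlib
import Pool.Agent.Work.MP_841263_sq.Interface
import Pool.Agent.Work.MP_841263_tu.All

/-!
# Block CRL: the pairing of a minimal quotient with a maximal subobject is not positive
-/

open CategoryTheory CategoryTheory.Limits CategoryTheory.Pretriangulated
open scoped ZeroObject Topology
open Filter

set_option backward.isDefEq.respectTransparency false
set_option backward.defeqAttrib.useBackward true
set_option linter.unusedSectionVars false

namespace Pool.Sep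

open Pool.Stab Pool.Tube Pool.Align

universe v u

section Category

variable (C : Type u) [Category.{v} C] [Preadditive C] [HasZeroObject C] [HasShift C ℤ]
  [∀ n : ℤ, (shiftFunctor C n).Additive] [Pretriangulated C] [IsTriangulated C] [Linear ℂ C]
  [∀ n : ℤ, (shiftFunctor C n).Linear ℂ]

theorem p_CRL : Stmt_CRL C := by
  rintro h σ t δ n α hF M L hM hL hML θ hθ _ ⟨U, N, f₁, g₁, w₁, hT₁, hU, hN, rfl⟩ hx _
    ⟨A, V, f₂, g₂, w₂, hT₂, hA, hV, rfl⟩ hy hy'
  have hab : AbSub (σ.sl.Heart t) := σ.sl.heart_ab t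
  have s₁ : SES (σ.sl.Heart t) f₁ g₁ := ⟨hU, hM, hN, w₁, hT₁⟩
  have s₂ : SES (σ.sl.Heart t) f₂ g₂ := ⟨hA, hL, hV, w₂, hT₂⟩
  have h0 : ∀ a : N ⟶ A, a = 0 := by
    intro a
    refine s₂.mono hab hN a ?_
    exact s₁.epi hab hL (a ≫ f₂) (hML _)
  have h1 : ∀ a : A ⟶ N, a = 0 := by
    intro a
    obtain ⟨K, I, Q, k, p, i, q, hk, hi, hpi⟩ := hab.kiq hA hN a
    obtain ⟨Q', q', m, r, hs, -⟩ := hk.comp hab s₂
    obtain ⟨F, j, m', r', hs', -⟩ := s₁.comp' hab hi
    have hK : cls K ∈ SubC σ t L := by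
      obtain ⟨c1, -, c3, d, hT⟩ := hs
      exact ⟨K, Q', _, _, d, hT, c1, c3, rfl⟩
    have hQ : cls Q ∈ QuoC σ t M := by
      obtain ⟨c1, -, c3, d, hT⟩ := hs'
      exact ⟨F, Q, _, _, d, hT, c1, c3, rfl⟩
    have e1 : cls A = cls K + cls I := hk.cls_eq
    have e2 : cls N = cls I + cls Q := hi.cls_eq
    have i1 : θ (cls K) ≤ θ (cls A) := hy _ hK
    have i2 : θ (cls N) ≤ θ (cls Q) := hx _ hQ
    have e1' : θ (cls A) = θ (cls K) + θ (cls I) := by rw [e1, map_add]
    have e2' : θ (cls N) = θ (cls I) + θ (cls Q) := by rw [e2, map_add]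
    have e3 : θ (cls I) = 0 := by linarith
    have i3 := hy' _ hK (by rw [e1', e3, add_zero])
    have e4 : σ.im t (cls A) = σ.im t (cls K) + σ.im t (cls I) := by rw [e1, map_add]
    have hI : σ.sl.Heart t I := hi.1
    have i4 := σ.im_nonneg hI
    obtain ⟨m, hm, hm0⟩ := c_PTP C h σ t δ hF.toTubeHyp I (σ.P_of_im hI (by linarith))
    have hm' : m = 0 := by
      rw [hm, map_zsmul, hθ] at e3
      simpa using e3
    rw [← hpi, (hm0 hm').eq_of_tgt p 0, zero_comp]
  rw [eulerForm_cls, hN.eulerChar h.k3 hA, finrank_of_forall_zero h0, finrank_of_forall_zero h1]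
  have : (0 : ℤ) ≤ (Module.finrank ℂ (N ⟶ A⟦(1 : ℤ)⟧) : ℤ) := by positivity
  push_cast
  linarith

end Category

end Pool.Sep
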