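import Mathlib
import Pool.Agent.Work.MP_841263_sq.Interface

/-!
# Block CVH: the hypotheses of the convex geometry (helper32)
-/

open CategoryTheory CategoryTheory.Limits CategoryTheory.Pretriangulated
open scoped ZeroObject Topology
open Filter

set_option backward.isDefEq.respectTransparency false
set_option backward.defeqAttrib.useBackward true
set_option linter.unusedSectionVars false

namespace Pool.Sep

open Pool.Stab Pool.Tube Pool.Align

universe v u

variable (C : Type u) [Category.{v} C] [Preadditive C] [HasZeroObject C] [HasShift C ℤ]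
  [∀ n : ℤ, (shiftFunctor C n).Additive] [Pretriangulated C] [IsTriangulated C] [Linear ℂ C]
  [∀ n : ℤ, (shiftFunctor C n).Linear ℂ]

theorem p_CVH : Stmt_FQU C → Stmt_FSU C → Stmt_CRL C → Stmt_CVH C := by
  intro hFQU hFSU hCRL h σ t δ n α hF M L hM hL h0
  have hLH : σ.sl.Heart t L := hL.mono (fun φ hφ => ⟨hφ.1, hφ.2.le⟩)
  have hz : σ.sl.Heart t (0 : C) := Slicing.heart_of_isZero (isZero_zero C)
  refine ⟨c_LHY C h σ t δ hF.toTubeHyp, hFQU h σ t δ n α hF M hM, hFSU h σ t δ n α hF L hL,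
    ?_, ?_, ?_, ?_, ?_, ?_, ?_⟩
  · exact ⟨M, 0, 𝟙 M, 0, 0, contractible_distinguished M, hM, hz, cls_of_isZero (isZero_zero C)⟩
  · exact ⟨0, L, 0, 𝟙 L, 0, contractible_distinguished₁ L, hz, hLH,
      cls_of_isZero (isZero_zero C)⟩
  · rintro x ⟨U, V, f, g, w, hT, hU, hV, rfl⟩
    exact σ.im_nonneg hV
  · rintro x ⟨U, V, f, g, w, hT, hU, hV, rfl⟩
    exact σ.im_nonneg hU
  · rintro x ⟨U, V, f, g, w, hT, hU, hV, rfl⟩ hx
    obtain ⟨m, hm, -⟩ := c_PTP C h σ t δ hF.toTubeHyp V (σ.P_of_im hV hx)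
    exact ⟨m, hm⟩
  · rintro x ⟨U, V, f, g, w, hT, hU, hV, rfl⟩ hx
    have hP := σ.P_of_im hU hx
    have hf : f = 0 := (Slicing.in_of_P (I := {t + 1}) hP rfl).hom_zero hL (by
      intro a ha b hb
      rw [Set.mem_singleton_iff] at ha
      rw [ha]
      exact hb.2) f
    exact cls_of_isZero (isZero_of_SES_left (Slicing.heart_ab σ.sl t)
      (⟨hU, hLH, hV, w, hT⟩ : SES (σ.sl.Heart t) f g) hf)
  · intro θ hθ x hx hx1 y hy hy1 hy2
    exact hCRL h σ t δ n α hF M L hM hLH h0 θ hθ x hx hx1 y hy hy1 hy2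

end Pool.Sep
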