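import Pool.Agent.Work.MP_841263_sq.Conv

/-!
# Block FAR: Farkas' lemma over a linearly ordered field
-/

open scoped Topology

namespace Pool.Sep

open Pool.Stab Pool.Tube

universe v u

theorem p_FAR : Stmt_FAR.{u} := by
  intro F _ _ _ V _ _ m
  induction m with
  | zero =>
    intro a c h
    refine ⟨fun _ => 0, fun _ => le_rfl, fun v => ?_⟩
    have h1 := h v (fun i => i.elim0)
    have h2 := h (-v) (fun i => i.elim0)
    rw [map_neg] at h2
    simp only [Finset.univ_eq_empty, Finset.sum_empty]
    linarith
  | succ m ih =>
    intro a c h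
    by_cases hc : ∀ v, (∀ i : Fin m, a i.succ v ≤ 0) → c v ≤ 0
    · obtain ⟨l, hl, hlc⟩ := ih (fun i => a i.succ) c hc
      refine ⟨Fin.cons 0 l, ?_, ?_⟩
      · intro i
        refine Fin.cases ?_ ?_ i
        · simp
        · intro j
          simpa using hl j
      · intro v
        rw [Fin.sum_univ_succ]
        simpa using hlc v
    · push Not at hc
      obtain ⟨x0, hx0, hcx0⟩ := hc
      have ha : 0 < a 0 x0 := by
        by_contra hcon
        push Not at hcon
        exact absurd (h x0 (Fin.cases hcon hx0)) (not_le.2 hcx0)
      obtain ⟨x, hxdef⟩ : ∃ x, x = (a 0 x0)⁻¹ • x0 := ⟨_, rfl⟩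
      have hinv : 0 < (a 0 x0)⁻¹ := inv_pos.2 ha
      have hax : a 0 x = 1 := by
        rw [hxdef, map_smul, smul_eq_mul, inv_mul_cancel₀ ha.ne']
      have hx : ∀ i : Fin m, a i.succ x ≤ 0 := by
        intro i
        rw [hxdef, map_smul, smul_eq_mul]
        exact mul_nonpos_of_nonneg_of_nonpos hinv.le (hx0 i)
      have hcx : 0 < c x := by
        rw [hxdef, map_smul, smul_eq_mul]
        exact mul_pos hinv hcx0
      obtain ⟨l, hl, hlc⟩ := ih (fun i => a i.succ - (a i.succ x) • a 0) (c - c x • a 0) (by
        intro v hv
        have h1 := h (v - a 0 v • x) (Fin.cases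
          (by rw [map_sub, map_smul, hax, smul_eq_mul, mul_one, sub_self])
          (fun i => by
            have h2 := hv i
            simp only [LinearMap.sub_apply, LinearMap.smul_apply, smul_eq_mul] at h2
            rw [map_sub, map_smul, smul_eq_mul]
            linarith [mul_comm (a i.succ x) (a 0 v)]))
        rw [map_sub, map_smul, smul_eq_mul] at h1
        simp only [LinearMap.sub_apply, LinearMap.smul_apply, smul_eq_mul]
        linarith [mul_comm (c x) (a 0 v)])
      have hsum : ∑ i, l i * a i.succ x ≤ 0 :=
        Finset.sum_nonpos fun i _ => mul_nonpos_of_nonneg_of_nonpos (hl i) (hx i)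
      refine ⟨Fin.cons (c x - ∑ i, l i * a i.succ x) l, ?_, ?_⟩
      · intro i
        refine Fin.cases ?_ ?_ i
        · simp only [Fin.cons_zero]
          linarith
        · intro j
          simpa using hl j
      · intro v
        rw [Fin.sum_univ_succ]
        simp only [Fin.cons_zero, Fin.cons_succ]
        have h1 := hlc v
        simp only [LinearMap.sub_apply, LinearMap.smul_apply, smul_eq_mul] at h1
        have h2 : ∑ i, l i * (a i.succ v - a i.succ x * a 0 v) =
            ∑ i, l i * a i.succ v - (∑ i, l i * a i.succ x) * a 0 v := by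
          rw [Finset.sum_mul, ← Finset.sum_sub_distrib]
          refine Finset.sum_congr rfl fun i _ => ?_
          ring
        rw [h2] at h1
        linarith

end Pool.Sep
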