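import Pool.Agent.Work.MP_841263_sq.B_FSU

set_option autoImplicit false
set_option linter.unusedSectionVars false

/-! # MP_841263, separation, block FQU: the classes of the quotients (helper38, after B_FSU) -/

open CategoryTheory CategoryTheory.Limits CategoryTheory.Pretriangulated
open scoped ZeroObject Topology
open Filter

namespace Pool.Sep

open Pool.Stab Pool.Tube Pool.Align

universe v u

/-- A finite list of numbers above `T` is above `T + η`. -/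
theorem FQU_list (T : ℝ) (L : List ℝ) (hL : ∀ φ ∈ L, T < φ) :
    ∃ η : ℝ, 0 < η ∧ η ≤ 1 / 2 ∧ ∀ φ ∈ L, T + η < φ := by
  induction L with
  | nil => exact ⟨1 / 2, by norm_num, le_rfl, by simp⟩
  | cons a L ih =>
    obtain ⟨η, h1, h2, h3⟩ := ih (fun φ hφ => hL φ (List.mem_cons_of_mem _ hφ))
    have h4 := hL a List.mem_cons_self
    refine ⟨min η ((a - T) / 2), lt_min h1 (by linarith), (min_le_left _ _).trans h2, ?_⟩
    intro φ hφ
    rcases List.mem_cons.1 hφ with rfl | h5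
    · have := min_le_right η ((φ - T) / 2)
      linarith
    · have := h3 φ h5
      have := min_le_left η ((a - T) / 2)
      linarith

/-- The combinatorial part. -/
theorem FQU_up {K : Type u} [AddCommGroup K] {δ : K} {n : ℕ} {α : Fin n → K} {Q : Set K}
    (N : Fin n → ℕ)
    (h1 : ∀ x ∈ Q, ∃ (k : ℤ) (c : Fin n → ℕ), x = k • δ + ∑ i, (c i : ℤ) • α i ∧ c ≤ N)
    (h2 : ∀ c : Fin n → ℕ, ∃ b : ℤ, ∀ k : ℤ, k • δ + ∑ i, (c i : ℤ) • α i ∈ Q → b ≤ k) :
    FinUp δ Q := by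
  have h3 : ∀ c : Fin n → ℕ, ∃ y : K,
      ((∃ k : ℤ, k • δ + ∑ i, (c i : ℤ) • α i ∈ Q) → y ∈ Q) ∧
      ∀ k : ℤ, k • δ + ∑ i, (c i : ℤ) • α i ∈ Q →
        ∃ j : ℕ, k • δ + ∑ i, (c i : ℤ) • α i = y + (j : ℤ) • δ := by
    intro c
    by_cases hex : ∃ k : ℤ, k • δ + ∑ i, (c i : ℤ) • α i ∈ Q
    · obtain ⟨b, hb⟩ := h2 c
      obtain ⟨K0, hK0, hmin⟩ := Int.exists_least_of_bdd
        (P := fun k : ℤ => k • δ + ∑ i, (c i : ℤ) • α i ∈ Q) ⟨b, hb⟩ hex
      refine ⟨K0 • δ + ∑ i, (c i : ℤ) • α i, fun _ => hK0, fun k hk => ?_⟩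
      have h4 : K0 ≤ k := hmin k hk
      refine ⟨(k - K0).toNat, ?_⟩
      rw [Int.toNat_of_nonneg (by omega), sub_smul]
      abel
    · exact ⟨0, fun h => absurd h hex, fun k hk => absurd ⟨k, hk⟩ hex⟩
  choose y hy1 hy2 using h3
  refine ⟨Q ∩ y '' Set.Iic N, ((Set.finite_Iic N).image y).subset Set.inter_subset_right,
    Set.inter_subset_left, ?_⟩
  intro x hx
  obtain ⟨k, c, rfl, hc⟩ := h1 x hx
  obtain ⟨j, hj⟩ := hy2 c k hx
  exact ⟨y c, ⟨hy1 c ⟨k, hx⟩, c, hc, rfl⟩, j, hj⟩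

variable {C : Type u} [Category.{v} C] [Preadditive C] [HasZeroObject C] [HasShift C ℤ]
  [∀ n : ℤ, (shiftFunctor C n).Additive] [Pretriangulated C] [IsTriangulated C] [Linear ℂ C]
  [∀ n : ℤ, (shiftFunctor C n).Linear ℂ]

/-- A morphism whose cocone is in the heart is an epimorphism for objects of the heart. -/
theorem FQU_epi {σ : StabCond C} {t : ℝ} {U X V W : C} {f : U ⟶ X} {g : X ⟶ V}
    {w : V ⟶ U⟦(1 : ℤ)⟧} (hT : Triangle.mk f g w ∈ distTriang C) (hU : σ.sl.Heart t U)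
    (hW : σ.sl.Heart t W) (u : V ⟶ W) (hu : g ≫ u = 0) : u = 0 := by
  obtain ⟨v, hv⟩ := Triangle.yoneda_exact₃ _ hT u hu
  have h2 : v = 0 := StabCond.hom_shift_zero σ hU hW v
  refine hv.trans ?_
  rw [h2]
  exact comp_zero

/-- The phases of a quotient. -/
theorem FQU_quot {σ : StabCond C} {t η : ℝ} {U X V : C} {f : U ⟶ X} {g : X ⟶ V}
    {w : V ⟶ U⟦(1 : ℤ)⟧} (hT : Triangle.mk f g w ∈ distTriang C) (hU : σ.sl.Heart t U)
    (hV : σ.sl.Heart t V) (hX : σ.sl.In {φ | t + η < φ} X) :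
    σ.sl.In (Set.Ioc (t + η) (t + 1)) V := by
  classical
  obtain ⟨l, hl, hI⟩ := hV
  obtain ⟨V', V'', a, b, c, hT', h1, h2⟩ := hl.trunc (Set.Ioi (t + η)) (isUpperSet_Ioi _)
  have hV'' : σ.sl.In {φ | φ ≤ t + η} V'' :=
    ⟨_, h2, fun φ hφ => by simpa using (List.mem_filter.1 hφ).2⟩
  have hV''h : σ.sl.Heart t V'' := ⟨_, h2, fun φ hφ => hI φ (List.mem_filter.1 hφ).1⟩
  have hV' : σ.sl.In (Set.Ioc (t + η) (t + 1)) V' := by
    refine ⟨_, h1, fun φ hφ => ?_⟩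
    obtain ⟨h3, h4⟩ := List.mem_filter.1 hφ
    have h5 : t + η < φ := by simpa using h4
    exact ⟨h5, (hI φ h3).2⟩
  have hV'h : σ.sl.Heart t V' := ⟨_, h1, fun φ hφ => hI φ (List.mem_filter.1 hφ).1⟩
  have hb : b = 0 := by
    refine FQU_epi hT hU hV''h b ?_
    refine Slicing.In.hom_zero hX hV'' ?_ _
    intro φ hφ ψ hψ
    have h3 : t + η < φ := hφ
    have h4 : ψ ≤ t + η := hψ
    linarith
  have hz : IsZero V'' := isZero₃_of_mor₂ hT' hb (fun r => σ.hom_shift_zero hV'h hV''h r)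
  have := iso_of_isZero₃ hT' hz
  exact hV'.iso (asIso a)

variable (C)

theorem p_FQU : Stmt_FQU C := by
  intro h σ t δ n α hF X hXh
  obtain ⟨K0', N, hN⟩ := c_HCL C h σ t δ n α hF X hXh
  obtain ⟨L, hL, hLI⟩ := hXh
  obtain ⟨η, hη0, hη1, hη2⟩ := FQU_list t L (fun φ hφ => (hLI φ hφ).1)
  have hXη : σ.sl.In {φ | t + η < φ} X := ⟨L, hL, hη2⟩
  have hs : 0 < Real.sin (Real.pi * η) := by
    refine Real.sin_pos_of_pos_of_lt_pi (mul_pos Real.pi_pos hη0) ?_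
    nlinarith [Real.pi_pos]
  have hre := hF.re0
  refine FQU_up (α := α) N ?_ ?_
  · rintro x ⟨U, V, f, g, w, hT, hU, hV, rfl⟩
    obtain ⟨k, c, hc⟩ := c_HCL C h σ t δ n α hF V hV
    obtain ⟨k', c', hc'⟩ := c_HCL C h σ t δ n α hF U hU
    refine ⟨k, c, hc, ?_⟩
    have h1 : cls X = cls U + cls V := cls_mk hT
    have h2 : (k + k' - K0') • δ + ∑ i, ((c i : ℤ) + c' i - N i) • α i = 0 := by
      have h3 : ∑ i, ((c i : ℤ) + c' i - N i) • α i = ∑ i, (c i : ℤ) • α i +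
          ∑ i, (c' i : ℤ) • α i - ∑ i, (N i : ℤ) • α i := by
        rw [← Finset.sum_add_distrib, ← Finset.sum_sub_distrib]
        refine Finset.sum_congr rfl fun i _ => ?_
        rw [sub_smul, add_smul]
      rw [h3, sub_smul, add_smul]
      rw [hN, hc, hc'] at h1
      have h4 : K0' • δ = k • δ + ∑ i, (c i : ℤ) • α i + (k' • δ + ∑ i, (c' i : ℤ) • α i) -
          ∑ i, (N i : ℤ) • α i := by
        rw [add_comm (k • δ + _), ← h1]
        abel
      rw [h4]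
      abel
    intro i
    have h5 := (hF.indep _ _ h2).2 i
    have h6 : (c i : ℤ) ≤ N i := by
      have : (0 : ℤ) ≤ c' i := Int.natCast_nonneg _
      omega
    exact_mod_cast h6
  · intro c
    obtain ⟨v, hv⟩ : ∃ v : K0 C, v = ∑ i, (c i : ℤ) • α i := ⟨_, rfl⟩
    rw [← hv]
    have hD : 0 < -(σ.re t δ) * Real.sin (Real.pi * η) := mul_pos (by linarith) hs
    refine ⟨⌈(σ.re t v * Real.sin (Real.pi * η) - σ.im t v * Real.cos (Real.pi * η)) /
      (-(σ.re t δ) * Real.sin (Real.pi * η))⌉, ?_⟩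
    rintro k ⟨U, V, f, g, w, hT, hU, hV, hk⟩
    rw [Int.ceil_le, div_le_iff₀ hD]
    have h1 := FQU_quot hT hU hV hXη
    have h2 : σ.sl.Heart (t + η) V := h1.mono fun φ hφ =>
      ⟨hφ.1, by linarith [hφ.2]⟩
    have h3 := σ.im_nonneg h2
    have h4 := FSU_rot σ t (-η) (cls V)
    rw [sub_neg_eq_add, mul_neg, Real.sin_neg, Real.cos_neg] at h4
    rw [h4, hk, map_add, map_add, map_zsmul, map_zsmul, hF.im0, zsmul_eq_mul,
      smul_zero, zero_add] at h3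
    linarith

end Pool.Sep
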