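import Pool.Agent.Work.MP_841263_sq.Interface

set_option autoImplicit false
set_option linter.unusedSectionVars false

/-! # MP_841263, separation, block FSU: the classes of the subobjects -/

open CategoryTheory CategoryTheory.Limits CategoryTheory.Pretriangulated
open scoped ZeroObject Topology
open Filter

namespace Pool.Sep

open Pool.Stab Pool.Tube Pool.Align

universe v u

/-- A finite list of numbers below `T` is below `T - η`. -/
theorem FSU_list (T : ℝ) (L : List ℝ) (hL : ∀ φ ∈ L, φ < T) :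
    ∃ η : ℝ, 0 < η ∧ η ≤ 1 / 2 ∧ ∀ φ ∈ L, φ ≤ T - η := by
  induction L with
  | nil => exact ⟨1 / 2, by norm_num, le_rfl, by simp⟩
  | cons a L ih =>
    obtain ⟨η, h1, h2, h3⟩ := ih (fun φ hφ => hL φ (List.mem_cons_of_mem _ hφ))
    have h4 := hL a List.mem_cons_self
    refine ⟨min η (T - a), lt_min h1 (by linarith), (min_le_left _ _).trans h2, ?_⟩
    intro φ hφ
    rcases List.mem_cons.1 hφ with rfl | h5
    · have := min_le_right η (T - φ)
      linarith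
    · have := h3 φ h5
      have := min_le_left η (T - a)
      linarith

/-- The combinatorial part. -/
theorem FSU_dn {K : Type u} [AddCommGroup K] {δ : K} {n : ℕ} {α : Fin n → K} {Q : Set K}
    (N : Fin n → ℕ)
    (h1 : ∀ x ∈ Q, ∃ (k : ℤ) (c : Fin n → ℕ), x = k • δ + ∑ i, (c i : ℤ) • α i ∧ c ≤ N)
    (h2 : ∀ c : Fin n → ℕ, ∃ b : ℤ, ∀ k : ℤ, k • δ + ∑ i, (c i : ℤ) • α i ∈ Q → k ≤ b) :
    FinDn δ Q := by
  have h3 : ∀ c : Fin n → ℕ, ∃ y : K,
      ((∃ k : ℤ, k • δ + ∑ i, (c i : ℤ) • α i ∈ Q) → y ∈ Q) ∧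
      ∀ k : ℤ, k • δ + ∑ i, (c i : ℤ) • α i ∈ Q →
        ∃ j : ℕ, k • δ + ∑ i, (c i : ℤ) • α i = y - (j : ℤ) • δ := by
    intro c
    by_cases hex : ∃ k : ℤ, k • δ + ∑ i, (c i : ℤ) • α i ∈ Q
    · obtain ⟨b, hb⟩ := h2 c
      obtain ⟨K0, hK0, hmax⟩ := Int.exists_greatest_of_bdd
        (P := fun k : ℤ => k • δ + ∑ i, (c i : ℤ) • α i ∈ Q) ⟨b, hb⟩ hex
      refine ⟨K0 • δ + ∑ i, (c i : ℤ) • α i, fun _ => hK0, fun k hk => ?_⟩
      have h4 : k ≤ K0 := hmax k hk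
      refine ⟨(K0 - k).toNat, ?_⟩
      rw [Int.toNat_of_nonneg (by omega), sub_smul]
      abel
    · exact ⟨0, fun h => absurd h hex, fun k hk => absurd ⟨k, hk⟩ hex⟩
  choose y hy1 hy2 using h3
  refine ⟨Q ∩ y '' Set.Iic N, ((Set.finite_Iic N).image y).subset Set.inter_subset_right,
    Set.inter_subset_left, ?_⟩
  intro x hx
  obtain ⟨k, c, rfl, hc⟩ := h1 x hx
  obtain ⟨j, hj⟩ := hy2 c k hx
  exact ⟨y c, ⟨hy1 c ⟨k, hx⟩, c, hc, rfl⟩, j, hj⟩

variable {C : Type u} [Category.{v} C] [Preadditive C] [HasZeroObject C] [HasShift C ℤ]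
  [∀ n : ℤ, (shiftFunctor C n).Additive] [Pretriangulated C] [IsTriangulated C] [Linear ℂ C]
  [∀ n : ℤ, (shiftFunctor C n).Linear ℂ]

/-- A morphism whose cone is in the heart is a monomorphism for objects of the heart. -/
theorem FSU_mono {σ : StabCond C} {t : ℝ} {Y X Q W : C} {f : Y ⟶ X} {g : X ⟶ Q}
    {w : Q ⟶ Y⟦(1 : ℤ)⟧} (hT : Triangle.mk f g w ∈ distTriang C) (hQ : σ.sl.Heart t Q)
    (hW : σ.sl.Heart t W) (u : W ⟶ Y) (hu : u ≫ f = 0) : u = 0 := by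
  have h1 : u⟦(1 : ℤ)⟧' ≫ f⟦(1 : ℤ)⟧' = 0 := by rw [← Functor.map_comp, hu, Functor.map_zero]
  obtain ⟨v, hv⟩ := Triangle.coyoneda_exact₁ _ hT (u⟦(1 : ℤ)⟧') h1
  have h2 : v = 0 := StabCond.hom_shift_zero σ hW hQ v
  have h3 : u⟦(1 : ℤ)⟧' = 0 := by
    refine hv.trans ?_
    rw [h2]
    exact zero_comp
  exact (shiftFunctor C (1 : ℤ)).map_injective (by rw [h3, Functor.map_zero])

/-- Rotation of the imaginary part. -/
theorem FSU_rot (σ : StabCond C) (t η : ℝ) (x : K0 C) :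
    σ.im (t - η) x = σ.re t x * Real.sin (Real.pi * η) + σ.im t x * Real.cos (Real.pi * η) := by
  have h1 : Complex.exp (-(Real.pi * ((t - η : ℝ) : ℂ) * Complex.I)) =
      Complex.exp (-(Real.pi * t * Complex.I)) *
        Complex.exp (((Real.pi * η : ℝ) : ℂ) * Complex.I) := by
    rw [← Complex.exp_add]
    congr 1
    push_cast
    ring
  rw [StabCond.im_apply, h1, ← mul_assoc, σ.Z_eq, Complex.exp_mul_I, ← Complex.ofReal_cos,
    ← Complex.ofReal_sin]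
  simp only [Complex.mul_im, Complex.add_re, Complex.add_im, Complex.ofReal_re,
    Complex.ofReal_im, Complex.mul_re, Complex.I_re, Complex.I_im]
  ring

/-- The phases of a subobject. -/
theorem FSU_sub {σ : StabCond C} {t η : ℝ} {U X V : C} {f : U ⟶ X} {g : X ⟶ V}
    {w : V ⟶ U⟦(1 : ℤ)⟧} (hT : Triangle.mk f g w ∈ distTriang C) (hU : σ.sl.Heart t U)
    (hV : σ.sl.Heart t V) (hX : σ.sl.In {φ | φ ≤ t + 1 - η} X) :
    σ.sl.In (Set.Ioc t (t + 1 - η)) U := by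
  classical
  obtain ⟨l, hl, hI⟩ := hU
  obtain ⟨U', U'', a, b, c, hT', h1, h2⟩ := hl.trunc (Set.Ioi (t + 1 - η)) (isUpperSet_Ioi _)
  have hU' : σ.sl.In (Set.Ioi (t + 1 - η)) U' :=
    ⟨_, h1, fun φ hφ => by simpa using (List.mem_filter.1 hφ).2⟩
  have hU'h : σ.sl.Heart t U' := ⟨_, h1, fun φ hφ => hI φ (List.mem_filter.1 hφ).1⟩
  have hU'' : σ.sl.In (Set.Ioc t (t + 1 - η)) U'' := by
    refine ⟨_, h2, fun φ hφ => ?_⟩
    obtain ⟨h3, h4⟩ := List.mem_filter.1 hφ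
    have h5 : φ ≤ t + 1 - η := by simpa using h4
    exact ⟨(hI φ h3).1, h5⟩
  have hU''h : σ.sl.Heart t U'' := ⟨_, h2, fun φ hφ => hI φ (List.mem_filter.1 hφ).1⟩
  have ha : a = 0 := by
    refine FSU_mono hT hV hU'h a ?_
    refine Slicing.In.hom_zero hU' hX ?_ _
    intro φ hφ ψ hψ
    have h3 : t + 1 - η < φ := hφ
    have h4 : ψ ≤ t + 1 - η := hψ
    linarith
  have hz : IsZero U' := isZero₁_of_mor₁ hT' ha (fun r => σ.hom_shift_zero hU'h hU''h r)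
  have := iso_of_isZero₁ hT' hz
  exact hU''.iso (asIso b).symm

theorem p_FSU : Stmt_FSU C := by
  intro h σ t δ n α hF X hX
  have hXh : σ.sl.Heart t X := hX.mono fun φ hφ => ⟨hφ.1, hφ.2.le⟩
  obtain ⟨K0', N, hN⟩ := c_HCL C h σ t δ n α hF X hXh
  obtain ⟨L, hL, hLI⟩ := hX
  obtain ⟨η, hη0, hη1, hη2⟩ := FSU_list (t + 1) L (fun φ hφ => (hLI φ hφ).2)
  have hXη : σ.sl.In {φ | φ ≤ t + 1 - η} X := ⟨L, hL, hη2⟩
  have hs : 0 < Real.sin (Real.pi * η) := by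
    refine Real.sin_pos_of_pos_of_lt_pi (mul_pos Real.pi_pos hη0) ?_
    nlinarith [Real.pi_pos]
  have hre := hF.re0
  refine FSU_dn (α := α) N ?_ ?_
  · rintro x ⟨U, V, f, g, w, hT, hU, hV, rfl⟩
    obtain ⟨k, c, hc⟩ := c_HCL C h σ t δ n α hF U hU
    obtain ⟨k', c', hc'⟩ := c_HCL C h σ t δ n α hF V hV
    refine ⟨k, c, hc, ?_⟩
    have h1 : cls X = cls U + cls V := cls_mk hT
    have h2 : (k + k' - K0') • δ + ∑ i, ((c i : ℤ) + c' i - N i) • α i = 0 := by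
      have h3 : ∑ i, ((c i : ℤ) + c' i - N i) • α i = ∑ i, (c i : ℤ) • α i +
          ∑ i, (c' i : ℤ) • α i - ∑ i, (N i : ℤ) • α i := by
        rw [← Finset.sum_add_distrib, ← Finset.sum_sub_distrib]
        refine Finset.sum_congr rfl fun i _ => ?_
        rw [sub_smul, add_smul]
      rw [h3, sub_smul, add_smul]
      rw [hN, hc, hc'] at h1
      have h4 : K0' • δ = k • δ + ∑ i, (c i : ℤ) • α i + (k' • δ + ∑ i, (c' i : ℤ) • α i) -
          ∑ i, (N i : ℤ) • α i := by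
        rw [← h1]
        abel
      rw [h4]
      abel
    intro i
    have h5 := (hF.indep _ _ h2).2 i
    have h6 : (c i : ℤ) ≤ N i := by
      have : (0 : ℤ) ≤ c' i := Int.natCast_nonneg _
      omega
    exact_mod_cast h6
  · intro c
    obtain ⟨v, hv⟩ : ∃ v : K0 C, v = ∑ i, (c i : ℤ) • α i := ⟨_, rfl⟩
    rw [← hv]
    have hD : 0 < -(σ.re t δ) * Real.sin (Real.pi * η) := mul_pos (by linarith) hs
    refine ⟨⌊(σ.re t v * Real.sin (Real.pi * η) + σ.im t v * Real.cos (Real.pi * η)) /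
      (-(σ.re t δ) * Real.sin (Real.pi * η))⌋, ?_⟩
    rintro k ⟨U, V, f, g, w, hT, hU, hV, hk⟩
    rw [Int.le_floor, le_div_iff₀ hD]
    have h1 := FSU_sub hT hU hV hXη
    have h2 : σ.sl.Heart (t - η) U := h1.mono fun φ hφ =>
      ⟨by linarith [hφ.1], by linarith [hφ.2]⟩
    have h3 := σ.im_nonneg h2
    rw [FSU_rot, hk, map_add, map_add, map_zsmul, map_zsmul, hF.im0, zsmul_eq_mul,
      smul_zero, zero_add] at h3
    linarith

end Pool.Sep
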