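import Mathlib
import Pool.Agent.Work.MP_841263_sq.Interface

/-!
# Block KNL: the objects of the heart with nonpositive functional on all subobjects
-/

open CategoryTheory CategoryTheory.Limits CategoryTheory.Pretriangulated
open scoped ZeroObject Topology
open Filter

set_option backward.isDefEq.respectTransparency false
set_option backward.defeqAttrib.useBackward true
set_option linter.unusedSectionVars false

namespace Pool.Sep

open Pool.Stab Pool.Tube Pool.Align

universe v u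

variable {C : Type u} [Category.{v} C] [Preadditive C] [HasZeroObject C] [HasShift C ℤ]
  [∀ n : ℤ, (shiftFunctor C n).Additive] [Pretriangulated C]

/-- The imaginary part of a nonzero object with phases in `(s, s + 1)` is positive. -/
lemma KNL_pos (τ : StabCond C) {s : ℝ} {X : C} {l : List ℝ} (hX : HN τ.sl.P X l)
    (hl : ∀ φ ∈ l, s < φ ∧ φ < s + 1) (h0 : l ≠ []) : 0 < τ.im s (cls X) := by
  cases hX with
  | zero h => exact absurd rfl h0
  | @step X' _ A φ l hX' hφ hA hA0 f g k hT =>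
    have h1 := τ.im_nonneg_of_HN (t := s) hX' (fun ψ hψ => ⟨(hl ψ (by simp [hψ])).1,
      (hl ψ (by simp [hψ])).2.le⟩)
    have h2 := τ.im_pos_of_P (t := s) hA hA0 (hl φ (by simp)).1 (hl φ (by simp)).2
    rw [cls_mk hT, map_add]
    linarith

variable [IsTriangulated C] [Linear ℂ C] [∀ n : ℤ, (shiftFunctor C n).Linear ℂ]

theorem p_KNL : Stmt_PHA C → Stmt_KNL C := by
  classical
  intro pPHA h σ t δ n α θ τ hT X hX hS
  obtain ⟨l, hl, hI⟩ := (hT.heart X).1 hX
  refine ⟨l, hl, fun φ hφ => ⟨(hI φ hφ).1, ?_⟩⟩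
  by_contra hcon
  push Not at hcon
  obtain ⟨X', X'', f, g, k, hTr, h1, h2⟩ := hl.trunc (Set.Ioi (t + 1 / 2)) (isUpperSet_Ioi _)
  have hmem : φ ∈ l.filter (· ∈ Set.Ioi (t + 1 / 2)) :=
    List.mem_filter.2 ⟨hφ, by simpa using hcon⟩
  have hX' : τ.sl.Heart t X' := ⟨_, h1, fun ψ hψ => hI ψ (List.mem_filter.1 hψ).1⟩
  have hX'' : τ.sl.Heart t X'' := ⟨_, h2, fun ψ hψ => hI ψ (List.mem_filter.1 hψ).1⟩
  have hle := hS (cls X') ⟨X', X'', f, g, k, hTr, (hT.heart X').2 hX', (hT.heart X'').2 hX'',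
    rfl⟩
  have hpos : 0 < τ.im (t + 1 / 2) (cls X') := by
    refine KNL_pos τ h1 ?_ (List.ne_nil_of_mem hmem)
    intro ψ hψ
    have hψ' := List.mem_filter.1 hψ
    have h3 : t + 1 / 2 < ψ := by simpa using hψ'.2
    have h4 := (hI ψ hψ'.1).2
    exact ⟨h3, by linarith⟩
  rw [(pPHA h σ t δ n α θ τ hT (cls X')).1] at hpos
  linarith

end Pool.Sep
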