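import Mathlib
import Pool.Agent.Work.MP_841263_sq.Interface

/-!
# Block KNU: the objects of the heart with nonnegative functional on all quotients
-/

open CategoryTheory CategoryTheory.Limits CategoryTheory.Pretriangulated
open scoped ZeroObject Topology
open Filter

set_option backward.isDefEq.respectTransparency false
set_option backward.defeqAttrib.useBackward true
set_option linter.unusedSectionVars false

namespace Pool.Sep

open Pool.Stab Pool.Tube Pool.Align

universe v u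

variable {C : Type u} [Category.{v} C] [Preadditive C] [HasZeroObject C] [HasShift C ℤ]
  [∀ n : ℤ, (shiftFunctor C n).Additive] [Pretriangulated C]

/-- The imaginary part of a semistable object of phase in `[s, s + 1]` is nonnegative. -/
lemma KNU_nonneg (τ : StabCond C) {s φ : ℝ} {X : C} (hX : τ.sl.P φ X) (h1 : s ≤ φ)
    (h2 : φ ≤ s + 1) : 0 ≤ τ.im s (cls X) := by
  by_cases h0 : IsZero X
  · rw [cls_of_isZero h0, map_zero]
  · obtain ⟨hpos, -, him⟩ := τ.polar s hX h0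
    rw [him]
    refine mul_nonneg hpos.le (Real.sin_nonneg_of_nonneg_of_le_pi ?_ ?_)
    · exact mul_nonneg Real.pi_pos.le (by linarith)
    · nlinarith [Real.pi_pos]

/-- The imaginary part of an object with phases in `[s, s + 1]` is nonnegative. -/
lemma KNU_nonneg_HN (τ : StabCond C) {s : ℝ} {X : C} {l : List ℝ} (hX : HN τ.sl.P X l)
    (hl : ∀ φ ∈ l, s ≤ φ ∧ φ ≤ s + 1) : 0 ≤ τ.im s (cls X) := by
  induction hX with
  | zero h => rw [cls_of_isZero h, map_zero]
  | @step X' X A φ l hX' hφ hA hA0 f g k hT ih =>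
    have h1 := ih (fun ψ hψ => hl ψ (by simp [hψ]))
    have h3 := hl φ (by simp)
    have h4 := KNU_nonneg τ hA h3.1 h3.2
    rw [cls_mk hT, map_add]
    linarith

/-- The imaginary part of a nonzero object with phases in `(s, s + 1)` is positive. -/
lemma KNU_pos (τ : StabCond C) {s : ℝ} {X : C} {l : List ℝ} (hX : HN τ.sl.P X l)
    (hl : ∀ φ ∈ l, s < φ ∧ φ < s + 1) (h0 : l ≠ []) : 0 < τ.im s (cls X) := by
  cases hX with
  | zero h => exact absurd rfl h0
  | @step X' _ A φ l hX' hφ hA hA0 f g k hT =>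
    have h1 := KNU_nonneg_HN τ (s := s) hX' (fun ψ hψ => ⟨(hl ψ (by simp [hψ])).1.le,
      (hl ψ (by simp [hψ])).2.le⟩)
    have h2 := τ.im_pos_of_P (t := s) hA hA0 (hl φ (by simp)).1 (hl φ (by simp)).2
    rw [cls_mk hT, map_add]
    linarith

/-- Half a turn changes the sign. -/
lemma KNU_turn (τ : StabCond C) (s : ℝ) (x : K0 C) : τ.im s x = - τ.im (s - 1) x := by
  rw [τ.im_apply, τ.im_apply]
  have h1 : (-(Real.pi * ((s - 1 : ℝ) : ℂ) * Complex.I) : ℂ) =
      -(Real.pi * (s : ℂ) * Complex.I) + Real.pi * Complex.I := by push_cast; ring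
  rw [h1, Complex.exp_add, Complex.exp_pi_mul_I]
  simp

variable [IsTriangulated C] [Linear ℂ C] [∀ n : ℤ, (shiftFunctor C n).Linear ℂ]

theorem p_KNU : Stmt_PHA C → Stmt_KNU C := by
  classical
  intro pPHA h σ t δ n α θ τ hT X hX
  have hθ : ∀ x, τ.im (t + 1 / 2) x = θ x := fun x => (pPHA h σ t δ n α θ τ hT x).1
  obtain ⟨l, hl, hI⟩ := (hT.heart X).1 hX
  refine ⟨?_, ?_, ?_⟩
  · intro hS
    refine ⟨l, hl, fun φ hφ => ⟨?_, (hI φ hφ).2⟩⟩
    by_contra hcon
    obtain ⟨X', X'', f, g, k, hTr, h1, h2⟩ := hl.trunc (Set.Ici (t + 1 / 2)) (isUpperSet_Ici _)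
    have hmem : φ ∈ l.filter (· ∉ Set.Ici (t + 1 / 2)) :=
      List.mem_filter.2 ⟨hφ, by simpa using hcon⟩
    have hX' : τ.sl.Heart t X' := ⟨_, h1, fun ψ hψ => hI ψ (List.mem_filter.1 hψ).1⟩
    have hX'' : τ.sl.Heart t X'' := ⟨_, h2, fun ψ hψ => hI ψ (List.mem_filter.1 hψ).1⟩
    have hge := hS (cls X'') ⟨X', X'', f, g, k, hTr, (hT.heart X').2 hX',
      (hT.heart X'').2 hX'', rfl⟩
    have hpos : 0 < τ.im (t + 1 / 2 - 1) (cls X'') := by
      refine KNU_pos τ h2 ?_ (List.ne_nil_of_mem hmem)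
      intro ψ hψ
      have hψ' := List.mem_filter.1 hψ
      have h3 : ψ < t + 1 / 2 := by simpa using hψ'.2
      have h4 := (hI ψ hψ'.1).1
      exact ⟨by linarith, by linarith⟩
    rw [← hθ, KNU_turn] at hge
    linarith
  · intro hS
    refine ⟨l, hl, fun φ hφ => ⟨?_, (hI φ hφ).2⟩⟩
    by_contra hcon
    obtain ⟨X', X'', f, g, k, hTr, h1, h2⟩ := hl.trunc (Set.Ioi (t + 1 / 2)) (isUpperSet_Ioi _)
    have hmem : φ ∈ l.filter (· ∉ Set.Ioi (t + 1 / 2)) :=
      List.mem_filter.2 ⟨hφ, by simpa using hcon⟩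
    have hX' : τ.sl.Heart t X' := ⟨_, h1, fun ψ hψ => hI ψ (List.mem_filter.1 hψ).1⟩
    have hX'' : τ.sl.Heart t X'' := ⟨_, h2, fun ψ hψ => hI ψ (List.mem_filter.1 hψ).1⟩
    have hph : ∀ ψ ∈ l.filter (· ∉ Set.Ioi (t + 1 / 2)), t < ψ ∧ ψ ≤ t + 1 / 2 := by
      intro ψ hψ
      have hψ' := List.mem_filter.1 hψ
      have h3 : ψ ≤ t + 1 / 2 := by simpa using hψ'.2
      exact ⟨(hI ψ hψ'.1).1, h3⟩
    have hne : cls X'' ≠ 0 := by
      intro h0
      have h5 : 0 < τ.im t (cls X'') := by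
        refine KNU_pos τ h2 ?_ (List.ne_nil_of_mem hmem)
        intro ψ hψ
        have := hph ψ hψ
        exact ⟨this.1, by linarith⟩
      rw [h0, map_zero] at h5
      exact lt_irrefl _ h5
    have hge := hS (cls X'') ⟨X', X'', f, g, k, hTr, (hT.heart X').2 hX',
      (hT.heart X'').2 hX'', rfl⟩ hne
    have hnn : 0 ≤ τ.im (t + 1 / 2 - 1) (cls X'') := by
      refine KNU_nonneg_HN τ h2 ?_
      intro ψ hψ
      have := hph ψ hψ
      exact ⟨by linarith, by linarith⟩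
    rw [← hθ, KNU_turn] at hge
    linarith
  · rintro hXI x ⟨U, V, f, g, w, hTr, hU, hV, rfl⟩
    have hU' := (hT.heart U).1 hU
    have hV' := (hT.heart V).1 hV
    have h1 : τ.sl.In (Set.Ici (t + 1 / 2)) V := by
      refine Slicing.In.ext_upper (isUpperSet_Ici _) (rot_mk hTr)
        (hXI.mono (fun φ hφ => hφ.1)) (hU'.shift_one.mono ?_)
      rintro _ ⟨φ, hφ, rfl⟩
      have h3 : t < φ := hφ.1
      show t + 1 / 2 ≤ φ + 1
      linarith
    obtain ⟨m, hm, hJ⟩ := Slicing.In.inter (isUpperSet_Ici (t + 1 / 2))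
      (isUpperSet_Ioi (t + 1)) h1 hV'.lower
    rw [← hθ]
    refine KNU_nonneg_HN τ hm ?_
    intro φ hφ
    have h4 := hJ φ hφ
    have h5 : t + 1 / 2 ≤ φ := h4.1
    have h6 : φ ≤ t + 1 := not_lt.1 h4.2
    exact ⟨h5, by linarith⟩

end Pool.Sep
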