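import Mathlib
import Pool.Agent.Work.MP_841263_sq.Conv

/-!
# Block MNP: the point of least norm
-/

open scoped Topology

namespace Pool.Sep

open Pool.Stab Pool.Tube

universe v u

/-- If `0 ≤ 2 s a + s ^ 2 b` for all `s` in `(0, 1]` then `0 ≤ a`. -/
theorem MNP_lin (a b : ℝ) (h : ∀ s : ℝ, 0 < s → s ≤ 1 → 0 ≤ 2 * s * a + s ^ 2 * b) : 0 ≤ a := by
  by_contra hneg
  push Not at hneg
  rcases le_or_gt b 0 with hb | hb
  · have := h 1 one_pos le_rfl
    nlinarith
  · have hs : 0 < min 1 (-a / b) := lt_min one_pos (div_pos (by linarith) hb)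
    have h1 := h _ hs (min_le_left _ _)
    have h2 : min 1 (-a / b) * b ≤ -a := by
      calc min 1 (-a / b) * b ≤ (-a / b) * b := by
            exact mul_le_mul_of_nonneg_right (min_le_right _ _) hb.le
        _ = -a := by field_simp
    nlinarith

theorem p_MNP : Stmt_MNP.{u} := by
  intro K _ B hB m x
  -- the quadratic form
  set G : Fin (m + 1) → Fin (m + 1) → ℝ := fun i j => (B (x i) (x j) : ℝ) with hG
  have hsymm : ∀ i j, G i j = G j i := by
    intro i j
    simp only [hG]
    rw [hB.symm (x i) (x j)]
  set f : (Fin (m + 1) → ℝ) → ℝ := fun l => ∑ i, ∑ j, l i * l j * G i j with hf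
  have hcont : Continuous f := by
    simp only [hf]
    fun_prop
  have hne : (stdSimplex ℝ (Fin (m + 1))).Nonempty := ⟨_, single_mem_stdSimplex ℝ 0⟩
  obtain ⟨l, hl, hmin⟩ := (isCompact_stdSimplex ℝ (Fin (m + 1))).exists_isMinOn hne
    hcont.continuousOn
  have hl0 : ∀ i, 0 ≤ l i := hl.1
  have hl1 : ∑ i, l i = 1 := hl.2
  have key : ∀ k, f l ≤ ∑ i, l i * G i k := by
    intro k
    -- bilinear expansion
    set e : Fin (m + 1) → ℝ := Pi.single k 1 with he
    have hexp : ∀ s : ℝ, f (fun i => l i + s * (e i - l i)) =
        f l + 2 * s * (∑ i, l i * G i k - f l) +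
          s ^ 2 * (∑ i, ∑ j, (e i - l i) * (e j - l j) * G i j) := by
      intro s
      have h1 : f (fun i => l i + s * (e i - l i)) =
          f l + s * (∑ i, ∑ j, l i * (e j - l j) * G i j) +
            s * (∑ i, ∑ j, (e i - l i) * l j * G i j) +
          s ^ 2 * (∑ i, ∑ j, (e i - l i) * (e j - l j) * G i j) := by
        simp only [hf, Finset.mul_sum, ← Finset.sum_add_distrib]
        refine Finset.sum_congr rfl fun i _ => Finset.sum_congr rfl fun j _ => ?_
        ring
      have h2 : ∑ i, ∑ j, (e i - l i) * l j * G i j = ∑ i, ∑ j, l i * (e j - l j) * G i j := by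
        rw [Finset.sum_comm]
        refine Finset.sum_congr rfl fun i _ => Finset.sum_congr rfl fun j _ => ?_
        rw [hsymm j i]
        ring
      have h3 : ∑ i, ∑ j, l i * (e j - l j) * G i j = ∑ i, l i * G i k - f l := by
        simp only [hf, ← Finset.sum_sub_distrib]
        refine Finset.sum_congr rfl fun i _ => ?_
        have : ∑ j, l i * (e j - l j) * G i j =
            ∑ j, (l i * e j * G i j - l i * l j * G i j) := by
          refine Finset.sum_congr rfl fun j _ => ?_
          ring
        rw [this, Finset.sum_sub_distrib]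
        congr 1
        rw [Finset.sum_eq_single k]
        · simp [he]
        · intro j _ hj
          simp [he, Pi.single_eq_of_ne hj]
        · intro h
          exact absurd (Finset.mem_univ k) h
      rw [h1, h2, h3]
      ring
    have hlin := MNP_lin (∑ i, l i * G i k - f l)
      (∑ i, ∑ j, (e i - l i) * (e j - l j) * G i j) (by
        intro s hs hs1
        have hmem : (fun i => l i + s * (e i - l i)) ∈ stdSimplex ℝ (Fin (m + 1)) := by
          refine ⟨fun i => ?_, ?_⟩
          · have h0 : 0 ≤ e i := by
              simp only [he]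
              by_cases hik : i = k
              · subst hik
                simp
              · simp [Pi.single_eq_of_ne hik]
            have h1 := hl0 i
            show 0 ≤ l i + s * (e i - l i)
            nlinarith [mul_nonneg hs.le h0, mul_nonneg (sub_nonneg.2 hs1) h1]
          · have h1 : ∑ i, e i = 1 := by
              simp [he]
            rw [Finset.sum_add_distrib, ← Finset.mul_sum, Finset.sum_sub_distrib, hl1, h1]
            ring
        have h2 : f l ≤ f (fun i => l i + s * (e i - l i)) := hmin hmem
        rw [hexp s] at h2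
        linarith)
    linarith
  refine ⟨l, hl0, hl1, key, fun k hk => ?_⟩
  have hsum : ∑ k, l k * (∑ i, l i * G i k - f l) = 0 := by
    have h1 : ∑ k, l k * (∑ i, l i * G i k - f l) =
        ∑ k, ∑ i, l i * l k * G i k - (∑ k, l k) * f l := by
      rw [Finset.sum_mul, ← Finset.sum_sub_distrib]
      refine Finset.sum_congr rfl fun k _ => ?_
      rw [mul_sub, Finset.mul_sum]
      congr 1
      refine Finset.sum_congr rfl fun i _ => ?_
      ring
    rw [h1, hl1, one_mul, Finset.sum_comm]
    simp [hf]
  have hz := (Finset.sum_eq_zero_iff_of_nonneg (fun k _ =>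
    mul_nonneg (hl0 k) (sub_nonneg.2 (key k)))).1 hsum k (Finset.mem_univ k)
  rcases mul_eq_zero.1 hz with h | h
  · exact absurd h hk.ne'
  · exact sub_eq_zero.1 h

end Pool.Sep
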