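import Mathlib
import Pool.Agent.Work.MP_841263_sq.Conv

/-! # Separation, block NDG: functionals which vanish on the radical (helper4) -/

open scoped Topology

namespace Pool.Sep

open Pool.Stab Pool.Tube

universe v u

theorem NDG_free {K : Type u} [AddCommGroup K] (B : K →+ K →+ ℤ) :
    Module.IsTorsionFree ℤ (K ⧸ radical B) := by
  constructor
  intro n hn x y hxy
  have hn0 : n ≠ 0 := isRegular_iff_ne_zero.1 hn
  obtain ⟨a, rfl⟩ := Submodule.Quotient.mk_surjective _ x
  obtain ⟨b, rfl⟩ := Submodule.Quotient.mk_surjective _ y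
  have h1 : (Submodule.Quotient.mk (n • a) : K ⧸ radical B) = Submodule.Quotient.mk (n • b) := hxy
  rw [Submodule.Quotient.eq] at h1 ⊢
  intro z
  have h2 := h1 z
  rw [← smul_sub, map_zsmul, AddMonoidHom.smul_apply, smul_eq_mul] at h2
  exact (mul_eq_zero.1 h2).resolve_left hn0

theorem p_NDG : Stmt_NDG.{u} := by
  classical
  intro K _ _ _ B hB w hw
  have := NDG_free B
  have : Module.Free ℤ (K ⧸ radical B) := Module.free_of_finite_type_torsion_free'
  set d : ℕ := Module.finrank ℤ (K ⧸ radical B) with hd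
  let e' : Module.Basis (Fin d) ℤ (K ⧸ radical B) := Module.finBasis ℤ (K ⧸ radical B)
  have hex : ∀ i, ∃ a : K, (Submodule.Quotient.mk a : K ⧸ radical B) = e' i := fun i =>
    Submodule.Quotient.mk_surjective _ (e' i)
  choose e he using hex
  -- decomposition of an element
  have hdec : ∀ x : K, ∃ (a : Fin d → ℤ) (r : K), r ∈ radical B ∧ x = ∑ i, a i • e i + r := by
    intro x
    refine ⟨fun i => e'.repr (Submodule.Quotient.mk x) i,
      x - ∑ i, e'.repr (Submodule.Quotient.mk x) i • e i, ?_, by abel⟩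
    rw [← Submodule.Quotient.mk_eq_zero (radical B), Submodule.Quotient.mk_sub, sub_eq_zero]
    have h1 := e'.sum_repr (Submodule.Quotient.mk x)
    rw [← Submodule.mkQ_apply (radical B) (∑ i, _), map_sum]
    simp only [map_zsmul, Submodule.mkQ_apply, he]
    exact h1.symm
  -- the Gram matrix
  let G : Matrix (Fin d) (Fin d) ℤ := fun i j => B (e i) (e j)
  have hG : G.det ≠ 0 := by
    intro h0
    obtain ⟨c, hc0, hc⟩ := Matrix.exists_vecMul_eq_zero_iff.2 h0
    apply hc0
    have h1 : ∑ i, c i • e i ∈ radical B := by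
      apply hB.mem_radical_of_self
      have h2 : ∀ j, B (∑ i, c i • e i) (e j) = 0 := by
        intro j
        have h3 := congrFun hc j
        rw [map_sum, AddMonoidHom.finsetSum_apply]
        simp only [map_zsmul, AddMonoidHom.smul_apply, smul_eq_mul]
        exact h3
      have h4 : B (∑ i, c i • e i) (∑ j, c j • e j) = ∑ j, c j * B (∑ i, c i • e i) (e j) := by
        rw [map_sum (B (∑ i, c i • e i))]
        simp only [map_zsmul, smul_eq_mul]
      rw [h4]
      refine Finset.sum_eq_zero fun j _ => ?_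
      rw [h2 j, mul_zero]
    have h5 : ∑ i, c i • e' i = 0 := by
      have h6 := (Submodule.Quotient.mk_eq_zero (radical B)).2 h1
      rw [← Submodule.mkQ_apply (radical B), map_sum] at h6
      simp only [map_zsmul, Submodule.mkQ_apply, he] at h6
      exact h6
    have h7 := Fintype.linearIndependent_iff.1 e'.linearIndependent c h5
    exact funext h7
  let GR : Matrix (Fin d) (Fin d) ℝ := G.map (Int.cast : ℤ → ℝ)
  have hGR : IsUnit GR.det := by
    have h1 : GR.det = (G.det : ℝ) := by
      have := (Int.castRingHom ℝ).map_det G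
      simp only [eq_intCast] at this
      rw [this]
      rfl
    rw [isUnit_iff_ne_zero, h1]
    exact_mod_cast hG
  set y : Fin d → ℝ := fun j => w (e j) with hy
  set c : Fin d → ℝ := Matrix.vecMul y GR⁻¹ with hc
  have hcG : Matrix.vecMul c GR = y := by
    rw [hc, Matrix.vecMul_vecMul, Matrix.nonsing_inv_mul _ hGR, Matrix.vecMul_one]
  refine ⟨d, e, c, fun x => ?_⟩
  obtain ⟨a, r, hr, rfl⟩ := hdec x
  have h1 : ∀ j, w (e j) = ∑ i, c i * (B (e i) (e j) : ℝ) := fun j => (congrFun hcG j).symm
  have h2 : ∀ i, B (e i) r = 0 := fun i => by rw [hB.symm]; exact hr (e i)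
  rw [map_add, hw r hr, add_zero, map_sum]
  have h3 : ∀ i, (B (e i) (∑ j, a j • e j + r) : ℝ) = ∑ j, (a j : ℝ) * (B (e i) (e j) : ℝ) := by
    intro i
    rw [map_add, h2 i, add_zero, map_sum]
    push_cast
    refine Finset.sum_congr rfl fun j _ => ?_
    rw [map_zsmul, smul_eq_mul]
    push_cast
    rfl
  simp only [h3, Finset.mul_sum]
  rw [Finset.sum_comm]
  refine Finset.sum_congr rfl fun j _ => ?_
  rw [map_zsmul, zsmul_eq_mul, h1 j, Finset.mul_sum]
  refine Finset.sum_congr rfl fun i _ => ?_
  ring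

end Pool.Sep
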