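import Mathlib
import Pool.Agent.Work.MP_841263_sq.Interface

/-!
# Block PFI: objects with phases in `[t + 1/2, t + 1]` and functional zero
-/

open CategoryTheory CategoryTheory.Limits CategoryTheory.Pretriangulated
open scoped ZeroObject Topology
open Filter

set_option backward.isDefEq.respectTransparency false
set_option backward.defeqAttrib.useBackward true
set_option linter.unusedSectionVars false

namespace Pool.Sep

open Pool.Stab Pool.Tube Pool.Align

universe v u

variable {C : Type u} [Category.{v} C] [Preadditive C] [HasZeroObject C] [HasShift C ℤ]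
  [∀ n : ℤ, (shiftFunctor C n).Additive] [Pretriangulated C]

/-- The imaginary part of a semistable object of phase in `[s, s + 1]` is nonnegative. -/
lemma PFI_nonneg (τ : StabCond C) {s φ : ℝ} {X : C} (hX : τ.sl.P φ X) (h1 : s ≤ φ)
    (h2 : φ ≤ s + 1) : 0 ≤ τ.im s (cls X) := by
  by_cases h0 : IsZero X
  · rw [cls_of_isZero h0, map_zero]
  · obtain ⟨hpos, -, him⟩ := τ.polar s hX h0
    rw [him]
    refine mul_nonneg hpos.le (Real.sin_nonneg_of_nonneg_of_le_pi ?_ ?_)
    · exact mul_nonneg Real.pi_pos.le (by linarith)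
    · nlinarith [Real.pi_pos]

/-- All factors have nonnegative imaginary part; if the sum is nonpositive, all phases are `s`. -/
lemma PFI_aux (τ : StabCond C) {s : ℝ} {X : C} {l : List ℝ} (hX : HN τ.sl.P X l)
    (hl : ∀ φ ∈ l, s ≤ φ ∧ φ < s + 1) :
    0 ≤ τ.im s (cls X) ∧ (τ.im s (cls X) ≤ 0 → ∀ φ ∈ l, φ = s) := by
  induction hX with
  | zero h =>
    refine ⟨by rw [cls_of_isZero h, map_zero], ?_⟩
    simp
  | @step X' X A φ l hX' hφ hA hA0 f g k hT ih =>
    obtain ⟨h1, h2⟩ := ih (fun ψ hψ => hl ψ (by simp [hψ]))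
    have h3 := hl φ (by simp)
    have h4 := PFI_nonneg τ hA h3.1 h3.2.le
    rw [cls_mk hT, map_add]
    refine ⟨by linarith, ?_⟩
    intro h5 ψ hψ
    rcases List.mem_cons.1 hψ with rfl | h
    · by_contra hne
      have h6 := τ.im_pos_of_P hA hA0 (lt_of_le_of_ne h3.1 (Ne.symm hne)) h3.2
      linarith
    · exact h2 (by linarith) ψ h

variable [IsTriangulated C] [Linear ℂ C] [∀ n : ℤ, (shiftFunctor C n).Linear ℂ]

theorem p_PFI : Stmt_PHA C → Stmt_PFI C := by
  intro pPHA h σ t δ n α θ τ hT X hX h0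
  obtain ⟨l, hl, hI⟩ := hX
  have h1 := PFI_aux τ (s := t + 1 / 2) hl
    (fun φ hφ => ⟨(hI φ hφ).1, by have := (hI φ hφ).2; linarith⟩)
  have h2 := (pPHA h σ t δ n α θ τ hT (cls X)).1
  exact Slicing.In.P_of_singleton ⟨l, hl, fun φ hφ => h1.2 (by rw [h2, h0]) φ hφ⟩

end Pool.Sep
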