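import Pool.Agent.Work.MP_841263_sq.Interface

/-!
# Block PHA: the rotation by a quarter turn (helper72)
-/

open CategoryTheory CategoryTheory.Limits CategoryTheory.Pretriangulated
open scoped ZeroObject Topology
open Filter

namespace Pool.Sep

open Pool.Stab Pool.Tube Pool.Align

universe v u

theorem PHA_exp (t : ℝ) : Complex.exp (-(Real.pi * ((t + 1 / 2 : ℝ) : ℂ) * Complex.I)) =
    Complex.exp (-(Real.pi * t * Complex.I)) * (-Complex.I) := by
  have h1 : (-(Real.pi * ((t + 1 / 2 : ℝ) : ℂ) * Complex.I) : ℂ) =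
      -(Real.pi * t * Complex.I) + (-((Real.pi : ℂ) / 2)) * Complex.I := by
    push_cast; ring
  rw [h1, Complex.exp_add, Complex.exp_mul_I, Complex.cos_neg, Complex.sin_neg,
    Complex.cos_pi_div_two, Complex.sin_pi_div_two, zero_add, neg_one_mul]

variable (C : Type u) [Category.{v} C] [Preadditive C] [HasZeroObject C] [HasShift C ℤ]
  [∀ n : ℤ, (shiftFunctor C n).Additive] [Pretriangulated C] [IsTriangulated C] [Linear ℂ C]
  [∀ n : ℤ, (shiftFunctor C n).Linear ℂ]

theorem p_PHA : Stmt_PHA C := by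
  intro h σ t δ n α θ τ T x
  have h1 := T.re x
  have h2 := T.im x
  have h3 : τ.Z x * Complex.exp (-(Real.pi * ((t + 1 / 2 : ℝ) : ℂ) * Complex.I)) =
      ⟨τ.im t x, - τ.re t x⟩ := by
    rw [PHA_exp, ← mul_assoc, τ.Z_eq t x]
    apply Complex.ext <;> simp
  constructor
  · rw [τ.im_apply, h3]
    show - τ.re t x = θ x
    rw [h1, neg_neg]
  · rw [τ.re_apply, h3]
    exact h2

end Pool.Sep
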