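import Mathlib
import Pool.Agent.Work.MP_841263_sq.Interface

/-!
# Block PTR: moving the real part of the charge inside a tube
-/

set_option autoImplicit false

open CategoryTheory CategoryTheory.Limits CategoryTheory.Pretriangulated
open scoped ZeroObject Topology
open Filter

namespace Pool.Sep

open Pool.Stab Pool.Tube Pool.Align

universe v u

section

/-- A point of a path is joined to its start. -/
theorem PTR_joined {X : Type*} [TopologicalSpace X] (Γ : C(unitInterval, X)) (s : unitInterval) :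
    Joined (Γ 0) (Γ s) := by
  refine ⟨⟨⟨fun r => Γ (r * s), ?_⟩, ?_, ?_⟩⟩
  · exact Γ.continuous.comp (continuous_id.mul continuous_const)
  · simp
  · simp

theorem PTR_exp (t : ℝ) : Complex.exp (Real.pi * t * Complex.I) *
    Complex.exp (-(Real.pi * t * Complex.I)) = 1 := by
  rw [← Complex.exp_add, add_neg_cancel, Complex.exp_zero]

variable {C : Type u} [Category.{v} C] [Preadditive C] [HasZeroObject C] [HasShift C ℤ]
  [∀ n : ℤ, (shiftFunctor C n).Additive] [Pretriangulated C] [IsTriangulated C] [Linear ℂ C]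
  [∀ n : ℤ, (shiftFunctor C n).Linear ℂ]

/-- The charge with real part `- θ` and imaginary part `y`, rotated by `π t`. -/
noncomputable def PTR_W (t : ℝ) (θ y : K0 C →+ ℝ) : K0 C →+ ℂ :=
  AddMonoidHom.mk' (fun x => (((-(θ x) : ℝ) : ℂ) + ((y x : ℝ) : ℂ) * Complex.I) *
    Complex.exp (Real.pi * t * Complex.I)) (by
      intro a b
      simp only [map_add]
      push_cast
      ring)

omit [IsTriangulated C] [Linear ℂ C] [∀ n : ℤ, (shiftFunctor C n).Linear ℂ] in
theorem PTR_W_apply (t : ℝ) (θ y : K0 C →+ ℝ) (x : K0 C) :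
    PTR_W t θ y x = (((-(θ x) : ℝ) : ℂ) + ((y x : ℝ) : ℂ) * Complex.I) *
      Complex.exp (Real.pi * t * Complex.I) := rfl

omit [IsTriangulated C] [Linear ℂ C] [∀ n : ℤ, (shiftFunctor C n).Linear ℂ] in
theorem PTR_W_rot (t : ℝ) (θ y : K0 C →+ ℝ) (x : K0 C) :
    PTR_W t θ y x * Complex.exp (-(Real.pi * t * Complex.I)) =
      ((-(θ x) : ℝ) : ℂ) + ((y x : ℝ) : ℂ) * Complex.I := by
  rw [PTR_W_apply, mul_assoc, PTR_exp, mul_one]

omit [IsTriangulated C] [Linear ℂ C] [∀ n : ℤ, (shiftFunctor C n).Linear ℂ] in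
/-- A stability condition with this charge. -/
theorem PTR_reim {ρ : StabCond C} {t : ℝ} {θ y : K0 C →+ ℝ} (hZ : ρ.Z = PTR_W t θ y) (x : K0 C) :
    ρ.re t x = -(θ x) ∧ ρ.im t x = y x := by
  have h1 := ρ.Z_eq t x
  rw [hZ, PTR_W_rot] at h1
  constructor
  · have := congrArg Complex.re h1
    simpa using this.symm
  · have := congrArg Complex.im h1
    simpa using this.symm

omit [IsTriangulated C] [Linear ℂ C] [∀ n : ℤ, (shiftFunctor C n).Linear ℂ] in
/-- The charge of a stability condition in these coordinates. -/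
theorem PTR_Z {ρ : StabCond C} {t : ℝ} {θ y : K0 C →+ ℝ} (hre : ∀ x, ρ.re t x = -(θ x))
    (him : ∀ x, ρ.im t x = y x) : PTR_W t θ y = ρ.Z := by
  ext x
  have h1 := ρ.Z_eq t x
  have h2 := PTR_W_rot t θ y x
  have h3 : PTR_W t θ y x * Complex.exp (-(Real.pi * t * Complex.I)) =
      ρ.Z x * Complex.exp (-(Real.pi * t * Complex.I)) := by
    rw [h1, h2, hre, him]
    apply Complex.ext
    · simp
    · simp
  exact mul_right_cancel₀ (Complex.exp_ne_zero _) h3

omit [IsTriangulated C] [Linear ℂ C] [∀ n : ℤ, (shiftFunctor C n).Linear ℂ] in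
theorem PTR_cell {t : ℝ} {δ : K0 C} {n : ℕ} {α : Fin n → K0 C} {θ y : K0 C →+ ℝ}
    (hθ : 0 < θ δ) (hy : y δ = 0) (hpos : ∀ i, 0 < y (α i)) :
    InCell t δ α (PTR_W t θ y) := by
  refine ⟨⟨θ δ, hθ, ?_⟩, fun i => ?_⟩
  · rw [PTR_W_apply, hy]
    push_cast
    ring
  · rw [PTR_W_rot]
    have : (((-(θ (α i)) : ℝ) : ℂ) + ((y (α i) : ℝ) : ℂ) * Complex.I).im = y (α i) := by
      simp
    rw [this]
    exact hpos i

theorem p_PTR : Stmt_LFT C → Stmt_SAM C → Stmt_HRT C → Stmt_PTR C := by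
  intro hLFT hSAM hHRT h σ t δ n α hF θ θ' τ hθ hθ' hτ
  have hcell : ∀ s ∈ Set.Icc (0 : ℝ) 1, InCell t δ α (PTR_W t (θ + s • (θ' - θ)) (σ.im t)) := by
    intro s hs
    refine PTR_cell ?_ hF.im0 hF.pos
    have h1 : (θ + s • (θ' - θ)) δ = (1 - s) * θ δ + s * θ' δ := by
      simp only [AddMonoidHom.add_apply, AddMonoidHom.smul_apply, AddMonoidHom.sub_apply,
        smul_eq_mul]
      ring
    rw [h1]
    rcases eq_or_lt_of_le hs.1 with h0 | h0
    · rw [← h0]
      simpa using hθ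
    · have h2 := mul_nonneg (sub_nonneg.2 hs.2) hθ.le
      have h3 := mul_pos h0 hθ'
      linarith
  have hW0 : PTR_W t (θ + (0 : ℝ) • (θ' - θ)) (σ.im t) = τ.Z := by
    rw [zero_smul, add_zero]
    exact PTR_Z hτ.re hτ.im
  obtain ⟨Γ, hΓ0, hΓ⟩ := hLFT h τ (fun s => PTR_W t (θ + s • (θ' - θ)) (σ.im t))
    (by
      intro x
      simp only [PTR_W_apply, AddMonoidHom.add_apply, AddMonoidHom.smul_apply,
        AddMonoidHom.sub_apply, smul_eq_mul]
      fun_prop)
    (fun s hs => (c_XRG C h σ t δ n α hF _ (hcell s hs)).1) hW0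
  have hfr : ∀ s : unitInterval, Frame h (Γ s) t δ α := fun s =>
    (c_XRG C h σ t δ n α hF _ (hcell s s.2)).2 (Γ s) (hΓ s)
  refine ⟨Γ, hΓ0, fun s => ?_⟩
  have hsame : ∀ (i : Fin n) (k : ℤ) (X : C), IsS σ t δ α i k X ↔ IsS (Γ s) t δ α i k X := by
    intro i k X
    have h1 : IsS (Γ 0) t δ α i k X ↔ IsS (Γ s) t δ α i k X :=
      ⟨hSAM h Γ t δ n α Set.univ Set.ordConnected_univ (fun s _ => hfr s) 0 trivial s trivial i k X,
        hSAM h Γ t δ n α Set.univ Set.ordConnected_univ (fun s _ => hfr s) s trivial 0 trivial i k X⟩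
    rw [hΓ0] at h1
    exact (hτ.same i k X).trans h1
  have hh := hHRT h σ (Γ s) t δ n α hF (hfr s) (fun i k X => (hsame i k X).1)
  have hJ : Joined τ (Γ s) := by
    have := PTR_joined Γ s
    rwa [hΓ0] at this
  exact
    { joined := hτ.joined.trans hJ
      frame := hfr s
      re := fun x => (PTR_reim (hΓ s) x).1
      im := fun x => (PTR_reim (hΓ s) x).2
      same := hsame
      heart := fun X => (hh X).1
      pts := fun X => (hh X).2.1
      tf := fun X => (hh X).2.2 }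

end

end Pool.Sep
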