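import Mathlib
import Pool.Agent.Work.MP_841263_sq.Interface

/-! # Block QMT: quotients with minimal functional (helper68) -/

open CategoryTheory CategoryTheory.Limits CategoryTheory.Pretriangulated
open scoped ZeroObject Topology
open Filter

set_option backward.isDefEq.respectTransparency false
set_option backward.defeqAttrib.useBackward true
set_option linter.unusedSectionVars false

namespace Pool.Sep

open Pool.Stab Pool.Tube Pool.Align

universe v u

section

variable {C : Type u} [Category.{v} C] [Preadditive C] [HasZeroObject C] [HasShift C ℤ]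
  [∀ n : ℤ, (shiftFunctor C n).Additive] [Pretriangulated C] [IsTriangulated C] [Linear ℂ C]
  [∀ n : ℤ, (shiftFunctor C n).Linear ℂ]

theorem p_QMT : Stmt_PHA C → Stmt_KNU C → Stmt_PFI C → Stmt_QMT C := by
  intro _ hKNU hPFI h σ t δ n α θ τ hτ M L hM hL hML hQ x hx hx0
  obtain ⟨U, V, f, g, w, hT, hU, hV, rfl⟩ := hx
  have hA := σ.sl.heart_ab t
  have hses : SES (σ.sl.Heart t) f g := ⟨hU, hM, hV, w, hT⟩
  have hVQ : ∀ x ∈ QuoC σ t V, 0 ≤ θ x := by
    rintro _ ⟨U', V', f', g', w', hT', hU', hV', rfl⟩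
    obtain ⟨F, i, m, k, ⟨hF, -, -, d, hT3⟩, -⟩ :=
      SES.comp' hA hses (f' := f') (g' := g') ⟨hU', hV, hV', w', hT'⟩
    exact hQ _ ⟨F, V', i, g ≫ g', d, hT3, hF, hV', rfl⟩
  have h1 := (hKNU h σ t δ n α θ τ hτ V hV).1 hVQ
  exact ⟨V, rfl, hPFI h σ t δ n α θ τ hτ V h1 hx0, fun a => hses.epi hA hL a (hML (g ≫ a))⟩

end

end Pool.Sep
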