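import Pool.Agent.Work.MP_841263_sq.Conv

/-! # Separation, block RHO (helper36): a primitive radical class -/

set_option autoImplicit false

open scoped Topology

namespace Pool.Sep

open Pool.Stab Pool.Tube

universe v u

theorem p_RHO : Stmt_RHO.{u} := by
  classical
  intro K _ _ _ B im θ r hrad hθ him
  have hr0 : r ≠ 0 := by
    rintro rfl
    rw [map_zero] at him
    exact lt_irrefl _ him
  let b := Module.Free.chooseBasis ℤ K
  obtain ⟨i, hi⟩ : ∃ i, b.repr r i ≠ 0 := by
    by_contra hcon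
    push Not at hcon
    apply hr0
    apply b.repr.injective
    rw [map_zero]
    ext i
    exact hcon i
  set N : ℕ := (b.repr r i).natAbs with hN
  have hNpos : 1 ≤ N := Nat.one_le_iff_ne_zero.2 (Int.natAbs_ne_zero.2 hi)
  let P : ℕ → Prop := fun n => ∃ x : K, r = (n : ℤ) • x
  have hbd : ∀ n, P n → n ≤ N := by
    rintro n ⟨x, hx⟩
    have h1 : b.repr r i = (n : ℤ) * b.repr x i := by
      rw [hx, map_zsmul]
      simp
    have h2 : (n : ℤ) ∣ b.repr r i := ⟨_, h1⟩
    have h3 : n ∣ N := by
      rw [hN]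
      exact Int.natCast_dvd.1 h2
    exact Nat.le_of_dvd hNpos h3
  have hP1 : P 1 := ⟨r, by simp⟩
  set n := Nat.findGreatest P N with hn
  have hPn : P n := Nat.findGreatest_spec hNpos hP1
  have hn1 : 1 ≤ n := Nat.le_findGreatest hNpos hP1
  obtain ⟨x, hx⟩ := hPn
  have hnr : (0 : ℝ) < n := by exact_mod_cast hn1
  refine ⟨x, ?_, ?_, ?_, ?_⟩
  · intro y
    have h1 : B r y = 0 := hrad y
    rw [hx, map_zsmul, AddMonoidHom.coe_smul, Pi.smul_apply, smul_eq_mul] at h1
    rcases mul_eq_zero.1 h1 with h2 | h2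
    · exfalso
      have : n = 0 := by exact_mod_cast h2
      omega
    · exact h2
  · intro y k hk
    have hk0 : k ≠ 0 := by
      rintro rfl
      apply hr0
      rw [hx, hk]
      simp
    have h1 : P (n * k.natAbs) := by
      refine ⟨Int.sign k • y, ?_⟩
      rw [hx, hk, ← mul_smul, ← mul_smul]
      congr 1
      push_cast
      rw [mul_assoc, mul_comm |k|, Int.sign_mul_abs]
    have h2 : n * k.natAbs ≤ n := Nat.le_findGreatest (hbd _ h1) h1
    have h3 : k.natAbs ≤ 1 := by
      by_contra hcon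
      push Not at hcon
      have : n * 2 ≤ n * k.natAbs := Nat.mul_le_mul_left n hcon
      omega
    have h4 : k.natAbs = 1 := le_antisymm h3 (Nat.one_le_iff_ne_zero.2 (Int.natAbs_ne_zero.2 hk0))
    exact Int.natAbs_eq_iff.1 h4
  · rw [hx, map_zsmul, zsmul_eq_mul] at hθ
    rcases mul_eq_zero.1 hθ with h2 | h2
    · exfalso
      have h3 : (n : ℝ) = 0 := by exact_mod_cast h2
      linarith
    · exact h2
  · rw [hx, map_zsmul, zsmul_eq_mul] at him
    have h3 : (((n : ℤ)) : ℝ) = (n : ℝ) := by push_cast; rfl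
    rw [h3] at him
    exact (mul_pos_iff_of_pos_left hnr).1 him

end Pool.Sep
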