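import Pool.Agent.Work.MP_841263_sq.Conv

/-!
# Block RTP: the rational point
-/

open scoped Topology

namespace Pool.Sep

open Pool.Stab Pool.Tube

universe v u

/-- Farkas over the rational numbers for a finite index type. -/
theorem RTP_far (hfar : Stmt_FAR.{u}) (V : Type u) [AddCommGroup V] [Module ℚ V]
    (ι : Type v) [Fintype ι] (a : ι → V →ₗ[ℚ] ℚ) (c : V →ₗ[ℚ] ℚ)
    (h : ∀ v, (∀ i, a i v ≤ 0) → c v ≤ 0) :
    ∃ l : ι → ℚ, (∀ i, 0 ≤ l i) ∧ ∀ v, c v = ∑ i, l i * a i v := by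
  classical
  let e := Fintype.equivFin ι
  obtain ⟨l, hl0, hl⟩ := hfar ℚ V (Fintype.card ι) (fun j => a (e.symm j)) c
    (fun v hv => h v (fun i => by
      have := hv (e i)
      simpa using this))
  refine ⟨fun i => l (e i), fun i => hl0 _, fun v => ?_⟩
  rw [hl v, ← Equiv.sum_comp e (fun j => l j * a (e.symm j) v)]
  simp

/-- Evaluation. -/
def RTP_ev {K : Type u} [AddCommGroup K] (x : K) : (K →+ ℚ) →ₗ[ℚ] ℚ where
  toFun w := w x
  map_add' _ _ := rfl
  map_smul' _ _ := rfl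

theorem RTP_ev_apply {K : Type u} [AddCommGroup K] (x : K) (w : K →+ ℚ) : RTP_ev x w = w x := rfl

/-- The rational functional. -/
theorem RTP_w (hfar : Stmt_FAR.{u}) {K : Type u} [AddCommGroup K] [Module.Finite ℤ K]
    [Module.Free ℤ K] (FQ FS : Finset K) (δ : K) (θ : K →+ ℝ) (h1 : θ δ = 1)
    (hQ : ∀ x ∈ FQ, 0 ≤ θ x) (hS : ∀ y ∈ FS, θ y ≤ 0) :
    ∃ w : K →+ ℚ, (∀ x ∈ FQ, 0 ≤ w x) ∧ (∀ y ∈ FS, w y ≤ 0) ∧ 0 < w δ := by
  classical
  by_contra hcon
  push Not at hcon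
  obtain ⟨l, hl0, hl⟩ := RTP_far.{u} hfar (K →+ ℚ) (↥FQ ⊕ ↥FS)
    (Sum.elim (fun x => - RTP_ev (x : K)) (fun y => RTP_ev (y : K))) (RTP_ev δ)
    (fun w hw => hcon w (fun x hx => by
      have := hw (Sum.inl ⟨x, hx⟩)
      simp only [Sum.elim_inl, LinearMap.neg_apply, RTP_ev_apply] at this
      linarith) (fun y hy => by
      have := hw (Sum.inr ⟨y, hy⟩)
      simpa only [Sum.elim_inr, RTP_ev_apply] using this))
  have hl' : ∀ w : K →+ ℚ, w δ = - ∑ x : ↥FQ, l (Sum.inl x) * w x +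
      ∑ y : ↥FS, l (Sum.inr y) * w y := by
    intro w
    have := hl w
    rw [Fintype.sum_sum_type] at this
    simp only [Sum.elim_inl, Sum.elim_inr, LinearMap.neg_apply, RTP_ev_apply] at this
    rw [this, ← Finset.sum_neg_distrib]
    congr 1
    refine Finset.sum_congr rfl (fun x _ => ?_)
    ring
  -- the same for the real functional
  let b := Module.Free.chooseBasis ℤ K
  let W : Module.Free.ChooseBasisIndex ℤ K → K →+ ℚ := fun j =>
    (Int.castAddHom ℚ).comp (b.coord j).toAddMonoidHom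
  have hW : ∀ j z, W j z = ((b.repr z j : ℤ) : ℚ) := fun j z => rfl
  have hθ : ∀ z, θ z = ∑ j, ((W j z : ℚ) : ℝ) * θ (b j) := by
    intro z
    have h2 : θ z = θ (∑ j, b.repr z j • b j) := by rw [b.sum_repr z]
    rw [h2, map_sum]
    refine Finset.sum_congr rfl (fun j _ => ?_)
    rw [map_zsmul, zsmul_eq_mul, hW]
    push_cast
    rfl
  have hfin : θ δ = - ∑ x : ↥FQ, (l (Sum.inl x) : ℝ) * θ x +
      ∑ y : ↥FS, (l (Sum.inr y) : ℝ) * θ y := by
    have e1 : ∀ j, ((W j δ : ℚ) : ℝ) * θ (b j) =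
        - ∑ x : ↥FQ, (l (Sum.inl x) : ℝ) * (((W j x : ℚ) : ℝ) * θ (b j)) +
          ∑ y : ↥FS, (l (Sum.inr y) : ℝ) * (((W j y : ℚ) : ℝ) * θ (b j)) := by
      intro j
      rw [hl' (W j)]
      push_cast
      rw [add_mul, neg_mul, Finset.sum_mul, Finset.sum_mul]
      simp only [mul_assoc]
    have s1 : ∑ j, ∑ x : ↥FQ, (l (Sum.inl x) : ℝ) * (((W j x : ℚ) : ℝ) * θ (b j)) =
        ∑ x : ↥FQ, (l (Sum.inl x) : ℝ) * θ x := by
      rw [Finset.sum_comm]
      refine Finset.sum_congr rfl (fun x _ => ?_)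
      rw [← Finset.mul_sum, ← hθ]
    have s2 : ∑ j, ∑ y : ↥FS, (l (Sum.inr y) : ℝ) * (((W j y : ℚ) : ℝ) * θ (b j)) =
        ∑ y : ↥FS, (l (Sum.inr y) : ℝ) * θ y := by
      rw [Finset.sum_comm]
      refine Finset.sum_congr rfl (fun y _ => ?_)
      rw [← Finset.mul_sum, ← hθ]
    rw [hθ δ, Finset.sum_congr rfl (fun j _ => e1 j), Finset.sum_add_distrib,
      Finset.sum_neg_distrib, s1, s2]
  have p1 : 0 ≤ ∑ x : ↥FQ, (l (Sum.inl x) : ℝ) * θ x :=
    Finset.sum_nonneg (fun x _ => mul_nonneg (by exact_mod_cast hl0 _) (hQ x x.2))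
  have p2 : ∑ y : ↥FS, (l (Sum.inr y) : ℝ) * θ y ≤ 0 :=
    Finset.sum_nonpos (fun y _ => mul_nonpos_of_nonneg_of_nonpos (by exact_mod_cast hl0 _)
      (hS y y.2))
  rw [h1] at hfin
  linarith

/-- A radical element outside of the kernel of `im`. -/
theorem RTP_rad {K : Type u} [AddCommGroup K] [Module.Finite ℤ K] [Module.Free ℤ K]
    {B : K →+ K →+ ℤ} {im : K →+ ℝ} {δ : K} (h : LatHyp B im δ) :
    ∃ r ∈ radical B, im r ≠ 0 := by
  by_contra hcon
  push Not at hcon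
  have hle : radical B ≤ Submodule.span ℤ ({δ} : Set K) := by
    intro r hr
    obtain ⟨k, hk⟩ := h.imrad r hr (hcon r hr)
    rw [hk]
    exact Submodule.smul_mem _ _ (Submodule.mem_span_singleton_self δ)
  have h1 := Submodule.finrank_mono hle
  have h2 : Module.finrank ℤ (Submodule.span ℤ ({δ} : Set K)) ≤ 1 := by
    have := finrank_span_le_card (R := ℤ) ({δ} : Set K)
    simpa using this
  have h3 := h.rank
  omega

theorem p_RTP : Stmt_FAR.{u} → Stmt_RTP.{u} := by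
  classical
  intro hfar K _ _ _ B im δ Q S hC θ h1 hQ hS
  obtain ⟨FQ, hFQ, hFQQ, hup⟩ := hC.up
  obtain ⟨FS, hFS, hFSS, hdn⟩ := hC.dn
  obtain ⟨w, hw1, hw2, hw3⟩ := RTP_w hfar hFQ.toFinset hFS.toFinset δ θ h1
    (fun x hx => hQ x (hFQQ (by simpa using hx))) (fun y hy => hS y (hFSS (by simpa using hy)))
  have hw3' : (0 : ℝ) < (w δ : ℝ) := by exact_mod_cast hw3
  let θ' : K →+ ℝ := AddMonoidHom.mk' (fun z => ((w z : ℚ) : ℝ) / ((w δ : ℚ) : ℝ)) (by
    intro a b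
    rw [map_add]
    push_cast
    ring)
  have hθ' : ∀ z, θ' z = ((w z : ℚ) : ℝ) / ((w δ : ℚ) : ℝ) := fun _ => rfl
  refine ⟨θ', ?_, ?_, ?_, ?_⟩
  · rw [hθ']
    exact div_self hw3'.ne'
  · intro x hx
    obtain ⟨y, hy, k, rfl⟩ := hup x hx
    rw [hθ']
    apply div_nonneg _ hw3'.le
    have h2 : 0 ≤ w (y + (k : ℤ) • δ) := by
      rw [map_add, map_zsmul, zsmul_eq_mul]
      have := hw1 y (by simpa using hy)
      have h3 : 0 ≤ ((k : ℤ) : ℚ) * w δ := mul_nonneg (by positivity) hw3.le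
      linarith
    exact_mod_cast h2
  · intro x hx
    obtain ⟨y, hy, k, rfl⟩ := hdn x hx
    rw [hθ']
    apply div_nonpos_of_nonpos_of_nonneg _ hw3'.le
    have h2 : w (y - (k : ℤ) • δ) ≤ 0 := by
      rw [map_sub, map_zsmul, zsmul_eq_mul]
      have := hw2 y (by simpa using hy)
      have h3 : 0 ≤ ((k : ℤ) : ℚ) * w δ := mul_nonneg (by positivity) hw3.le
      linarith
    exact_mod_cast h2
  · obtain ⟨r0, hr0, him⟩ := RTP_rad hC.lat
    set t : ℚ := w r0 / w δ with ht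
    refine ⟨(t.den : ℤ) • r0 - t.num • δ, ?_, ?_, ?_⟩
    · exact Submodule.sub_mem _ (Submodule.smul_mem _ _ hr0) (Submodule.smul_mem _ _ hC.lat.rad)
    · intro h0
      have h2 : im ((t.den : ℤ) • r0 - t.num • δ) = 0 := by rw [h0, map_zero]
      rw [map_sub, map_zsmul, map_zsmul, hC.lat.im0, smul_zero, sub_zero, zsmul_eq_mul] at h2
      rcases mul_eq_zero.1 h2 with h3 | h3
      · have h4 : (t.den : ℤ) = 0 := by exact_mod_cast h3
        have := t.den_pos
        omega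
      · exact him h3
    · rw [hθ']
      have h2 : w ((t.den : ℤ) • r0 - t.num • δ) = 0 := by
        rw [map_sub, map_zsmul, map_zsmul, zsmul_eq_mul, zsmul_eq_mul]
        have h3 : w r0 = t * w δ := by
          rw [ht]
          field_simp
        have h4 : (t.den : ℚ) * t = t.num := by
          rw [mul_comm]
          exact Rat.mul_den_eq_num t
        have h5 : (((t.den : ℕ) : ℤ) : ℚ) * w r0 = (t.num : ℚ) * w δ := by
          rw [h3, ← mul_assoc]
          push_cast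
          rw [h4]
        rw [h5]
        ring
      rw [h2]
      simp

end Pool.Sep
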