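import Pool.Agent.Work.MP_841263_sq.Interface

/-!
# Block SEC: the contradiction at the threshold (helper52)
-/

open CategoryTheory CategoryTheory.Limits CategoryTheory.Pretriangulated
open scoped ZeroObject Topology
open Filter

namespace Pool.Sep

open Pool.Stab Pool.Tube Pool.Align

universe v u

variable {C : Type u} [Category.{v} C] [Preadditive C] [HasZeroObject C] [HasShift C ℤ]
  [∀ n : ℤ, (shiftFunctor C n).Additive] [Pretriangulated C] [IsTriangulated C]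

lemma SEC_P {S : Slicing C} {φ : ℝ} {X Y : C} (hX : S.P φ X) (hY : S.P φ Y) :
    S.P φ (X ⊞ Y) := by
  have hX' : S.In {φ} X := Slicing.in_of_P hX rfl
  have hY' : S.In {φ} Y := Slicing.in_of_P hY rfl
  have h1 : S.In (Set.Ici φ ∩ (Set.Ioi φ)ᶜ) (X ⊞ Y) :=
    Slicing.In.inter (isUpperSet_Ici φ) (isUpperSet_Ioi φ)
      (Slicing.In.ext_upper (isUpperSet_Ici φ) (binaryBiproductTriangle_distinguished X Y)
        (hX'.mono (by simp)) (hY'.mono (by simp)))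
      (Slicing.In.ext_lower (isUpperSet_Ioi φ) (binaryBiproductTriangle_distinguished X Y)
        (hX'.mono (by simp)) (hY'.mono (by simp)))
  apply Slicing.In.P_of_singleton
  refine h1.mono ?_
  intro x hx
  have h2 : φ ≤ x := hx.1
  have h3 : x ≤ φ := not_lt.1 hx.2
  exact le_antisymm h3 h2

lemma SEC_Ico {S : Slicing C} {a b : ℝ} {X Y : C} (hX : S.In (Set.Ico a b) X)
    (hY : S.In (Set.Ico a b) Y) : S.In (Set.Ico a b) (X ⊞ Y) := by
  have e1 : Set.Ico a b ⊆ Set.Ici a := fun x hx => hx.1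
  have e2 : Set.Ico a b ⊆ (Set.Ici b)ᶜ := fun x hx => not_le.2 hx.2
  have h1 : S.In (Set.Ici a ∩ (Set.Ici b)ᶜ) (X ⊞ Y) :=
    Slicing.In.inter (isUpperSet_Ici a) (isUpperSet_Ici b)
      (Slicing.In.ext_upper (isUpperSet_Ici a) (binaryBiproductTriangle_distinguished X Y)
        (hX.mono e1) (hY.mono e1))
      (Slicing.In.ext_lower (isUpperSet_Ici b) (binaryBiproductTriangle_distinguished X Y)
        (hX.mono e2) (hY.mono e2))
  refine h1.mono ?_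
  intro x hx
  exact ⟨hx.1, not_le.1 hx.2⟩

variable (C)
variable [Linear ℂ C] [∀ n : ℤ, (shiftFunctor C n).Linear ℂ]

theorem p_SEC (hRHO : Stmt_RHO.{u}) (hETR : Stmt_ETR C) (hPHA : Stmt_PHA C)
    (hQMT : Stmt_QMT C) (hSLT : Stmt_SLT C) (hSUM : Stmt_SUM C) (hKGA : Stmt_KGA C) :
    Stmt_SEC C := by
  rintro h σ t δ n α hF M L hM hL hML θ hθδ hQ ⟨m, x, c, hx, hxr, hxim⟩ ⟨m', y, c', hy, hyr, hyθ⟩
  have hfin := h.finite
  have hfree := h.free
  obtain ⟨τ, hT⟩ := hETR h σ t δ n α hF θ (by rw [hθδ]; exact one_pos)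
  obtain ⟨N, hN, hNP, hNL⟩ := hSUM (fun X => τ.sl.P (t + 1 / 2) X ∧ ∀ f : X ⟶ L, f = 0)
    ⟨τ.sl.zero_mem _, fun f => (isZero_zero C).eq_of_src _ _⟩
    (fun X Y hX hY => ⟨SEC_P hX.1 hY.1, fun f => biprod.hom_ext' _ _
      (by rw [comp_zero]; exact hX.2 _) (by rw [comp_zero]; exact hY.2 _)⟩) m x c
    (fun i => by
      obtain ⟨V, hV1, hV2, hV3⟩ := hQMT h σ t δ n α θ τ hT M L hM hL hML hQ (x i) (hx i).1 (hx i).2
      exact ⟨V, hV1, hV2, hV3⟩)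
  obtain ⟨E, hE, hEI, hEN⟩ := hSUM
    (fun X => τ.sl.In (Set.Ico (t + 1 / 2) (t + 1 / 2 + 1)) X ∧
      ∀ N', τ.sl.P (t + 1 / 2) N' → (∀ f : N' ⟶ L, f = 0) → ∀ f : N' ⟶ X, f = 0)
    ⟨Slicing.in_of_isZero _ (isZero_zero C), fun N' _ _ f => (isZero_zero C).eq_of_tgt _ _⟩
    (fun X Y hX hY => ⟨SEC_Ico hX.1 hY.1, fun N' h1 h2 f => biprod.hom_ext _ _
      (by rw [zero_comp]; exact hX.2 N' h1 h2 _) (by rw [zero_comp]; exact hY.2 N' h1 h2 _)⟩) m' y c'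
    (fun i => by
      obtain ⟨A, hA1, hA2, hA3⟩ := hSLT h σ t δ n α θ τ hT L hL (y i) (hy i).1 (hy i).2
      exact ⟨A, hA1, hA2, hA3⟩)
  have hNr : cls N ∈ radical (eulerForm h.k3) := by rw [hN]; exact hxr
  have hNim : 0 < σ.im t (cls N) := by rw [hN]; exact hxim
  have hNθ : θ (cls N) = 0 := by
    rw [hN, map_sum]
    refine Finset.sum_eq_zero (fun i _ => ?_)
    rw [map_zsmul, (hx i).2, smul_zero]
  obtain ⟨ρ, hρr, hρp, hρθ, hρim⟩ := hRHO (K0 C) (eulerForm h.k3) (σ.im t) θ (cls N) hNr hNθ hNim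
  have hN0 : ¬ IsZero N := by
    intro h0
    rw [cls_of_isZero h0, map_zero] at hNim
    exact lt_irrefl _ hNim
  obtain ⟨f, hf⟩ := hKGA h τ (t + 1 / 2) ρ hρr hρp
    (by rw [(hPHA h σ t δ n α θ τ hT ρ).1]; exact hρθ)
    (by rw [(hPHA h σ t δ n α θ τ hT ρ).2]; exact hρim) N hNP hN0 hNr E hEI
    (by rw [hE]; exact hyr)
    (by rw [(hPHA h σ t δ n α θ τ hT (cls E)).1, hE]; exact hyθ)
  exact hf (hEN N hNP hNL f)

end Pool.Sep
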