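import Mathlib
import Pool.Agent.Work.MP_841263_sq.Interface

/-!
# Block SEQ: separation of two objects of a tube heart (helper32)
-/

open CategoryTheory CategoryTheory.Limits CategoryTheory.Pretriangulated
open scoped ZeroObject Topology
open Filter

set_option backward.isDefEq.respectTransparency false
set_option backward.defeqAttrib.useBackward true
set_option linter.unusedSectionVars false

namespace Pool.Sep

open Pool.Stab Pool.Tube Pool.Align

universe v u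

variable (C : Type u) [Category.{v} C] [Preadditive C] [HasZeroObject C] [HasShift C ℤ]
  [∀ n : ℤ, (shiftFunctor C n).Additive] [Pretriangulated C] [IsTriangulated C] [Linear ℂ C]
  [∀ n : ℤ, (shiftFunctor C n).Linear ℂ]

theorem p_SEQ : Stmt_THA.{u} → Stmt_THB.{u} → Stmt_RTP.{u} → Stmt_ETR C → Stmt_PHA C →
    Stmt_KNU C → Stmt_KNL C → Stmt_CVH C → Stmt_SEC C → Stmt_SEQ C := by
  intro hTHA hTHB hRTP hETR hPHA hKNU hKNL hCVH hSEC h σ t δ n α hF M L hM hL h0 hLtf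
  have hfin : Module.Finite ℤ (K0 C) := h.finite
  have hfree : Module.Free ℤ (K0 C) := h.free
  have hLI : σ.sl.In (Set.Ioo t (t + 1)) L := by
    obtain ⟨T, Y, f, g, k, hT, hTP, hY⟩ := hL.exists_torsion
    have hz : IsZero T := isZero₁_of_mor₁ hT (hLtf T hTP f)
      (fun r => σ.hom_shift_zero (Slicing.heart_of_P hTP (by linarith) le_rfl)
        (hY.mono (fun φ hφ => ⟨hφ.1, hφ.2.le⟩)) r)
    have := iso_of_isZero₁ hT hz
    exact hY.iso (asIso g).symm
  have hConv := hCVH h σ t δ n α hF M L hM hLI h0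
  rcases hTHA (K0 C) (eulerForm h.k3) (σ.im t) δ _ _ hConv with
    ⟨θ, hθ, hQ, hS⟩ | ⟨θ, hθ, hQ, hpos, hsl, hti⟩
  · obtain ⟨θ', h1, h2, h3, r, hr, hr0, hr1⟩ :=
      hRTP (K0 C) (eulerForm h.k3) (σ.im t) δ _ _ hConv θ hθ hQ hS
    obtain ⟨τ, hτ⟩ := hETR h σ t δ n α hF θ' (by rw [h1]; norm_num)
    refine ⟨τ, hτ.joined, fun X hX => (hτ.heart X).1 hX, ⟨r, hr, hr0, ?_⟩, ?_, ?_⟩
    · rw [(hPHA h σ t δ n α θ' τ hτ r).1, hr1]
    · exact (hKNU h σ t δ n α θ' τ hτ M hM).1 h2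
    · exact hKNL h σ t δ n α θ' τ hτ L hL h3
  · exfalso
    obtain ⟨hA, hB⟩ :=
      hTHB (K0 C) (eulerForm h.k3) (σ.im t) δ _ _ hConv θ hθ hQ hpos hsl hti
    exact hSEC h σ t δ n α hF M L hM hL h0 θ hθ hQ hA hB

end Pool.Sep
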