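import Mathlib
import Pool.Agent.Work.MP_841263_sq.Interface

/-!
# Block SLT: subobjects with maximal value (helper58)
-/

open CategoryTheory CategoryTheory.Limits CategoryTheory.Pretriangulated
open scoped ZeroObject Topology
open Filter

set_option backward.isDefEq.respectTransparency false
set_option backward.defeqAttrib.useBackward true

namespace Pool.Sep

open Pool.Stab Pool.Tube Pool.Align

universe v u

variable (C : Type u) [Category.{v} C] [Preadditive C] [HasZeroObject C] [HasShift C ℤ]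
  [∀ n : ℤ, (shiftFunctor C n).Additive] [Pretriangulated C] [IsTriangulated C] [Linear ℂ C]
  [∀ n : ℤ, (shiftFunctor C n).Linear ℂ]

theorem p_SLT : Stmt_PHA C → Stmt_KNU C → Stmt_SLT C := by
  intro _ hKNU h σ t δ n α θ τ hT L hL y hy hmax
  obtain ⟨A, V, f, g, w, hT1, hA, hV, rfl⟩ := hy
  have hq : ∀ x ∈ QuoC σ t A, 0 ≤ θ x := by
    rintro x ⟨A', V', f', g', w', hT2, hA', hV', rfl⟩
    obtain ⟨W, p, q, hT3⟩ := distinguished_cocone_triangle (f' ≫ f)
    obtain ⟨m, m', r, hT4, -, -, -, -⟩ := exists_octa hT2 hT1 hT3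
    have hW : σ.sl.Heart t W := Slicing.Heart.ext hT4 hV' hV
    have h1 := hmax (cls A') ⟨A', W, f' ≫ f, p, q, hT3, hA', hW, rfl⟩
    have h2 : cls A = cls A' + cls V' := cls_mk hT2
    rw [h2, map_add] at h1
    linarith
  refine ⟨A, rfl, ?_, ?_⟩
  · refine ((hKNU h σ t δ n α θ τ hT A hA).1 hq).mono ?_
    intro x hx
    exact ⟨hx.1, by linarith [hx.2]⟩
  · intro N hN hNL a
    obtain ⟨b, c, hT2⟩ := exists_invrot hT1
    obtain ⟨d, hd⟩ := Triangle.coyoneda_exact₂ _ hT2 a (hNL (a ≫ f))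
    have hNh : τ.sl.Heart t N := Slicing.heart_of_P hN (by linarith) (by linarith)
    have h1 : d = 0 := Slicing.Heart.hom_neg hNh ((hT.heart V).1 hV) (by norm_num) d
    rw [hd, h1, zero_comp]

end Pool.Sep
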