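import Pool.Agent.Work.MP_841263_sq.Conv

/-! # Separation, block THA (helper20) -/

set_option autoImplicit false
set_option linter.unusedSectionVars false

open scoped Topology
open Filter

namespace Pool.Sep

open Pool.Stab Pool.Tube

universe v u

theorem THA_att (hATT : Stmt_ATT.{u}) {V : Type u} [AddCommGroup V] [Module ℝ V]
    {ι : Type*} [Fintype ι] (a : ι → V →ₗ[ℝ] ℝ) (b : ι → ℝ) (c : V →ₗ[ℝ] ℝ)
    (h1 : ∃ v, ∀ i, a i v ≤ b i) (h2 : ∃ z : ℝ, ∀ v, (∀ i, a i v ≤ b i) → z ≤ c v) :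
    ∃ v, (∀ i, a i v ≤ b i) ∧ ∀ w, (∀ i, a i w ≤ b i) → c v ≤ c w := by
  let e := Fintype.equivFin ι
  have key : ∀ v, (∀ i : Fin (Fintype.card ι), a (e.symm i) v ≤ b (e.symm i)) ↔
      ∀ i, a i v ≤ b i := by
    intro v
    constructor
    · intro h i
      have := h (e i)
      rwa [Equiv.symm_apply_apply] at this
    · intro h i
      exact h _
  obtain ⟨v, hv, hm⟩ := hATT V (Fintype.card ι) (fun i => a (e.symm i)) (fun i => b (e.symm i)) c
    (by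
      obtain ⟨v, hv⟩ := h1
      exact ⟨v, (key v).2 hv⟩)
    (by
      obtain ⟨z, hz⟩ := h2
      exact ⟨z, fun v hv => hz v ((key v).1 hv)⟩)
  exact ⟨v, (key v).1 hv, fun w hw => hm w ((key w).2 hw)⟩

/-- Evaluation. -/
noncomputable def THA_ev {K : Type u} [AddCommGroup K] (x : K) : (K →+ ℝ) →ₗ[ℝ] ℝ where
  toFun θ := θ x
  map_add' _ _ := rfl
  map_smul' _ _ := rfl

variable {K : Type u} [AddCommGroup K] [Module.Finite ℤ K] [Module.Free ℤ K]
  {B : K →+ K →+ ℤ} {im : K →+ ℝ} {δ : K} {Q S : Set K}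

set_option linter.unusedSectionVars false in
theorem THA_r0 (h : LatHyp B im δ) : ∃ r ∈ radical B, 0 < im r := by
  by_contra hcon
  push Not at hcon
  have h1 : ∀ r ∈ radical B, im r = 0 := by
    intro r hr
    have h2 := hcon r hr
    have h3 := hcon (-r) ((radical B).neg_mem hr)
    rw [map_neg] at h3
    linarith
  have h2 : radical B ≤ Submodule.span ℤ {δ} := by
    intro r hr
    obtain ⟨k, hk⟩ := h.imrad r hr (h1 r hr)
    rw [hk]
    exact Submodule.smul_mem _ _ (Submodule.mem_span_singleton_self δ)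
  have h3 := Submodule.finrank_mono h2
  have h4 := finrank_span_le_card (R := ℤ) ({δ} : Set K)
  rw [h.rank] at h3
  simp at h4
  omega

theorem THA_dep (h : LatHyp B im δ) {r₀ : K} (hr₀ : r₀ ∈ radical B) (him : 0 < im r₀)
    {r : K} (hr : r ∈ radical B) : ∃ N a b : ℤ, N ≠ 0 ∧ N • r = a • δ + b • r₀ := by
  have hdep : ¬ LinearIndependent ℤ ![(⟨δ, h.rad⟩ : radical B), ⟨r₀, hr₀⟩, ⟨r, hr⟩] := by
    intro hli
    have h1 := hli.fintype_card_le_finrank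
    rw [h.rank] at h1
    simp at h1
  rw [Fintype.linearIndependent_iff] at hdep
  push Not at hdep
  obtain ⟨g, hg, i, hi⟩ := hdep
  have h1 : g 0 • δ + g 1 • r₀ + g 2 • r = 0 := by
    have h2 := congrArg Subtype.val hg
    rw [Fin.sum_univ_three] at h2
    simpa using h2
  by_cases h2 : g 2 = 0
  · exfalso
    rw [h2, zero_smul, add_zero] at h1
    have h3 := congrArg im h1
    rw [map_add, map_zsmul, map_zsmul, h.im0, map_zero, smul_zero, zero_add, zsmul_eq_mul] at h3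
    have h4 : g 1 = 0 := by
      rcases mul_eq_zero.1 h3 with h5 | h5
      · exact_mod_cast h5
      · exact absurd h5 him.ne'
    rw [h4, zero_smul, add_zero] at h1
    have h5 : g 0 = 0 := by
      rcases smul_eq_zero.1 h1 with h6 | h6
      · exact h6
      · exact absurd h6 h.ne
    fin_cases i
    · exact hi h5
    · exact hi h4
    · exact hi h2
  · refine ⟨g 2, -g 0, -g 1, h2, ?_⟩
    rw [neg_smul, neg_smul]
    have h3 : g 2 • r = -(g 0 • δ + g 1 • r₀) := by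
      rw [eq_neg_iff_add_eq_zero, add_comm]
      exact h1
    rw [h3]
    abel

theorem THA_slice (h : LatHyp B im δ) {r₀ : K} (hr₀ : r₀ ∈ radical B) (him : 0 < im r₀)
    {θ θ' : K →+ ℝ} (h1 : θ δ = θ' δ) (h2 : θ r₀ = θ' r₀) : ∀ r ∈ radical B, θ r = θ' r := by
  intro r hr
  obtain ⟨N, a, b, hN, he⟩ := THA_dep h hr₀ him hr
  have h3 := congrArg θ he
  have h4 := congrArg θ' he
  rw [map_add, map_zsmul, map_zsmul, map_zsmul] at h3 h4
  rw [h1, h2, ← h4, zsmul_eq_mul, zsmul_eq_mul] at h3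
  exact mul_left_cancel₀ (by exact_mod_cast hN) h3

theorem THA_one (h : LatHyp B im δ) : ∃ θ : K →+ ℝ, θ δ = 1 := by
  obtain ⟨f, hf⟩ : ∃ f : K →ₗ[ℤ] ℤ, f δ ≠ 0 := by
    by_contra hcon
    push Not at hcon
    apply h.ne
    have b := Module.Free.chooseBasis ℤ K
    apply b.ext_elem
    intro i
    have h1 := hcon (b.coord i)
    rw [map_zero]
    simpa using h1
  refine ⟨((AddMonoidHom.mulLeft ((f δ : ℝ)⁻¹)).comp (Int.castAddHom ℝ)).comp f.toAddMonoidHom, ?_⟩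
  show ((f δ : ℝ)⁻¹) * ((f δ : ℤ) : ℝ) = 1
  exact inv_mul_cancel₀ (by exact_mod_cast hf)

/-- Small multiples. -/
theorem THA_small {F : Set K} (hF : F.Finite) (p q : K → ℝ)
    (h : ∀ x ∈ F, 0 < p x ∨ (p x = 0 ∧ 0 < q x)) : ∃ ε : ℝ, 0 < ε ∧ ∀ x ∈ F, 0 < p x + ε * q x := by
  have h1 : ∀ᶠ ε : ℝ in 𝓝[>] 0, ∀ x ∈ F, 0 < p x + ε * q x := by
    rw [Filter.eventually_all_finite hF]
    intro x hx
    rcases h x hx with h2 | ⟨h2, h3⟩
    · have h3 : Filter.Tendsto (fun ε : ℝ => p x + ε * q x) (𝓝 0) (𝓝 (p x + 0 * q x)) := by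
        apply Continuous.tendsto
        fun_prop
      rw [zero_mul, add_zero] at h3
      exact (h3.eventually (lt_mem_nhds h2)).filter_mono nhdsWithin_le_nhds
    · filter_upwards [self_mem_nhdsWithin] with ε hε
      rw [h2, zero_add]
      exact mul_pos hε h3
  obtain ⟨ε, h2, h3⟩ := (h1.and self_mem_nhdsWithin).exists
  exact ⟨ε, h3, h2⟩

theorem THA_small' {F : Set K} (hF : F.Finite) (p q : K → ℝ)
    (h : ∀ x ∈ F, 0 < p x ∨ (p x = 0 ∧ 0 ≤ q x)) : ∃ ε : ℝ, 0 < ε ∧ ∀ x ∈ F, 0 ≤ p x + ε * q x := by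
  have h1 : ∀ᶠ ε : ℝ in 𝓝[>] 0, ∀ x ∈ F, 0 ≤ p x + ε * q x := by
    rw [Filter.eventually_all_finite hF]
    intro x hx
    rcases h x hx with h2 | ⟨h2, h3⟩
    · have h3 : Filter.Tendsto (fun ε : ℝ => p x + ε * q x) (𝓝 0) (𝓝 (p x + 0 * q x)) := by
        apply Continuous.tendsto
        fun_prop
      rw [zero_mul, add_zero] at h3
      exact ((h3.eventually (lt_mem_nhds h2)).filter_mono nhdsWithin_le_nhds).mono
        (fun _ h => h.le)
    · filter_upwards [self_mem_nhdsWithin] with ε hε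
      rw [h2, zero_add]
      exact mul_nonneg (le_of_lt hε) h3
  obtain ⟨ε, h2, h3⟩ := (h1.and self_mem_nhdsWithin).exists
  exact ⟨ε, h3, h2⟩

/-- A multiple of a positive function dominates. -/
theorem THA_big {F : Set K} (hF : F.Finite) (p q : K → ℝ)
    (h : ∀ x ∈ F, 0 < q x ∨ 0 ≤ p x ∧ q x = 0) : ∃ c : ℝ, 0 ≤ c ∧ ∀ x ∈ F, 0 ≤ p x + c * q x := by
  have h1 : ∀ᶠ c : ℝ in Filter.atTop, ∀ x ∈ F, 0 ≤ p x + c * q x := by
    rw [Filter.eventually_all_finite hF]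
    intro x hx
    rcases h x hx with h2 | ⟨h2, h3⟩
    · filter_upwards [Filter.eventually_ge_atTop (-(p x) / q x)] with c hc
      have h3 := (div_le_iff₀ h2).1 hc
      linarith
    · filter_upwards with c
      rw [h3, mul_zero, add_zero]
      exact h2
  obtain ⟨c, h2, h3⟩ := (h1.and (Filter.eventually_ge_atTop 0)).exists
  exact ⟨c, h3, h2⟩

omit [Module.Finite ℤ K] [Module.Free ℤ K] in
theorem THA_Q {F : Set K} (hF : ∀ x ∈ Q, ∃ y ∈ F, ∃ k : ℕ, x = y + (k : ℤ) • δ)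
    {θ : K →+ ℝ} (h1 : 0 ≤ θ δ) (h2 : ∀ y ∈ F, 0 ≤ θ y) : ∀ x ∈ Q, 0 ≤ θ x := by
  intro x hx
  obtain ⟨y, hy, k, rfl⟩ := hF x hx
  rw [map_add, map_zsmul, zsmul_eq_mul]
  have h3 := h2 y hy
  have h4 : (0 : ℝ) ≤ ((k : ℤ) : ℝ) := by exact_mod_cast Nat.zero_le k
  have h5 := mul_nonneg h4 h1
  linarith

omit [Module.Finite ℤ K] [Module.Free ℤ K] in
theorem THA_S {F : Set K} (hF : ∀ x ∈ S, ∃ y ∈ F, ∃ k : ℕ, x = y - (k : ℤ) • δ)
    {θ : K →+ ℝ} {M : ℝ} (h1 : 0 ≤ θ δ) (h2 : ∀ y ∈ F, θ y ≤ M) : ∀ x ∈ S, θ x ≤ M := by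
  intro x hx
  obtain ⟨y, hy, k, rfl⟩ := hF x hx
  rw [map_sub, map_zsmul, zsmul_eq_mul]
  have h3 := h2 y hy
  have h4 : (0 : ℝ) ≤ ((k : ℤ) : ℝ) := by exact_mod_cast Nat.zero_le k
  have h5 := mul_nonneg h4 h1
  linarith

theorem p_THA : Stmt_ATT.{u} → Stmt_CMN.{u} → Stmt_THA.{u} := by
  intro hATT hCMN K _ _ _ B im δ Q S H
  by_contra hcon
  rw [not_or] at hcon
  obtain ⟨hA, hB⟩ := hcon
  apply hB
  obtain ⟨FQ, hFQf, hFQs, hFQ⟩ := H.up
  obtain ⟨FS, hFSf, hFSs, hFS⟩ := H.dn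
  obtain ⟨r₀, hr₀, him⟩ := THA_r0 H.lat
  obtain ⟨θ₀, hθ₀⟩ := THA_one H.lat
  -- the set of functionals nonnegative on `Q`
  obtain ⟨c, hc0, hc⟩ := THA_big hFQf (fun x => θ₀ x) (fun x => im x) (fun x hx => by
    rcases (H.qim x (hFQs hx)).lt_or_eq with h1 | h1
    · exact Or.inl h1
    · right
      obtain ⟨k, hk⟩ := H.qpt x (hFQs hx) h1.symm
      refine ⟨?_, h1.symm⟩
      rw [hk, map_zsmul, hθ₀, zsmul_eq_mul, mul_one]
      exact_mod_cast Nat.zero_le k)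
  have hPQ : (θ₀ + c • im) δ = 1 ∧ ∀ x ∈ Q, 0 ≤ (θ₀ + c • im) x := by
    have h1 : (θ₀ + c • im) δ = 1 := by
      show θ₀ δ + c * im δ = 1
      rw [hθ₀, H.lat.im0, mul_zero, add_zero]
    exact ⟨h1, THA_Q hFQ (by rw [h1]; exact zero_le_one) (fun y hy => hc y hy)⟩
  obtain ⟨d, hd0, hd⟩ := THA_big hFSf (fun x => -θ₀ x) (fun x => im x) (fun x hx => by
    rcases (H.sim x (hFSs hx)).lt_or_eq with h1 | h1
    · exact Or.inl h1
    · right
      have hk := H.spt x (hFSs hx) h1.symm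
      refine ⟨?_, h1.symm⟩
      rw [hk, map_zero, neg_zero])
  have hPS : (θ₀ - d • im) δ = 1 ∧ ∀ x ∈ S, (θ₀ - d • im) x ≤ 0 := by
    have h1 : (θ₀ - d • im) δ = 1 := by
      show θ₀ δ - d * im δ = 1
      rw [hθ₀, H.lat.im0, mul_zero, sub_zero]
    refine ⟨h1, THA_S hFS (by rw [h1]; exact zero_le_one) (fun y hy => ?_)⟩
    show θ₀ y - d * im y ≤ 0
    have := hd y hy
    linarith
  -- (1)
  have step1 : ∀ θ θ' : K →+ ℝ, θ δ = 1 → (∀ x ∈ Q, 0 ≤ θ x) → θ' δ = 1 → (∀ y ∈ S, θ' y ≤ 0) →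
      θ' r₀ < θ r₀ := by
    intro θ θ' h1 h2 h3 h4
    by_contra hlt
    push Not at hlt
    apply hA
    obtain ⟨t, ht0, ht⟩ : ∃ t : ℝ, 0 ≤ t ∧ θ r₀ + t * im r₀ = θ' r₀ := by
      refine ⟨(θ' r₀ - θ r₀) / im r₀, div_nonneg (by linarith) him.le, ?_⟩
      rw [div_mul_cancel₀ _ him.ne']
      ring
    obtain ⟨χ, hχ, hmin⟩ := hCMN K B im δ Q S H θ' h3
    have h5 := hmin θ' (fun r _ => rfl)
    have h6 := hmin (θ + t • im) (THA_slice H.lat hr₀ him (by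
      show θ δ + t * im δ = θ' δ
      rw [h1, h3, H.lat.im0, mul_zero, add_zero]) ht)
    refine ⟨χ, (hχ δ H.lat.rad).trans h3, ?_, ?_⟩
    · intro x hx
      obtain ⟨x', hx', h7⟩ := h6.2 x hx
      refine le_trans ?_ h7
      show 0 ≤ θ x' + t * im x'
      exact add_nonneg (h2 x' hx') (mul_nonneg ht0 (H.qim x' hx'))
    · intro y hy
      obtain ⟨y', hy', h7⟩ := h5.1 y hy
      exact h7.trans (h4 y' hy')
  -- (2) the minimum
  let _ : Fintype FQ := hFQf.fintype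
  obtain ⟨θ₁, h11, h12, h13⟩ : ∃ θ₁ : K →+ ℝ, θ₁ δ = 1 ∧ (∀ x ∈ Q, 0 ≤ θ₁ x) ∧
      ∀ θ : K →+ ℝ, θ δ = 1 → (∀ x ∈ Q, 0 ≤ θ x) → θ₁ r₀ ≤ θ r₀ := by
    let a : Option (Option FQ) → (K →+ ℝ) →ₗ[ℝ] ℝ := fun i => match i with
      | none => THA_ev δ
      | some none => - THA_ev δ
      | some (some x) => - THA_ev x.1
    let b : Option (Option FQ) → ℝ := fun i => match i with
      | none => 1
      | some none => -1
      | some (some _) => 0
    have key : ∀ θ : K →+ ℝ, (∀ i, a i θ ≤ b i) ↔ (θ δ = 1 ∧ ∀ x ∈ Q, 0 ≤ θ x) := by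
      intro θ
      constructor
      · intro h1
        have h2 : θ δ ≤ 1 := h1 none
        have h3 : -θ δ ≤ -1 := h1 (some none)
        have h4 : θ δ = 1 := by linarith
        refine ⟨h4, THA_Q hFQ (by rw [h4]; exact zero_le_one) (fun y hy => ?_)⟩
        have h5 : -θ y ≤ 0 := h1 (some (some ⟨y, hy⟩))
        linarith
      · rintro ⟨h1, h2⟩ i
        rcases i with _ | _ | x
        · show θ δ ≤ 1
          rw [h1]
        · show -θ δ ≤ -1
          rw [h1]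
        · show -θ x.1 ≤ 0
          have := h2 x.1 (hFQs x.2)
          linarith
    obtain ⟨θ₁, h1, h2⟩ := THA_att hATT a b (THA_ev r₀) ⟨_, (key _).2 hPQ⟩
      ⟨(θ₀ - d • im) r₀, fun θ hθ => (step1 θ _ ((key θ).1 hθ).1 ((key θ).1 hθ).2 hPS.1
        hPS.2).le⟩
    exact ⟨θ₁, ((key _).1 h1).1, ((key _).1 h1).2, fun θ h3 h4 => h2 θ ((key θ).2 ⟨h3, h4⟩)⟩
  obtain ⟨θ, hθ, hmin⟩ := hCMN K B im δ Q S H θ₁ h11
  have hθδ : θ δ = 1 := (hθ δ H.lat.rad).trans h11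
  have hθQ : ∀ x ∈ Q, 0 ≤ θ x := by
    intro x hx
    obtain ⟨x', hx', h1⟩ := (hmin θ₁ (fun r _ => rfl)).2 x hx
    exact (h12 x' hx').trans h1
  refine ⟨θ, hθδ, hθQ, ?_, ?_, ?_⟩
  · by_contra hneg
    push Not at hneg
    exact hA ⟨θ, hθδ, hθQ, hneg⟩
  · -- slice
    intro w hw
    have hwδ : w δ = 0 := hw δ H.lat.rad
    have hne : FS.Nonempty := by
      obtain ⟨y, hy, -⟩ := hFS 0 H.s0
      exact ⟨y, hy⟩
    obtain ⟨y₀, hy₀, hmax⟩ := Set.exists_max_image FS (fun y => θ y) hFSf hne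
    have hmaxS : ∀ y ∈ S, θ y ≤ θ y₀ :=
      THA_S hFS (by rw [hθδ]; exact zero_le_one) hmax
    by_contra hno
    push Not at hno
    obtain ⟨ε, hε, hsm⟩ := THA_small hFSf (fun y => θ y₀ - θ y) (fun y => - w y)
      (fun y hy => by
        rcases (hmax y hy).lt_or_eq with h1 | h1
        · left
          show 0 < θ y₀ - θ y
          linarith
        · right
          refine ⟨by show θ y₀ - θ y = 0; linarith, ?_⟩
          have := hno y (hFSs hy) (fun y' hy' => (hmaxS y' hy').trans h1.ge)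
          show 0 < - w y
          linarith)
    obtain ⟨y', hy', h1⟩ := (hmin (θ + ε • w) (fun r hr => by
      show θ r + ε * w r = θ₁ r
      rw [hw r hr, mul_zero, add_zero]
      exact hθ r hr)).1 y₀ (hFSs hy₀)
    obtain ⟨y'', hy'', k, hk⟩ := hFS y' hy'
    have h2 : (θ + ε • w) y' ≤ (θ + ε • w) y'' := by
      show θ y' + ε * w y' ≤ θ y'' + ε * w y''
      rw [hk, map_sub, map_sub, map_zsmul, map_zsmul, hθδ, hwδ, smul_zero, sub_zero,
        zsmul_eq_mul, mul_one]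
      have h4 : (0 : ℝ) ≤ ((k : ℤ) : ℝ) := by exact_mod_cast Nat.zero_le k
      linarith
    have h3 := h1.trans h2
    have h4 : θ y₀ ≤ θ y'' + ε * w y'' := h3
    have h5 := hsm y'' hy''
    simp only [mul_neg] at h5
    linarith
  · -- tight
    intro w hwδ hwr
    by_contra hno
    push Not at hno
    obtain ⟨ε, hε, hsm⟩ := THA_small' hFQf (fun y => θ y) (fun y => w y)
      (fun y hy => by
        rcases (hθQ y (hFQs hy)).lt_or_eq with h1 | h1
        · exact Or.inl h1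
        · exact Or.inr ⟨h1.symm, hno y (hFQs hy) h1.symm⟩)
    have h1 : (θ + ε • w) δ = 1 := by
      show θ δ + ε * w δ = 1
      rw [hθδ, hwδ, mul_zero, add_zero]
    have h2 := h13 (θ + ε • w) h1 (THA_Q hFQ (by rw [h1]; exact zero_le_one)
      (fun y hy => hsm y hy))
    have h3 : θ₁ r₀ ≤ θ r₀ + ε * w r₀ := h2
    have h4 := hwr r₀ hr₀ him
    have h5 := hθ r₀ hr₀
    have h6 := mul_pos_of_neg_of_neg h4 (neg_lt_zero.2 hε)
    nlinarith

end Pool.Sep
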