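import Pool.Agent.Work.MP_841263_sq.B_RTP
import Pool.Agent.Work.MP_841263_sq.B_THA
import Pool.Agent.Work.MP_841263_sq.B_NDG

open scoped Topology

namespace Pool.Sep

open Pool.Stab Pool.Tube

universe v u

set_option linter.unusedSectionVars false

theorem THBx_clear {ι : Type v} [Fintype ι] (l : ι → ℚ) (hl : ∀ i, 0 ≤ l i) :
    ∃ D : ℕ, 0 < D ∧ ∃ c : ι → ℕ, ∀ i, (c i : ℚ) = (D : ℚ) * l i := by
  classical
  refine ⟨∏ j, (l j).den, Finset.prod_pos fun j _ => (l j).den_pos, fun i => (l i).num.toNat *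
    ∏ j ∈ Finset.univ.erase i, (l j).den, fun i => ?_⟩
  have h1 : (∏ j, (l j).den) = (l i).den * ∏ j ∈ Finset.univ.erase i, (l j).den :=
    (Finset.mul_prod_erase Finset.univ (fun j => (l j).den) (Finset.mem_univ i)).symm
  rw [h1]
  have h2 : (((l i).num.toNat : ℕ) : ℚ) = ((l i).num : ℚ) := by
    have : (((l i).num.toNat : ℕ) : ℤ) = (l i).num := Int.toNat_of_nonneg (Rat.num_nonneg.2 (hl i))
    exact_mod_cast this
  have h3 : ((l i).den : ℚ) * l i = ((l i).num : ℚ) := by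
    rw [mul_comm]
    exact Rat.mul_den_eq_num (l i)
  rw [Nat.cast_mul, Nat.cast_mul, h2, ← h3]
  ring

theorem THBx_zero {K : Type u} [AddCommGroup K] [Module.Finite ℤ K] [Module.Free ℤ K] (z : K)
    (h : ∀ w : K →+ ℚ, w z = 0) : z = 0 := by
  have b := Module.Free.chooseBasis ℤ K
  apply b.ext_elem
  intro i
  have h1 := h ((Int.castAddHom ℚ).comp (b.coord i).toAddMonoidHom)
  rw [map_zero]
  have h2 : ((b.repr z i : ℤ) : ℚ) = 0 := h1
  simpa using h2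

/-- Reindexing. -/
theorem THBx_fin {K : Type u} [AddCommGroup K] {ι : Type v} [Fintype ι] (x : ι → K) (c : ι → ℕ)
    (P : K → Prop) (hx : ∀ i, P (x i)) :
    ∃ (m : ℕ) (x' : Fin m → K) (c' : Fin m → ℕ), (∀ i, P (x' i)) ∧
      ∑ i, (c' i : ℤ) • x' i = ∑ i, (c i : ℤ) • x i := by
  classical
  let e := Fintype.equivFin ι
  exact ⟨Fintype.card ι, fun j => x (e.symm j), fun j => c (e.symm j), fun j => hx _,
    Equiv.sum_comp e.symm (fun i => (c i : ℤ) • x i)⟩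

section

variable {K : Type u} [AddCommGroup K] [Module.Finite ℤ K] [Module.Free ℤ K]
  {B : K →+ K →+ ℤ} {im : K →+ ℝ} {δ : K} {Q S : Set K}

/-- First half. -/
theorem THBx_first (hfar : Stmt_FAR.{u}) (hC : ConvHyp B im δ Q S) (θ : K →+ ℝ) (h1 : θ δ = 1)
    (hQ : ∀ x ∈ Q, 0 ≤ θ x)
    (ht : ∀ w : K →+ ℝ, w δ = 0 → (∀ r ∈ radical B, 0 < im r → w r < 0) →
      ∃ x ∈ Q, θ x = 0 ∧ w x < 0) :
    ∃ (m : ℕ) (x : Fin m → K) (c : Fin m → ℕ), (∀ i, x i ∈ Q ∧ θ (x i) = 0) ∧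
      ∑ i, (c i : ℤ) • x i ∈ radical B ∧ 0 < im (∑ i, (c i : ℤ) • x i) := by
  classical
  obtain ⟨F, hF, hFQ, hup⟩ := hC.up
  obtain ⟨r₀, hr₀, him⟩ := THA_r0 hC.lat
  have hfin : {x | x ∈ Q ∧ θ x = 0}.Finite := by
    refine hF.subset ?_
    rintro x ⟨hx, hx0⟩
    obtain ⟨y, hy, k, rfl⟩ := hup x hx
    have h2 := hQ y (hFQ hy)
    rw [map_add, map_zsmul, h1] at hx0
    simp at hx0
    have h3 : (0 : ℝ) ≤ (k : ℝ) := Nat.cast_nonneg k
    have h4 : (k : ℝ) = 0 := by linarith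
    have h5 : k = 0 := by exact_mod_cast h4
    rw [h5]
    simpa using hy
  let X := hfin.toFinset
  have hX : ∀ x, x ∈ X ↔ x ∈ Q ∧ θ x = 0 := fun x => by simp [X]
  obtain ⟨l, hl0, hl⟩ := RTP_far.{u} hfar (K →+ ℚ) (↥X ⊕ Bool)
    (Sum.elim (fun x => - RTP_ev (x : K)) (fun b => if b then RTP_ev δ else - RTP_ev δ))
    (- RTP_ev r₀)
    (fun w hw => by
      have hwx : ∀ x ∈ X, 0 ≤ w x := fun x hx => by
        have := hw (Sum.inl ⟨x, hx⟩)
        simp only [Sum.elim_inl, LinearMap.neg_apply, RTP_ev_apply] at this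
        linarith
      have hd1 : w δ ≤ 0 := by
        have := hw (Sum.inr true)
        simpa [RTP_ev_apply] using this
      have hd2 : 0 ≤ w δ := by
        have := hw (Sum.inr false)
        simpa [RTP_ev_apply] using this
      have hd : w δ = 0 := le_antisymm hd1 hd2
      rw [LinearMap.neg_apply, RTP_ev_apply]
      by_contra hcon
      push Not at hcon
      have hr0 : w r₀ < 0 := by linarith
      let w' : K →+ ℝ := (Rat.castHom ℝ).toAddMonoidHom.comp w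
      have hw' : ∀ z, w' z = ((w z : ℚ) : ℝ) := fun _ => rfl
      obtain ⟨x, hx, hx0, hxw⟩ := ht w' (by rw [hw', hd]; simp) (fun r hr hri => by
        obtain ⟨N, a, b, hN, he⟩ := THA_dep hC.lat hr₀ him hr
        have h3 := congrArg w he
        have h4 := congrArg im he
        rw [map_add, map_zsmul, map_zsmul, map_zsmul, hd, smul_zero, zero_add, zsmul_eq_mul,
          zsmul_eq_mul] at h3
        rw [map_add, map_zsmul, map_zsmul, map_zsmul, hC.lat.im0, smul_zero, zero_add,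
          zsmul_eq_mul, zsmul_eq_mul] at h4
        rw [hw']
        have hN' : (N : ℝ) ≠ 0 := by exact_mod_cast hN
        have h5 : (N : ℝ) * ((w r : ℚ) : ℝ) = (b : ℝ) * ((w r₀ : ℚ) : ℝ) := by exact_mod_cast h3
        have h6 : ((w r₀ : ℚ) : ℝ) < 0 := by exact_mod_cast hr0
        have h7 : ((w r : ℚ) : ℝ) * im r₀ = im r * ((w r₀ : ℚ) : ℝ) := by
          have h8 : (N : ℝ) * (((w r : ℚ) : ℝ) * im r₀) = (N : ℝ) * (im r * ((w r₀ : ℚ) : ℝ)) := by
            rw [← mul_assoc, h5, ← mul_assoc, h4]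
            ring
          exact mul_left_cancel₀ hN' h8
        by_contra hc
        push Not at hc
        have h9 : 0 ≤ ((w r : ℚ) : ℝ) * im r₀ := mul_nonneg hc him.le
        have h10 : im r * ((w r₀ : ℚ) : ℝ) < 0 := mul_neg_of_pos_of_neg hri h6
        linarith)
      rw [hw'] at hxw
      have h9 := hwx x ((hX x).2 ⟨hx, hx0⟩)
      have h10 : (0 : ℝ) ≤ ((w x : ℚ) : ℝ) := by exact_mod_cast h9
      linarith)
  obtain ⟨D, hD, c, hc⟩ := THBx_clear (fun x : ↥X => l (Sum.inl x)) (fun x => hl0 _)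
  set μ : ℚ := l (Sum.inr true) - l (Sum.inr false) with hμ
  have hl' : ∀ w : K →+ ℚ, w r₀ = ∑ x : ↥X, l (Sum.inl x) * w x - μ * w δ := by
    intro w
    have := hl w
    rw [Fintype.sum_sum_type] at this
    simp only [Sum.elim_inl, Sum.elim_inr, LinearMap.neg_apply, RTP_ev_apply, Fintype.sum_bool,
      if_true, Bool.false_eq_true, if_false, mul_neg, Finset.sum_neg_distrib] at this
    rw [hμ]
    linarith
  -- the multiple of delta is also cleared
  have hμD : ((μ.den : ℕ) : ℚ) * μ = (μ.num : ℚ) := by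
    rw [mul_comm]
    exact Rat.mul_den_eq_num μ
  have hsum : ((D * μ.den : ℕ) : ℤ) • r₀ =
      ∑ x : ↥X, ((c x * μ.den : ℕ) : ℤ) • (x : K) - ((D : ℤ) * μ.num) • δ := by
    rw [← sub_eq_zero]
    apply THBx_zero
    intro w
    rw [map_sub, map_sub, map_sum, map_zsmul, map_zsmul]
    simp only [map_zsmul, zsmul_eq_mul]
    rw [hl' w]
    push_cast
    have h2 : ∀ x : ↥X, ((c x : ℚ) * (μ.den : ℚ)) * w x =
        ((D : ℚ) * (μ.den : ℚ)) * (l (Sum.inl x) * w x) := by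
      intro x
      rw [hc x]
      ring
    rw [Finset.sum_congr rfl (fun x _ => h2 x), ← Finset.mul_sum]
    have h3 : ((D : ℚ) * (μ.den : ℚ)) * (μ * w δ) = (D : ℚ) * (μ.num : ℚ) * w δ := by
      rw [← hμD]
      ring
    linear_combination (-1 : ℚ) * h3
  have hsum' : ∑ x : ↥X, ((c x * μ.den : ℕ) : ℤ) • (x : K) =
      ((D * μ.den : ℕ) : ℤ) • r₀ + ((D : ℤ) * μ.num) • δ := by
    rw [hsum]
    abel
  obtain ⟨m, x', c', hx', he⟩ := THBx_fin (fun x : ↥X => (x : K)) (fun x => c x * μ.den)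
    (fun x => x ∈ Q ∧ θ x = 0) (fun x => (hX x).1 x.2)
  refine ⟨m, x', c', hx', ?_, ?_⟩
  · rw [he, hsum']
    exact Submodule.add_mem _ (Submodule.smul_mem _ _ hr₀) (Submodule.smul_mem _ _ hC.lat.rad)
  · rw [he, hsum', map_add, map_zsmul, map_zsmul, hC.lat.im0, smul_zero, add_zero, zsmul_eq_mul]
    apply mul_pos _ him
    have : 0 < D * μ.den := Nat.mul_pos hD μ.den_pos
    exact_mod_cast this

/-- Second half. -/
theorem THBx_second (hfar : Stmt_FAR.{u}) (hC : ConvHyp B im δ Q S) (θ : K →+ ℝ) (h1 : θ δ = 1)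
    (hp : ∃ y ∈ S, 0 < θ y)
    (hs : ∀ w : K →+ ℝ, (∀ r ∈ radical B, w r = 0) →
      ∃ y ∈ S, (∀ y' ∈ S, θ y' ≤ θ y) ∧ 0 ≤ w y) :
    ∃ (m : ℕ) (y : Fin m → K) (c : Fin m → ℕ), (∀ i, y i ∈ S ∧ ∀ y' ∈ S, θ y' ≤ θ (y i)) ∧
      ∑ i, (c i : ℤ) • y i ∈ radical B ∧ 0 < θ (∑ i, (c i : ℤ) • y i) := by
  classical
  obtain ⟨F, hF, hFS, hdn⟩ := hC.dn
  have hfin : {y | y ∈ S ∧ ∀ y' ∈ S, θ y' ≤ θ y}.Finite := by
    refine hF.subset ?_
    rintro x ⟨hx, hx0⟩
    obtain ⟨y, hy, k, rfl⟩ := hdn x hx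
    have h2 := hx0 y (hFS hy)
    have h5 : k = 0 := by
      rw [map_sub, map_zsmul, h1, zsmul_eq_mul, mul_one] at h2
      have h4 : ((k : ℤ) : ℝ) ≤ 0 := by linarith
      have h6 : (k : ℤ) ≤ 0 := by exact_mod_cast h4
      omega
    rw [h5]
    simpa using hy
  let Y := hfin.toFinset
  have hY : ∀ x, x ∈ Y ↔ x ∈ S ∧ ∀ y' ∈ S, θ y' ≤ θ x := fun x => by simp [Y]
  have := NDG_free B
  have hfree : Module.Free ℤ (K ⧸ radical B) := Module.free_of_finite_type_torsion_free'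
  let mk : K → K ⧸ radical B := Submodule.Quotient.mk
  let a : ↥Y → ((K ⧸ radical B →+ ℚ) × ℚ) →ₗ[ℚ] ℚ := fun y =>
    (RTP_ev (mk y)).comp (LinearMap.fst ℚ _ _) + LinearMap.snd ℚ _ _
  have ha : ∀ y w z, a y (w, z) = w (mk y) + z := fun _ _ _ => rfl
  obtain ⟨l, hl0, hl⟩ := RTP_far.{u} hfar ((K ⧸ radical B →+ ℚ) × ℚ) (↥Y) a
    (LinearMap.snd ℚ _ _) (by
      rintro ⟨w, z⟩ hw
      show z ≤ 0
      by_contra hcon
      push Not at hcon
      let w' : K →+ ℝ := ((Rat.castHom ℝ).toAddMonoidHom.comp w).comp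
        (radical B).mkQ.toAddMonoidHom
      have hw' : ∀ z, w' z = ((w (mk z) : ℚ) : ℝ) := fun _ => rfl
      obtain ⟨y, hy, hy1, hy2⟩ := hs w' (fun r hr => by
        rw [hw']
        have : mk r = 0 := (Submodule.Quotient.mk_eq_zero _).2 hr
        rw [this, map_zero]
        simp)
      have h3 := hw ⟨y, (hY y).2 ⟨hy, hy1⟩⟩
      rw [ha] at h3
      rw [hw'] at hy2
      have h4 : 0 ≤ w (mk y) := by exact_mod_cast hy2
      have h5 : w (mk y) + z ≤ 0 := h3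
      linarith)
  have hl1 : ∑ y, l y = 1 := by
    have h2 := hl ((0 : K ⧸ radical B →+ ℚ), (1 : ℚ))
    have h3 : ∀ y : ↥Y, a y ((0 : K ⧸ radical B →+ ℚ), (1 : ℚ)) = 1 := fun y => by
      rw [ha]
      simp
    rw [Finset.sum_congr rfl (fun y _ => by rw [h3 y])] at h2
    simpa using h2.symm
  have hl2 : ∀ w : K ⧸ radical B →+ ℚ, ∑ y, l y * w (mk y) = 0 := by
    intro w
    have h2 := hl (w, (0 : ℚ))
    have h3 : ∀ y : ↥Y, a y (w, (0 : ℚ)) = w (mk y) := fun y => by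
      rw [ha, add_zero]
    rw [Finset.sum_congr rfl (fun y _ => by rw [h3 y])] at h2
    simpa using h2.symm
  obtain ⟨D, hD, c, hc⟩ := THBx_clear l hl0
  have hrad : ∑ y : ↥Y, (c y : ℤ) • (y : K) ∈ radical B := by
    rw [← Submodule.Quotient.mk_eq_zero]
    apply THBx_zero
    intro w
    have h2 : (Submodule.Quotient.mk (∑ y : ↥Y, (c y : ℤ) • (y : K)) : K ⧸ radical B) =
        ∑ y : ↥Y, (c y : ℤ) • mk y := by
      show (radical B).mkQ _ = _
      rw [map_sum]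
      refine Finset.sum_congr rfl (fun y _ => ?_)
      rw [map_zsmul]
      rfl
    rw [h2, map_sum]
    have h3 : ∀ y : ↥Y, w ((c y : ℤ) • mk y) = (D : ℚ) * (l y * w (mk y)) := by
      intro y
      rw [map_zsmul, zsmul_eq_mul, ← mul_assoc, ← hc y]
      push_cast
      rfl
    rw [Finset.sum_congr rfl (fun y _ => h3 y), ← Finset.mul_sum, hl2 w, mul_zero]
  obtain ⟨m, x', c', hx', he⟩ := THBx_fin (fun x : ↥Y => (x : K)) c
    (fun y => y ∈ S ∧ ∀ y' ∈ S, θ y' ≤ θ y) (fun x => (hY x).1 x.2)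
  refine ⟨m, x', c', hx', ?_, ?_⟩
  · rw [he]
    exact hrad
  · rw [he, map_sum]
    obtain ⟨y₀, hy₀, hp₀⟩ := hp
    have hpos : ∀ y : ↥Y, 0 < θ y := fun y => lt_of_lt_of_le hp₀ (((hY y).1 y.2).2 y₀ hy₀)
    have hnn : ∀ y : ↥Y, 0 ≤ θ ((c y : ℤ) • (y : K)) := fun y => by
      rw [map_zsmul, zsmul_eq_mul]
      exact mul_nonneg (by positivity) (hpos y).le
    obtain ⟨y, hy⟩ : ∃ y : ↥Y, l y ≠ 0 := by
      by_contra hcon
      push Not at hcon
      rw [Finset.sum_congr rfl (fun y _ => hcon y)] at hl1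
      simp at hl1
    refine Finset.sum_pos' (fun y _ => hnn y) ⟨y, Finset.mem_univ y, ?_⟩
    rw [map_zsmul, zsmul_eq_mul]
    refine mul_pos ?_ (hpos y)
    have h2 : (0 : ℚ) < (c y : ℚ) := by
      rw [hc y]
      exact mul_pos (by exact_mod_cast hD) (lt_of_le_of_ne (hl0 y) (Ne.symm hy))
    have h3 : 0 < c y := by exact_mod_cast h2
    exact_mod_cast h3

end

theorem p_THB : Stmt_FAR.{u} → Stmt_THB.{u} := by
  intro hfar K _ _ _ B im δ Q S hC θ h1 hQ hp hs ht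
  exact ⟨THBx_first hfar hC θ h1 hQ ht, THBx_second hfar hC θ h1 hp hs⟩

end Pool.Sep
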