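import Mathlib
import Pool.Agent.Work.MP_841263_sq.B_FAR
import Pool.Agent.Work.MP_841263_sq.B_ATT
import Pool.Agent.Work.MP_841263_sq.B_MNP
import Pool.Agent.Work.MP_841263_sq.B_NDG
import Pool.Agent.Work.MP_841263_sq.B_CMN
import Pool.Agent.Work.MP_841263_sq.B_THA
import Pool.Agent.Work.MP_841263_sq.B_THB
import Pool.Agent.Work.MP_841263_sq.B_RTP
import Pool.Agent.Work.MP_841263_sq.B_RHO
import Pool.Agent.Work.MP_841263_sq.B_PTR
import Pool.Agent.Work.MP_841263_sq.B_ETR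
import Pool.Agent.Work.MP_841263_sq.B_PHA
import Pool.Agent.Work.MP_841263_sq.B_KNU
import Pool.Agent.Work.MP_841263_sq.B_KNL
import Pool.Agent.Work.MP_841263_sq.B_PFI
import Pool.Agent.Work.MP_841263_sq.B_FQU
import Pool.Agent.Work.MP_841263_sq.B_FSU
import Pool.Agent.Work.MP_841263_sq.B_CRL
import Pool.Agent.Work.MP_841263_sq.B_CVH
import Pool.Agent.Work.MP_841263_sq.B_QMT
import Pool.Agent.Work.MP_841263_sq.B_SLT
import Pool.Agent.Work.MP_841263_sq.B_SUM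
import Pool.Agent.Work.MP_841263_sq.B_SEC
import Pool.Agent.Work.MP_841263_sq.B_SEQ
import Pool.Agent.Work.MP_841263_al.B_LFT
import Pool.Agent.Work.MP_841263_al.B_SAM
import Pool.Agent.Work.MP_841263_al.B_HRT

/-!
# Separation of two objects of a tube heart: all blocks composed (helper34)
-/

open CategoryTheory CategoryTheory.Limits CategoryTheory.Pretriangulated
open scoped ZeroObject Topology

namespace Pool.Sep

open Pool.Stab Pool.Tube Pool.Align

universe v u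

theorem c_ATT : Stmt_ATT.{u} := p_ATT p_FAR
theorem c_CMN : Stmt_CMN.{u} := p_CMN c_ATT p_MNP p_NDG
theorem c_THA : Stmt_THA.{u} := p_THA c_ATT c_CMN
theorem c_THB : Stmt_THB.{u} := p_THB p_FAR
theorem c_RTP : Stmt_RTP.{u} := p_RTP p_FAR
theorem c_RHO : Stmt_RHO.{u} := p_RHO

variable (C : Type u) [Category.{v} C] [Preadditive C] [HasZeroObject C] [HasShift C ℤ]
  [∀ n : ℤ, (shiftFunctor C n).Additive] [Pretriangulated C] [IsTriangulated C] [Linear ℂ C]
  [∀ n : ℤ, (shiftFunctor C n).Linear ℂ]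

theorem c_PTR : Stmt_PTR C := p_PTR p_LFT p_SAM p_HRT
theorem c_ETR : Stmt_ETR C := p_ETR C (c_PTR C)
theorem c_PHA : Stmt_PHA C := p_PHA C
theorem c_KNU : Stmt_KNU C := p_KNU (c_PHA C)
theorem c_KNL : Stmt_KNL C := p_KNL (c_PHA C)
theorem c_PFI : Stmt_PFI C := p_PFI (c_PHA C)
theorem c_CVH : Stmt_CVH C := p_CVH C (p_FQU C) p_FSU (p_CRL C)
theorem c_QMT : Stmt_QMT C := p_QMT (c_PHA C) (c_KNU C) (c_PFI C)
theorem c_SLT : Stmt_SLT C := p_SLT C (c_PHA C) (c_KNU C)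

/-- Separation, given lemma (K). -/
theorem c_SEQ (hK : Stmt_KGA C) : Pool.Align.Stmt_SEP C :=
  p_SEQ C c_THA c_THB c_RTP (c_ETR C) (c_PHA C) (c_KNU C) (c_KNL C) (c_CVH C)
    (p_SEC C c_RHO (c_ETR C) (c_PHA C) (c_QMT C) (c_SLT C) p_SUM hK)

end Pool.Sep
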