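import Mathlib
import Pool.Agent.Work.MP_841263_sq.All
import Pool.Agent.Work.MP_841263_kk.All

/-!
# Separation from lemma (K) in the form of `MP_841263_kk` (helper34)
-/

open CategoryTheory CategoryTheory.Limits CategoryTheory.Pretriangulated
open scoped ZeroObject Topology

namespace Pool.Sep

open Pool.Stab Pool.Tube Pool.Align

universe v u

variable (C : Type u) [Category.{v} C] [Preadditive C] [HasZeroObject C] [HasShift C ℤ]
  [∀ n : ℤ, (shiftFunctor C n).Additive] [Pretriangulated C] [IsTriangulated C] [Linear ℂ C]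
  [∀ n : ℤ, (shiftFunctor C n).Linear ℂ]

theorem c_KGA (hK : Pool.Align.Stmt_KGP C) : Stmt_KGA C := by
  intro h σ φ ρ _ _ _ _ N hN hN0 hNr E hE hEr hpos
  exact hK h σ φ N E hN hN0 hNr (hE.mono fun ψ hψ => ⟨by linarith [hψ.1], hψ.2⟩) hEr hpos

/-- **Separation** (`Pool.Align.Stmt_SEP`), given lemma (K) (`Pool.Align.Stmt_KGP`). -/
theorem c_SEP (hK : Pool.Align.Stmt_KGP C) : Pool.Align.Stmt_SEP C :=
  c_SEQ C (c_KGA C hK)

/-- **Separation** (`Pool.Align.Stmt_SEP`). -/
theorem q_SEP : Pool.Align.Stmt_SEP C := c_SEP C (Pool.Align.q_KGP C)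

end Pool.Sep
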