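import Pool.Agent.Work.MP_841263_sq.Interface

/-!
# Block ETR: the end point of PTR (helper72)
-/

open CategoryTheory CategoryTheory.Limits CategoryTheory.Pretriangulated
open scoped ZeroObject Topology
open Filter

namespace Pool.Sep

open Pool.Stab Pool.Tube Pool.Align

universe v u

variable {C : Type u} [Category.{v} C] [Preadditive C] [HasZeroObject C] [HasShift C ℤ]
  [∀ n : ℤ, (shiftFunctor C n).Additive] [Pretriangulated C] [IsTriangulated C] [Linear ℂ C]
  [∀ n : ℤ, (shiftFunctor C n).Linear ℂ]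

/-- A stability condition is in its own tube. -/
theorem ETR_self {h : EllipticSetting C} {σ : StabCond C} {t : ℝ} {δ : K0 C} {n : ℕ}
    {α : Fin n → K0 C} (hF : Frame h σ t δ α) : Tub h σ t δ α (-(σ.re t)) σ where
  joined := Joined.refl σ
  frame := hF
  re := fun x => by rw [AddMonoidHom.neg_apply, neg_neg]
  im := fun _ => rfl
  same := fun _ _ _ => Iff.rfl
  heart := fun _ => Iff.rfl
  pts := fun _ => Iff.rfl
  tf := fun _ => Iff.rfl

variable (C)

theorem p_ETR : Stmt_PTR C → Stmt_ETR C := by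
  intro hPTR h σ t δ n α hF θ hθ
  have h0 : 0 < (-(σ.re t)) δ := by
    rw [AddMonoidHom.neg_apply]
    linarith [hF.re0]
  obtain ⟨Γ, -, hΓ⟩ := hPTR h σ t δ n α hF (-(σ.re t)) θ σ h0 hθ (ETR_self hF)
  refine ⟨Γ 1, ?_⟩
  have h1 := hΓ 1
  have h2 : (-(σ.re t)) + ((1 : unitInterval) : ℝ) • (θ - (-(σ.re t))) = θ := by
    rw [Set.Icc.coe_one, one_smul]
    abel
  rwa [h2] at h1

end Pool.Sep
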