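import Pool.Agent.Work.MP_841263_sq.Interface

/-!
# Block SUM: sums of classes of objects with a property stable under direct sums
-/

open CategoryTheory CategoryTheory.Limits CategoryTheory.Pretriangulated
open scoped ZeroObject Topology
open Filter

set_option backward.isDefEq.respectTransparency false
set_option backward.defeqAttrib.useBackward true

namespace Pool.Sep

open Pool.Stab Pool.Tube Pool.Align

universe v u

theorem SUM_biprod {C : Type u} [Category.{v} C] [Preadditive C] [HasZeroObject C] [HasShift C ℤ]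
    [∀ n : ℤ, (shiftFunctor C n).Additive] [Pretriangulated C] (X Y : C) :
    cls (X ⊞ Y) = cls X + cls Y :=
  cls_mk (binaryBiproductTriangle_distinguished X Y)

theorem SUM_smul {C : Type u} [Category.{v} C] [Preadditive C] [HasZeroObject C] [HasShift C ℤ]
    [∀ n : ℤ, (shiftFunctor C n).Additive] [Pretriangulated C] (P : C → Prop) (h0 : P 0)
    (hP : ∀ X Y, P X → P Y → P (X ⊞ Y)) (V : C) (hV : P V) (n : ℕ) :
    ∃ W, cls W = (n : ℤ) • cls V ∧ P W := by
  induction n with
  | zero =>
    refine ⟨0, ?_, h0⟩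
    rw [cls_of_isZero (isZero_zero C)]
    simp
  | succ n ih =>
    obtain ⟨W, hW, hPW⟩ := ih
    refine ⟨W ⊞ V, ?_, hP _ _ hPW hV⟩
    rw [SUM_biprod, hW]
    push_cast
    rw [add_smul, one_smul]

theorem p_SUM {C : Type u} [Category.{v} C] [Preadditive C] [HasZeroObject C] [HasShift C ℤ]
    [∀ n : ℤ, (shiftFunctor C n).Additive] [Pretriangulated C] [IsTriangulated C] [Linear ℂ C]
    [∀ n : ℤ, (shiftFunctor C n).Linear ℂ] : Stmt_SUM C := by
  classical
  intro P h0 hP m x c hx
  have key : ∀ s : Finset (Fin m), ∃ V, cls V = ∑ i ∈ s, (c i : ℤ) • x i ∧ P V := by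
    intro s
    induction s using Finset.induction_on with
    | empty =>
      refine ⟨0, ?_, h0⟩
      rw [cls_of_isZero (isZero_zero C)]
      simp
    | insert i s hi ih =>
      obtain ⟨V, hV, hPV⟩ := ih
      obtain ⟨U, hU, hPU⟩ := hx i
      obtain ⟨W, hW, hPW⟩ := SUM_smul P h0 hP U hPU (c i)
      refine ⟨W ⊞ V, ?_, hP _ _ hPW hPV⟩
      rw [SUM_biprod, hW, hV, hU, Finset.sum_insert hi]
  exact key Finset.univ

end Pool.Sep
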